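import Mathlib

/-!
# Counting permutations which are determined on a set by their values on a smaller set
-/

set_option autoImplicit false

namespace Pool.Agent.J4H99.RL

open Finset
open scoped Classical

variable {n : ℕ}

/-- two permutations in `S` which agree on `B` agree on `W` -/
def Det (S : Finset (Equiv.Perm (Fin n))) (B W : Finset (Fin n)) : Prop :=
  ∀ σ ∈ S, ∀ τ ∈ S, (∀ b ∈ B, σ b = τ b) → ∀ w ∈ W, σ w = τ w

theorem count_det (k : ℕ) : ∀ (S : Finset (Equiv.Perm (Fin n))) (B W : Finset (Fin n)),
    B ⊆ W → (W \ B).card = k → Det S B W → S.card * (n - W.card) ^ k ≤ n.factorial := by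
  induction k with
  | zero =>
    intro S B W _ _ _
    rw [pow_zero, mul_one]
    calc S.card ≤ (univ : Finset (Equiv.Perm (Fin n))).card := card_le_univ _
      _ = n.factorial := by rw [card_univ, Fintype.card_perm, Fintype.card_fin]
  | succ k ih =>
    intro S B W hBW hk hdet
    obtain ⟨d, hd⟩ : (W \ B).Nonempty := by
      rw [← card_pos]; omega
    obtain ⟨hdW, hdB⟩ := mem_sdiff.1 hd
    set S' : Finset (Equiv.Perm (Fin n)) :=
      (S ×ˢ Wᶜ).image (fun q : Equiv.Perm (Fin n) × Fin n => q.1 * Equiv.swap d q.2) with hS'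
    have hfix : ∀ (σ : Equiv.Perm (Fin n)) (t b : Fin n), t ∉ W → b ∈ W → b ≠ d →
        (σ * Equiv.swap d t) b = σ b := by
      intro σ t b ht hb hbd
      rw [Equiv.Perm.mul_apply, Equiv.swap_apply_of_ne_of_ne hbd (by rintro rfl; exact ht hb)]
    have hinj : Set.InjOn (fun q : Equiv.Perm (Fin n) × Fin n => q.1 * Equiv.swap d q.2)
        (S ×ˢ Wᶜ : Finset (Equiv.Perm (Fin n) × Fin n)) := by
      rintro ⟨σ, t⟩ h1 ⟨σ', t'⟩ h2 heq
      rw [mem_coe, mem_product, mem_compl] at h1 h2
      dsimp only at h1 h2 heq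
      have hagree : ∀ b ∈ B, σ b = σ' b := by
        intro b hb
        have hbd : b ≠ d := fun h => hdB (h ▸ hb)
        have := congrArg (fun τ : Equiv.Perm (Fin n) => τ b) heq
        rwa [hfix σ t b h1.2 (hBW hb) hbd, hfix σ' t' b h2.2 (hBW hb) hbd] at this
      have hd' : σ d = σ' d := hdet σ h1.1 σ' h2.1 hagree d hdW
      have e1 : (σ * Equiv.swap d t) t = σ d := by
        rw [Equiv.Perm.mul_apply, Equiv.swap_apply_right]
      have e2 : (σ' * Equiv.swap d t') t' = σ' d := by
        rw [Equiv.Perm.mul_apply, Equiv.swap_apply_right]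
      have htt : t = t' := by
        apply (σ * Equiv.swap d t).injective
        rw [e1, hd', ← e2, heq]
      subst htt
      have : σ = σ' := mul_right_cancel heq
      rw [this]
    have hcard : S'.card = S.card * (n - W.card) := by
      rw [hS', card_image_of_injOn hinj, card_product, card_compl, Fintype.card_fin]
    have hB' : B ⊆ W.erase d := fun b hb => mem_erase.2 ⟨fun h => hdB (h ▸ hb), hBW hb⟩
    have hk' : (W.erase d \ B).card = k := by
      have : W.erase d \ B = (W \ B).erase d := by
        ext x; simp only [mem_sdiff, mem_erase]; tauto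
      rw [this, card_erase_of_mem hd, hk]; rfl
    have hdet' : Det S' B (W.erase d) := by
      intro σ₁ h1 σ₂ h2 hag w hw
      rw [hS', mem_image] at h1 h2
      obtain ⟨⟨σ, t⟩, h1, rfl⟩ := h1
      obtain ⟨⟨σ', t'⟩, h2, rfl⟩ := h2
      rw [mem_product, mem_compl] at h1 h2
      dsimp only at h1 h2 hag ⊢
      obtain ⟨hwd, hwW⟩ := mem_erase.1 hw
      rw [hfix σ t w h1.2 hwW hwd, hfix σ' t' w h2.2 hwW hwd]
      refine hdet σ h1.1 σ' h2.1 ?_ w hwW
      intro b hb
      have hbd : b ≠ d := fun h => hdB (h ▸ hb)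
      have := hag b hb
      rwa [hfix σ t b h1.2 (hBW hb) hbd, hfix σ' t' b h2.2 (hBW hb) hbd] at this
    have h3 := ih S' B (W.erase d) hB' hk' hdet'
    calc S.card * (n - W.card) ^ (k + 1) = S'.card * (n - W.card) ^ k := by
          rw [hcard, pow_succ]; ring
      _ ≤ S'.card * (n - (W.erase d).card) ^ k := by
          refine Nat.mul_le_mul_left _ (Nat.pow_le_pow_left ?_ _)
          have := card_erase_le (s := W) (a := d)
          omega
      _ ≤ n.factorial := h3

/-- the count for a set of permutations with at least `c` determined values -/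
theorem count_det' (c : ℕ) (S : Finset (Equiv.Perm (Fin n))) (B W : Finset (Fin n))
    (hBW : B ⊆ W) (hc : c ≤ (W \ B).card) (hW : W.card < n) (hdet : Det S B W) :
    S.card * (n - W.card) ^ c ≤ n.factorial := by
  refine le_trans (Nat.mul_le_mul_left _ (Nat.pow_le_pow_right (by omega) hc))
    (count_det _ S B W hBW rfl hdet)

end Pool.Agent.J4H99.RL
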