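import Mathlib
import Pool.Agent.J4H99.RL.Perm

/-!
# Placements with a given sign pattern
-/

set_option autoImplicit false

namespace Pool.Agent.J4H99.RL

open Finset
open scoped Classical

/-- there is `f` such that `f - y` is constant along the edges of `P`, and `f + y` is constant along the edges
of `Q` -/
def Real {α : Type} (P Q : SimpleGraph α) (y : α → ℝ) : Prop :=
  ∃ f : α → ℝ, (∀ u v, P.Adj u v → f u - y u = f v - y v) ∧ (∀ u v, Q.Adj u v → f u + y u = f v + y v)

theorem const_of_adj {α : Type} {P : SimpleGraph α} {g : α → ℝ} (h : ∀ u v, P.Adj u v → g u = g v)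
    {u v : α} (huv : P.Reachable u v) : g u = g v := by
  obtain ⟨p⟩ := huv
  induction p with
  | nil => rfl
  | cons hadj _ ih => exact (h _ _ hadj).trans ih

theorem exists_small_set {α : Type} [Fintype α] (k : ℕ) : ∀ Y : Submodule ℝ (α → ℝ),
    Module.finrank ℝ Y ≤ k → ∃ B : Finset α, B.card ≤ k ∧ ∀ y ∈ Y, (∀ b ∈ B, y b = 0) → y = 0 := by
  induction k with
  | zero =>
    intro Y hY
    refine ⟨∅, by simp, fun y hy _ => ?_⟩
    have : Y = ⊥ := Submodule.finrank_eq_zero.1 (by omega)
    rw [this] at hy
    simpa using hy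
  | succ k ih =>
    intro Y hY
    by_cases hbot : ∀ y ∈ Y, y = 0
    · exact ⟨∅, by simp, fun y hy _ => hbot y hy⟩
    push Not at hbot
    obtain ⟨y, hy, hy0⟩ := hbot
    obtain ⟨w, hw⟩ : ∃ w, y w ≠ 0 := by
      by_contra hno
      push Not at hno
      exact hy0 (funext hno)
    set Y' : Submodule ℝ (α → ℝ) := Y ⊓ LinearMap.ker (LinearMap.proj (R := ℝ) (φ := fun _ : α => ℝ) w) with hY'
    have hlt : Y' < Y := by
      refine lt_of_le_of_ne inf_le_left fun h => ?_
      rw [← h] at hy
      have := (Submodule.mem_inf.1 hy).2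
      rw [LinearMap.mem_ker] at this
      exact hw this
    have hfin := Submodule.finrank_lt_finrank_of_lt hlt
    obtain ⟨B, hB, hB'⟩ := ih Y' (by omega)
    refine ⟨insert w B, (card_insert_le _ _).trans (by omega), fun z hz hzB => ?_⟩
    refine hB' z ?_ fun b hb => hzB b (mem_insert_of_mem hb)
    rw [hY', Submodule.mem_inf, LinearMap.mem_ker]
    exact ⟨hz, hzB w (mem_insert_self _ _)⟩

/-- the map from the constants to the placements -/
noncomputable def Phi {α : Type} (P Q : SimpleGraph α) :
    ((P.ConnectedComponent → ℝ) × (Q.ConnectedComponent → ℝ)) →ₗ[ℝ] (α → ℝ) where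
  toFun ab := fun w => ab.2 (Q.connectedComponentMk w) - ab.1 (P.connectedComponentMk w)
  map_add' a b := by
    funext w; simp only [Prod.snd_add, Prod.fst_add, Pi.add_apply]; ring
  map_smul' c a := by
    funext w; simp only [Prod.smul_snd, Prod.smul_fst, Pi.smul_apply, smul_eq_mul, RingHom.id_apply]; ring

theorem real_mem {α : Type} {P Q : SimpleGraph α} {y : α → ℝ} (h : Real P Q y) :
    y ∈ LinearMap.range (Phi P Q) := by
  obtain ⟨f, h1, h2⟩ := h
  refine ⟨⟨fun c => (f c.out - y c.out) / 2, fun c => (f c.out + y c.out) / 2⟩, ?_⟩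
  funext w
  have e1 : f (P.connectedComponentMk w).out - y (P.connectedComponentMk w).out = f w - y w := by
    apply const_of_adj (g := fun u => f u - y u) (P := P) h1
    exact SimpleGraph.ConnectedComponent.exact (Quot.out_eq _)
  have e2 : f (Q.connectedComponentMk w).out + y (Q.connectedComponentMk w).out = f w + y w := by
    apply const_of_adj (g := fun u => f u + y u) (P := Q) h2
    exact SimpleGraph.ConnectedComponent.exact (Quot.out_eq _)
  show (f (Q.connectedComponentMk w).out + y (Q.connectedComponentMk w).out) / 2 -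
    (f (P.connectedComponentMk w).out - y (P.connectedComponentMk w).out) / 2 = y w
  rw [e1, e2]; ring

theorem finrank_range {α : Type} [Fintype α] [Nonempty α] (P Q : SimpleGraph α) :
    Module.finrank ℝ (LinearMap.range (Phi P Q)) + 1 ≤
      Nat.card P.ConnectedComponent + Nat.card Q.ConnectedComponent := by
  haveI : Fintype P.ConnectedComponent := Fintype.ofFinite _
  haveI : Fintype Q.ConnectedComponent := Fintype.ofFinite _
  have h1 := LinearMap.finrank_range_add_finrank_ker (Phi P Q)
  rw [Module.finrank_prod, Module.finrank_fintype_fun_eq_card, Module.finrank_fintype_fun_eq_card] at h1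
  have h2 : 0 < Module.finrank ℝ (LinearMap.ker (Phi P Q)) := by
    rw [Module.finrank_pos_iff_exists_ne_zero]
    refine ⟨⟨⟨fun _ => 1, fun _ => 1⟩, ?_⟩, ?_⟩
    · rw [LinearMap.mem_ker]
      funext w
      show (1 : ℝ) - 1 = 0
      norm_num
    · intro h
      have h3 := congrArg (fun z : LinearMap.ker (Phi P Q) => z.1.1) h
      obtain ⟨w⟩ := ‹Nonempty α›
      have h4 := congrFun h3 (P.connectedComponentMk w)
      change (1 : ℝ) = 0 at h4
      norm_num at h4
  rw [Nat.card_eq_fintype_card, Nat.card_eq_fintype_card]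
  omega

/-- A set which determines the placements with a given pattern. -/
theorem exists_det {α : Type} [Fintype α] [Nonempty α] (P Q : SimpleGraph α) :
    ∃ B : Finset α, B.card + 1 ≤ Nat.card P.ConnectedComponent + Nat.card Q.ConnectedComponent ∧
      ∀ y y' : α → ℝ, Real P Q y → Real P Q y' → (∀ b ∈ B, y b = y' b) → y = y' := by
  obtain ⟨B, hB, hB'⟩ := exists_small_set _ (LinearMap.range (Phi P Q)) le_rfl
  refine ⟨B, (Nat.add_le_add_right hB 1).trans (finrank_range P Q), fun y y' hy hy' h => ?_⟩
  have := hB' (y - y') (Submodule.sub_mem _ (real_mem hy) (real_mem hy')) fun b hb => by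
    rw [Pi.sub_apply, h b hb, sub_self]
  exact sub_eq_zero.1 this

/-- The number of permutations with a given pattern on `W`. -/
theorem count_pat {n : ℕ} (x : Fin n → ℝ) (hx : Function.Injective x) (W : Finset (Fin n)) (hW : W.Nonempty)
    (hWn : W.card < n) (P Q : SimpleGraph {w // w ∈ W}) (c : ℕ)
    (hc : c + (Nat.card P.ConnectedComponent + Nat.card Q.ConnectedComponent) ≤ W.card + 1) :
    ((univ : Finset (Equiv.Perm (Fin n))).filter (fun σ => Real P Q (fun w => x (σ w.1)))).card *
      (n - W.card) ^ c ≤ n.factorial := by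
  haveI : Nonempty {w // w ∈ W} := let ⟨w, hw⟩ := hW; ⟨⟨w, hw⟩⟩
  obtain ⟨B, hB, hdet⟩ := exists_det P Q
  have hcard : (B.map (Function.Embedding.subtype fun w => w ∈ W)).card = B.card := card_map _
  have hsub : B.map (Function.Embedding.subtype fun w => w ∈ W) ⊆ W := by
    intro b hb
    obtain ⟨b', _, rfl⟩ := mem_map.1 hb
    exact b'.2
  refine count_det' c _ (B.map (Function.Embedding.subtype fun w => w ∈ W)) W hsub ?_ hWn ?_
  · rw [card_sdiff_of_subset hsub, hcard]
    omega
  · intro σ hσ τ hτ h w hw
    have h1 := (mem_filter.1 hσ).2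
    have h2 := (mem_filter.1 hτ).2
    have h3 := hdet _ _ h1 h2 fun b hb => by
      rw [h b.1 (mem_map.2 ⟨b, hb, rfl⟩)]
    exact hx (congrFun h3 ⟨w, hw⟩)

end Pool.Agent.J4H99.RL
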