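import Mathlib
import Pool.Agent.J4H99.RL.Lin

/-!
# The number of constraints of a sign pattern
-/

set_option autoImplicit false

namespace Pool.Agent.J4H99.RL

open Finset
open scoped Classical

/-- number of edges inside `X` -/
noncomputable def ein {α : Type} [Fintype α] (G : SimpleGraph α) (X : Finset α) : ℕ :=
  ((univ : Finset (Sym2 α)).filter (fun e => e ∈ G.edgeSet ∧ ∀ v ∈ e, v ∈ X)).card

/-- connected component of `v` -/
noncomputable def cmp {α : Type} [Fintype α] (P : SimpleGraph α) (v : α) : Finset α :=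
  univ.filter (fun w => P.Reachable v w)

/-- the connected components -/
noncomputable def cset {α : Type} [Fintype α] (P : SimpleGraph α) : Finset (Finset α) :=
  univ.image (fun v => cmp P v)

section basic

variable {α : Type} [Fintype α] {P : SimpleGraph α}

theorem mem_cmp {v w : α} : w ∈ cmp P v ↔ P.Reachable v w := by
  simp [cmp]

theorem self_mem_cmp (v : α) : v ∈ cmp P v := mem_cmp.2 (SimpleGraph.Reachable.refl v)

theorem cmp_eq {v w : α} (h : P.Reachable v w) : cmp P v = cmp P w := by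
  ext u
  rw [mem_cmp, mem_cmp]
  exact ⟨fun h' => h.symm.trans h', fun h' => h.trans h'⟩

theorem cmp_mem_cset (v : α) : cmp P v ∈ cset P := mem_image.2 ⟨v, mem_univ _, rfl⟩

theorem mem_cset {X : Finset α} : X ∈ cset P ↔ ∃ v, cmp P v = X := by
  simp [cset]

theorem cset_eq_of_mem {X : Finset α} (hX : X ∈ cset P) {v : α} (hv : v ∈ X) : X = cmp P v := by
  obtain ⟨w, rfl⟩ := mem_cset.1 hX
  exact cmp_eq (mem_cmp.1 hv)

theorem cset_disj {X Y : Finset α} (hX : X ∈ cset P) (hY : Y ∈ cset P) (h : X ≠ Y) : Disjoint X Y := by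
  rw [Finset.disjoint_left]
  intro v h1 h2
  exact h ((cset_eq_of_mem hX h1).trans (cset_eq_of_mem hY h2).symm)

theorem cset_nonempty {X : Finset α} (hX : X ∈ cset P) : X.Nonempty := by
  obtain ⟨w, rfl⟩ := mem_cset.1 hX
  exact ⟨w, self_mem_cmp w⟩

theorem sum_cset : ∑ X ∈ cset P, X.card = Fintype.card α := by
  have h1 : (cset P).biUnion (fun X => X) = univ := by
    ext v
    simp only [mem_biUnion, mem_univ, iff_true]
    exact ⟨cmp P v, cmp_mem_cset v, self_mem_cmp v⟩
  rw [← card_biUnion, h1, card_univ]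
  intro X hX Y hY h
  exact cset_disj hX hY h

theorem card_cset : (cset P).card = Nat.card P.ConnectedComponent := by
  have : Fintype P.ConnectedComponent := Fintype.ofFinite _
  rw [Nat.card_eq_fintype_card, ← card_univ]
  symm
  refine card_bij (fun C _ => univ.filter (fun v => P.connectedComponentMk v = C)) ?_ ?_ ?_
  · intro C _
    induction C using SimpleGraph.ConnectedComponent.ind with
    | _ v =>
      rw [mem_cset]
      refine ⟨v, ?_⟩
      ext w
      rw [mem_cmp, mem_filter]
      simp only [mem_univ, true_and, SimpleGraph.ConnectedComponent.eq]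
      exact ⟨fun h => h.symm, fun h => h.symm⟩
  · intro C _ C' _ h
    induction C using SimpleGraph.ConnectedComponent.ind with
    | _ v =>
      have : v ∈ univ.filter (fun w => P.connectedComponentMk w = C') := by
        rw [← h]; simp
      exact (mem_filter.1 this).2
  · intro X hX
    obtain ⟨v, rfl⟩ := mem_cset.1 hX
    refine ⟨P.connectedComponentMk v, mem_univ _, ?_⟩
    ext w
    rw [mem_cmp, mem_filter]
    simp only [mem_univ, true_and, SimpleGraph.ConnectedComponent.eq]
    exact ⟨fun h => h.symm, fun h => h.symm⟩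

end basic

/-- the total defect of a pattern -/
noncomputable def dfc {α : Type} [Fintype α] (P : SimpleGraph α) : ℝ :=
  ∑ X ∈ cset P, ((X.card : ℝ) - 1) * ((Fintype.card α : ℝ) - X.card)

theorem sum_sub_one {α : Type} [Fintype α] (P : SimpleGraph α) :
    ∑ X ∈ cset P, ((X.card : ℝ) - 1) = (Fintype.card α : ℝ) - (cset P).card := by
  rw [sum_sub_distrib, ← Nat.cast_sum, sum_cset]
  simp

theorem edges_le {α : Type} [Fintype α] (H P Q : SimpleGraph α)
    (hPQ : ∀ u v, H.Adj u v → P.Adj u v ∨ Q.Adj u v) :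
    ein H univ ≤ ∑ X ∈ cset P, ein H X + ∑ X ∈ cset Q, ein H X := by
  have hsub : ((univ : Finset (Sym2 α)).filter (fun e => e ∈ H.edgeSet ∧ ∀ v ∈ e, v ∈ (univ : Finset α))) ⊆
      ((cset P).biUnion fun X => (univ : Finset (Sym2 α)).filter (fun e => e ∈ H.edgeSet ∧ ∀ v ∈ e, v ∈ X)) ∪
      ((cset Q).biUnion fun X => (univ : Finset (Sym2 α)).filter (fun e => e ∈ H.edgeSet ∧ ∀ v ∈ e, v ∈ X)) := by
    intro e he
    have he := (mem_filter.1 he).2.1
    induction e with
    | _ u v =>
    rw [SimpleGraph.mem_edgeSet] at he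
    rw [mem_union, mem_biUnion, mem_biUnion]
    rcases hPQ u v he with h | h
    · left
      refine ⟨cmp P u, cmp_mem_cset u, ?_⟩
      rw [mem_filter]
      refine ⟨mem_univ _, he, ?_⟩
      intro w hw
      rcases Sym2.mem_iff.1 hw with rfl | rfl
      · exact self_mem_cmp _
      · exact mem_cmp.2 h.reachable
    · right
      refine ⟨cmp Q u, cmp_mem_cset u, ?_⟩
      rw [mem_filter]
      refine ⟨mem_univ _, he, ?_⟩
      intro w hw
      rcases Sym2.mem_iff.1 hw with rfl | rfl
      · exact self_mem_cmp _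
      · exact mem_cmp.2 h.reachable
  calc ein H univ ≤ _ := card_le_card hsub
    _ ≤ _ := card_union_le _ _
    _ ≤ _ := Nat.add_le_add card_biUnion_le card_biUnion_le

/-- the number of constraints -/
noncomputable def ncon {α : Type} [Fintype α] (P Q : SimpleGraph α) : ℝ :=
  (Fintype.card α : ℝ) + 1 - (cset P).card - (cset Q).card

theorem comb {α : Type} [Fintype α] (H P Q : SimpleGraph α)
    (hPQ : ∀ u v, H.Adj u v → P.Adj u v ∨ Q.Adj u v) (c2 κ : ℝ)
    (hsub : ∀ X : Finset α, X.Nonempty → X ≠ univ → (ein H X : ℝ) ≤ ((X.card : ℝ) - 1) * (c2 + κ * X.card))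
    (hbig : ((Fintype.card α : ℝ) - 1) * (c2 + κ * Fintype.card α) ≤ ein H univ)
    (hP : univ ∉ cset P) (hQ : univ ∉ cset Q) :
    κ * (dfc P + dfc Q) ≤ (c2 + κ * Fintype.card α) * ncon P Q := by
  have h1 : (ein H univ : ℝ) ≤ ∑ X ∈ cset P, (ein H X : ℝ) + ∑ X ∈ cset Q, (ein H X : ℝ) := by
    exact_mod_cast edges_le H P Q hPQ
  have h2 : ∀ R : SimpleGraph α, univ ∉ cset R → ∑ X ∈ cset R, (ein H X : ℝ) ≤
      ∑ X ∈ cset R, ((X.card : ℝ) - 1) * (c2 + κ * X.card) := by
    intro R hR
    refine sum_le_sum fun X hX => hsub X (cset_nonempty hX) ?_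
    rintro rfl
    exact hR hX
  have h3 : ∀ R : SimpleGraph α, κ * dfc R + ∑ X ∈ cset R, ((X.card : ℝ) - 1) * (c2 + κ * X.card) =
      (c2 + κ * Fintype.card α) * ((Fintype.card α : ℝ) - (cset R).card) := by
    intro R
    rw [← sum_sub_one, dfc, mul_sum, mul_sum, ← sum_add_distrib]
    refine sum_congr rfl fun X _ => ?_
    ring
  have h4 := h3 P
  have h5 := h3 Q
  have h6 := h2 P hP
  have h7 := h2 Q hQ
  unfold ncon
  nlinarith

end Pool.Agent.J4H99.RL
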