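import Mathlib
import Pool.Agent.J4H99.RL.Comb

/-!
# Counting connected sets which contain a vertex
-/

set_option autoImplicit false

namespace Pool.Agent.J4H99.RL

open Finset
open scoped Classical

variable {α : Type} [Fintype α] (H : SimpleGraph α)

/-- the supports of the walks of length `L` from `w` -/
noncomputable def supp : ℕ → α → Finset (Finset α)
  | 0, w => {{w}}
  | L + 1, w => (univ.filter (fun u => H.Adj w u)).biUnion (fun u => (supp L u).image (insert w))

theorem card_supp {Δ : ℕ} (hΔ : ∀ w, (univ.filter (fun u => H.Adj w u)).card ≤ Δ) (L : ℕ) :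
    ∀ w, (supp H L w).card ≤ Δ ^ L := by
  induction L with
  | zero => intro w; simp [supp]
  | succ L ih =>
    intro w
    rw [supp]
    calc _ ≤ ∑ u ∈ univ.filter (fun u => H.Adj w u), ((supp H L u).image (insert w)).card := card_biUnion_le
      _ ≤ ∑ u ∈ univ.filter (fun u => H.Adj w u), Δ ^ L := sum_le_sum fun u _ => card_image_le.trans (ih u)
      _ = (univ.filter (fun u => H.Adj w u)).card * Δ ^ L := by rw [sum_const, smul_eq_mul]
      _ ≤ Δ * Δ ^ L := Nat.mul_le_mul_right _ (hΔ w)
      _ = Δ ^ (L + 1) := by rw [pow_succ]; ring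

theorem walk_supp {w v : α} (p : H.Walk w v) : p.support.toFinset ∈ supp H p.length w := by
  induction p with
  | nil => simp [supp]
  | @cons a b c hadj q ih =>
    rw [SimpleGraph.Walk.length_cons, supp, mem_biUnion]
    refine ⟨b, by simpa using hadj, ?_⟩
    rw [mem_image]
    refine ⟨_, ih, ?_⟩
    rw [SimpleGraph.Walk.support_cons, List.toFinset_cons]

theorem walk_extend {w u v : α} (p : H.Walk w w) (hu : u ∈ p.support) (huv : H.Adj u v) :
    ∃ p' : H.Walk w w, p'.length = p.length + 2 ∧ ∀ z, z ∈ p'.support ↔ z ∈ p.support ∨ z = v := by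
  refine ⟨(p.takeUntil u hu).append (.cons huv (.cons huv.symm (p.dropUntil u hu))), ?_, ?_⟩
  · rw [SimpleGraph.Walk.length_append, SimpleGraph.Walk.length_cons, SimpleGraph.Walk.length_cons]
    have := congrArg SimpleGraph.Walk.length (p.take_spec hu)
    rw [SimpleGraph.Walk.length_append] at this
    omega
  · intro z
    rw [SimpleGraph.Walk.mem_support_append_iff, SimpleGraph.Walk.support_cons, SimpleGraph.Walk.support_cons,
      List.mem_cons, List.mem_cons]
    have h : z ∈ p.support ↔ z ∈ (p.takeUntil u hu).support ∨ z ∈ (p.dropUntil u hu).support := by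
      conv_lhs => rw [← p.take_spec hu]
      exact SimpleGraph.Walk.mem_support_append_iff _ _
    have h2 : u ∈ (p.dropUntil u hu).support := SimpleGraph.Walk.start_mem_support _
    rw [h]
    constructor
    · rintro (h3 | rfl | rfl | h3)
      · exact Or.inl (Or.inl h3)
      · exact Or.inl (Or.inr h2)
      · exact Or.inr rfl
      · exact Or.inl (Or.inr h3)
    · rintro ((h3 | h3) | rfl)
      · exact Or.inl h3
      · exact Or.inr (Or.inr (Or.inr h3))
      · exact Or.inr (Or.inr (Or.inl rfl))

/-- `S` is connected and contains `w` (by cuts) -/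
def Cut (w : α) (S : Finset α) : Prop :=
  w ∈ S ∧ ∀ X ⊆ S, X ≠ S → w ∈ X → ∃ u ∈ X, ∃ v ∈ S, v ∉ X ∧ H.Adj u v

theorem exists_walk {w : α} {S : Finset α} (hS : Cut H w S) (k : ℕ) : k + 1 ≤ S.card →
    ∃ p : H.Walk w w, p.length = 2 * k ∧ p.support.toFinset ⊆ S ∧ p.support.toFinset.card = k + 1 := by
  induction k with
  | zero =>
    intro _
    refine ⟨.nil, rfl, ?_, by simp⟩
    intro z hz
    simp only [SimpleGraph.Walk.support_nil, List.toFinset_cons, List.toFinset_nil, insert_empty_eq,
      mem_singleton] at hz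
    rw [hz]; exact hS.1
  | succ k ih =>
    intro hk
    obtain ⟨p, hp1, hp2, hp3⟩ := ih (by omega)
    obtain ⟨u, hu, v, hv, hvn, hadj⟩ := hS.2 _ hp2 (fun h => by rw [h] at hp3; omega)
      (List.mem_toFinset.2 (SimpleGraph.Walk.start_mem_support _))
    obtain ⟨p', h1, h2⟩ := walk_extend H p (List.mem_toFinset.1 hu) hadj
    have h3 : p'.support.toFinset = insert v p.support.toFinset := by
      ext z
      rw [List.mem_toFinset, h2, mem_insert, List.mem_toFinset]
      tauto
    refine ⟨p', by rw [h1, hp1]; ring, ?_, ?_⟩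
    · rw [h3]
      exact insert_subset hv hp2
    · rw [h3, card_insert_of_notMem hvn, hp3]

theorem cut_mem_supp {w : α} {S : Finset α} (hS : Cut H w S) : S ∈ supp H (2 * (S.card - 1)) w := by
  have hpos : 0 < S.card := card_pos.2 ⟨w, hS.1⟩
  obtain ⟨p, h1, h2, h3⟩ := exists_walk H hS (S.card - 1) (by omega)
  have h4 : p.support.toFinset = S := eq_of_subset_of_card_le h2 (by omega)
  rw [← h1, ← h4]
  exact walk_supp H p

/-- the edges which touch `S` -/
noncomputable def touch (S : Finset α) : Finset (Sym2 α) :=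
  univ.filter (fun e => e ∈ H.edgeSet ∧ ∃ v ∈ e, v ∈ S)

theorem card_touch {Δ : ℕ} (hΔ : ∀ w, (univ.filter (fun u => H.Adj w u)).card ≤ Δ) (S : Finset α) :
    (touch H S).card ≤ Δ * S.card := by
  have hsub : touch H S ⊆ S.biUnion (fun w => (univ.filter (fun u => H.Adj w u)).image (fun u => s(w, u))) := by
    intro e he
    obtain ⟨he1, v, hv, hvS⟩ := (mem_filter.1 he).2
    rw [mem_biUnion]
    refine ⟨v, hvS, ?_⟩
    obtain ⟨u, rfl⟩ := hv
    rw [mem_image]
    exact ⟨u, by simpa using he1, rfl⟩
  calc (touch H S).card ≤ _ := card_le_card hsub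
    _ ≤ _ := card_biUnion_le
    _ ≤ ∑ w ∈ S, Δ := sum_le_sum fun w _ => card_image_le.trans (hΔ w)
    _ = Δ * S.card := by rw [sum_const, smul_eq_mul, mul_comm]

end Pool.Agent.J4H99.RL
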