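import Mathlib
import Pool.Agent.N943.RC.Union
import Pool.Agent.R508.FDexp
import Pool.Agent.H249.ER.Neg

/-!
# Product Bernoulli spaces: tools
-/

set_option autoImplicit false

namespace Pool.Agent.J4H99.RL

open Finset Pool.Agent.R980
open scoped Classical

/-- probability of an event in a product Bernoulli space -/
noncomputable def pr {E : Type} [Fintype E] [DecidableEq E] (p : ℝ) (A : (E → Bool) → Prop) : ℝ :=
  bex p (fun x => if A x then 1 else 0)

section tools

variable {E : Type} [Fintype E] [DecidableEq E] {p : ℝ}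

theorem bex_sum {ι : Type} (s : Finset ι) (f : ι → (E → Bool) → ℝ) :
    bex p (fun x => ∑ i ∈ s, f i x) = ∑ i ∈ s, bex p (f i) := by
  unfold bex
  rw [sum_comm]
  exact sum_congr rfl fun x _ => by rw [mul_sum]

theorem bex_nonneg (h0 : 0 ≤ p) (h1 : p ≤ 1) {f : (E → Bool) → ℝ} (hf : ∀ x, 0 ≤ f x) : 0 ≤ bex p f :=
  sum_nonneg fun x _ => mul_nonneg (bw_nonneg h0 h1 x) (hf x)

theorem pr_ite {A : (E → Bool) → Prop} (inst : ∀ x, Decidable (A x)) :
    bex p (fun x => @ite ℝ (A x) (inst x) 1 0) = pr p A := by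
  unfold pr
  congr 1
  funext x
  by_cases h : A x
  · rw [if_pos h, if_pos h]
  · rw [if_neg h, if_neg h]

theorem pr_nonneg (h0 : 0 ≤ p) (h1 : p ≤ 1) (A : (E → Bool) → Prop) : 0 ≤ pr p A :=
  bex_nonneg h0 h1 fun x => by split_ifs <;> norm_num

theorem pr_mono (h0 : 0 ≤ p) (h1 : p ≤ 1) {A B : (E → Bool) → Prop} (h : ∀ x, A x → B x) :
    pr p A ≤ pr p B := by
  refine bex_mono h0 h1 fun x => ?_
  by_cases hA : A x
  · rw [if_pos hA, if_pos (h _ hA)]
  · rw [if_neg hA]; split_ifs <;> norm_num

theorem pr_true : pr p (fun _ : E → Bool => True) = 1 := by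
  unfold pr
  simp only [if_true]
  exact bex_const p 1

theorem pr_le_one (h0 : 0 ≤ p) (h1 : p ≤ 1) (A : (E → Bool) → Prop) : pr p A ≤ 1 := by
  rw [← pr_true (E := E) (p := p)]
  exact pr_mono h0 h1 fun _ _ => trivial

theorem pr_or (h0 : 0 ≤ p) (h1 : p ≤ 1) (A B : (E → Bool) → Prop) :
    pr p (fun x => A x ∨ B x) ≤ pr p A + pr p B := by
  unfold pr
  rw [← bex_add]
  refine bex_mono h0 h1 fun x => ?_
  by_cases hA : A x <;> by_cases hB : B x <;> simp [hA, hB]

theorem pr_add_not (A : (E → Bool) → Prop) : pr p A + pr p (fun x => ¬ A x) = 1 := by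
  unfold pr
  rw [← bex_add, ← bex_const (E := E) p 1]
  congr 1
  funext x
  by_cases h : A x
  · rw [if_pos h, if_neg (not_not.2 h), add_zero, bex_const]
  · rw [if_neg h, if_pos h, zero_add, bex_const]

theorem pr_exists {ι : Type} (s : Finset ι) (h0 : 0 ≤ p) (h1 : p ≤ 1) (A : ι → (E → Bool) → Prop) :
    pr p (fun x => ∃ i ∈ s, A i x) ≤ ∑ i ∈ s, pr p (A i) := by
  unfold pr
  rw [← bex_sum]
  refine bex_mono h0 h1 fun x => ?_
  have hnn : ∀ i ∈ s, (0 : ℝ) ≤ if A i x then (1 : ℝ) else 0 :=
    fun i _ => by split_ifs <;> norm_num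
  by_cases h : ∃ i ∈ s, A i x
  · rw [if_pos h]
    obtain ⟨i, hi, hA⟩ := h
    refine le_trans ?_ (single_le_sum hnn hi)
    rw [if_pos hA]
  · rw [if_neg h]
    exact sum_nonneg hnn

theorem pr_markov (h0 : 0 ≤ p) (h1 : p ≤ 1) (A : (E → Bool) → Prop) (f : (E → Bool) → ℝ)
    (hf : ∀ x, 0 ≤ f x) (a : ℝ) (ha : 0 < a) (h : ∀ x, A x → a ≤ f x) : pr p A ≤ bex p f / a := by
  rw [le_div_iff₀ ha, mul_comm]
  unfold pr
  rw [← bex_mul]
  refine bex_mono h0 h1 fun x => ?_
  by_cases hA : A x
  · rw [if_pos hA, mul_one]; exact h x hA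
  · rw [if_neg hA, mul_zero]; exact hf x

/-- the probability that all coordinates in `T` are present -/
theorem pr_present (T : Finset E) : pr p (fun x => ∀ e ∈ T, x e = true) = p ^ T.card := by
  have h : pr p (fun x => ∀ e ∈ T, x e = true) =
      bex p (fun x => ∏ e, (if e ∈ T then (if x e = true then (1 : ℝ) else 0) else 1)) := by
    unfold pr
    congr 1
    funext x
    by_cases hx : ∀ e ∈ T, x e = true
    · rw [if_pos hx]
      symm
      refine prod_eq_one fun e _ => ?_
      by_cases he : e ∈ T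
      · rw [if_pos he, if_pos (hx e he)]
      · rw [if_neg he]
    · rw [if_neg hx]
      push Not at hx
      obtain ⟨e, he, hxe⟩ := hx
      symm
      refine prod_eq_zero (mem_univ e) ?_
      rw [if_pos he, if_neg hxe]
  rw [h, bex_prod p (fun e b => if e ∈ T then (if b = true then (1 : ℝ) else 0) else 1)]
  have h2 : ∀ e : E, (p * (if e ∈ T then (if true = true then (1 : ℝ) else 0) else 1) +
      (1 - p) * (if e ∈ T then (if false = true then (1 : ℝ) else 0) else 1)) = if e ∈ T then p else 1 := by
    intro e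
    by_cases he : e ∈ T <;> simp [he]
  rw [prod_congr rfl fun e _ => h2 e, prod_ite_mem, univ_inter, prod_const]

/-- first moment: at least `t` coordinates of `A` are present -/
theorem pr_many (h0 : 0 ≤ p) (h1 : p ≤ 1) (A : Finset E) (t : ℕ) :
    pr p (fun x => t ≤ (A.filter fun e => x e = true).card) ≤ (A.card.choose t : ℝ) * p ^ t := by
  calc pr p (fun x => t ≤ (A.filter fun e => x e = true).card)
      ≤ pr p (fun x => ∃ T ∈ A.powersetCard t, ∀ e ∈ T, x e = true) := by
        refine pr_mono h0 h1 fun x hx => ?_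
        obtain ⟨T, hT, hTc⟩ := exists_subset_card_eq hx
        exact ⟨T, mem_powersetCard.2 ⟨hT.trans (filter_subset _ _), hTc⟩,
          fun e he => (mem_filter.1 (hT he)).2⟩
    _ ≤ ∑ T ∈ A.powersetCard t, pr p (fun x => ∀ e ∈ T, x e = true) := pr_exists _ h0 h1 _
    _ = ∑ T ∈ A.powersetCard t, p ^ t := by
        refine sum_congr rfl fun T hT => ?_
        rw [pr_present, (mem_powersetCard.1 hT).2]
    _ = _ := by rw [sum_const, card_powersetCard, nsmul_eq_mul]

open Pool.Agent.R508.FD in
/-- `EE` as a weighted sum over subsets -/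
theorem EE_eq (a : E → ℝ) (l : List E) (hl : l.Nodup) : ∀ f : Finset E → ℝ,
    EE a l f = ∑ S ∈ l.toFinset.powerset, (∏ x ∈ l.toFinset, if x ∈ S then a x else 1 - a x) * f S := by
  induction l with
  | nil => intro f; simp [EE]
  | cons x l ih =>
    intro f
    have hx : x ∉ l.toFinset := by
      rw [List.mem_toFinset]; exact (List.nodup_cons.1 hl).1
    have ih := ih (List.nodup_cons.1 hl).2
    rw [EE, ih, ih, List.toFinset_cons, powerset_insert, sum_union, sum_image]
    · rw [add_comm, mul_sum, mul_sum]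
      congr 1
      · refine sum_congr rfl fun S hS => ?_
        have hxS : x ∉ S := fun h => hx (mem_powerset.1 hS h)
        rw [prod_insert hx, if_neg hxS]
        ring
      · refine sum_congr rfl fun S hS => ?_
        rw [prod_insert hx, if_pos (mem_insert_self _ _), ← mul_assoc]
        congr 2
        refine prod_congr rfl fun y hy => ?_
        have hyx : y ≠ x := fun h => hx (h ▸ hy)
        simp [hyx]
    · intro S hS T hT h
      have hxS : x ∉ S := fun h => hx (mem_powerset.1 hS h)
      have hxT : x ∉ T := fun h => hx (mem_powerset.1 hT h)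
      rw [← erase_insert hxS, ← erase_insert hxT]
      exact congrArg (fun Z => Z.erase x) h
    · rw [disjoint_left]
      intro S hS hS'
      obtain ⟨T, -, rfl⟩ := mem_image.1 hS'
      exact hx (mem_powerset.1 hS (mem_insert_self _ _))

/-- turn off the coordinate `e` -/
def off (x : E → Bool) (e : E) : E → Bool := Function.update x e false

open Pool.Agent.R508.FD in
theorem EE_bex (F : (E → Bool) → ℝ) :
    EE (fun _ => p) (univ : Finset E).toList (fun S => F (fun e => decide (e ∈ S))) = bex p F := by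
  rw [EE_eq _ _ (nodup_toList _), toList_toFinset, powerset_univ]
  unfold bex
  refine Fintype.sum_bijective (fun (S : Finset E) (e : E) => decide (e ∈ S)) ?_ _ _ ?_
  · constructor
    · intro S T h
      ext e
      have := congrFun h e
      simpa using this
    · intro x
      refine ⟨univ.filter (fun e => x e = true), ?_⟩
      funext e
      by_cases h : x e = true
      · simp [h]
      · simp [h]
  · intro S
    congr 1
    unfold bw
    refine prod_congr rfl fun e _ => ?_
    by_cases h : e ∈ S <;> simp [h]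

open Pool.Agent.R508.FD in
/-- the Efron–Stein inequality -/
theorem efron_stein (h0 : 0 ≤ p) (h1 : p ≤ 1) (F : (E → Bool) → ℝ) :
    bex p (fun x => F x ^ 2) - bex p F ^ 2 ≤
      bex p (fun x => ∑ e ∈ univ.filter (fun e => x e = true), (F x - F (off x e)) ^ 2) := by
  have h := Pool.Agent.R508.FD.efron_stein (a := fun _ : E => p) (univ : Finset E).toList (nodup_toList _)
    (fun _ _ => ⟨h0, h1⟩) (fun S => F (fun e => decide (e ∈ S)))
  rw [EE_bex (p := p) F, EE_bex (p := p) (fun x => F x ^ 2)] at h
  refine h.trans (le_of_eq ?_)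
  rw [← EE_bex]
  congr 1
  funext S
  refine sum_congr ?_ fun e he => ?_
  · ext e; simp
  · congr 3
    funext e'
    unfold off
    by_cases h : e' = e
    · subst h; simp
    · rw [Function.update_of_ne h]
      simp [h]

theorem bex_card (A : Finset E) : bex p (fun x => ((A.filter fun e => x e = true).card : ℝ)) = p * A.card := by
  have h : (fun x : E → Bool => ((A.filter fun e => x e = true).card : ℝ)) =
      fun x => ∑ e ∈ A, (if x e = true then (1 : ℝ) else 0) := by
    funext x
    rw [card_filter]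
    push_cast
    rfl
  rw [h, bex_sum]
  have h2 : ∀ e ∈ A, bex p (fun x : E → Bool => (if x e = true then (1 : ℝ) else 0)) = p := by
    intro e _
    have := pr_present (p := p) ({e} : Finset E)
    rw [card_singleton, pow_one] at this
    rw [← this]
    unfold pr
    congr 1
    funext x
    by_cases hx : x e = true
    · rw [if_pos hx, if_pos (by simpa using hx)]
    · rw [if_neg hx, if_neg (by simpa using hx)]
  rw [sum_congr rfl h2, sum_const, nsmul_eq_mul, mul_comm]

/-- Chebyshev's inequality for functions with bounded differences -/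
theorem cheb (h0 : 0 ≤ p) (h1 : p ≤ 1) (F : (E → Bool) → ℝ) (A : Finset E) (c : ℝ) (hc : 0 ≤ c)
    (hA : ∀ x e, e ∉ A → F x = F (off x e)) (hF : ∀ x e, |F x - F (off x e)| ≤ c) (t : ℝ) (ht : 0 < t) :
    pr p (fun x => t ≤ |F x - bex p F|) ≤ p * A.card * c ^ 2 / t ^ 2 := by
  set m := bex p F with hm
  have h2 := efron_stein h0 h1 (fun x => F x - m)
  have h3 : bex p (fun x => F x - m) = 0 := by
    have := bex_add p F (fun _ => -m)
    rw [bex_const] at this
    rw [show (fun x => F x - m) = fun x => F x + -m from by funext x; ring, this, ← hm]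
    ring
  rw [h3] at h2
  have h4 : bex p (fun x => ∑ e ∈ univ.filter (fun e => x e = true), ((F x - m) - (F (off x e) - m)) ^ 2) ≤
      bex p (fun x => c ^ 2 * ((A.filter fun e => x e = true).card : ℝ)) := by
    refine bex_mono h0 h1 fun x => ?_
    have h5 : ∀ e ∈ univ.filter (fun e => x e = true), ((F x - m) - (F (off x e) - m)) ^ 2 ≤
        if e ∈ A then c ^ 2 else 0 := by
      intro e _
      by_cases he : e ∈ A
      · rw [if_pos he, show (F x - m) - (F (off x e) - m) = F x - F (off x e) by ring, ← sq_abs]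
        exact pow_le_pow_left₀ (abs_nonneg _) (hF x e) 2
      · rw [if_neg he, hA x e he]
        simp
    refine (sum_le_sum h5).trans (le_of_eq ?_)
    rw [← sum_filter, sum_const, nsmul_eq_mul, mul_comm]
    congr 2
    congr 1
    ext e; simp [and_comm]
  rw [bex_mul, bex_card] at h4
  have h6 : pr p (fun x => t ≤ |F x - m|) ≤ bex p (fun x => (F x - m) ^ 2) / t ^ 2 := by
    refine pr_markov h0 h1 _ _ (fun x => sq_nonneg _) _ (by positivity) fun x hx => ?_
    rw [← sq_abs (F x - m)]
    exact pow_le_pow_left₀ ht.le hx 2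
  refine h6.trans (div_le_div_of_nonneg_right ?_ (by positivity))
  have h7 : (0 : ℝ) ^ 2 = 0 := by norm_num
  rw [h7, sub_zero] at h2
  linarith

/-- the union of two independent rounds -/
theorem bex_two (p₁ p₂ : ℝ) (F : (E → Bool) → ℝ) :
    bex (1 - (1 - p₁) * (1 - p₂)) F =
      bex p₁ (fun x => bex p₂ (fun y => F (fun e => x e || y e))) := by
  have hp := N943.RC.bex_push (E := E) (L := Bool × Bool) 0 (1 - (1 - p₁) * (1 - p₂))
    (fun l => l.1 || l.2) (fun l => (if l.1 = true then p₁ else 1 - p₁) * (if l.2 = true then p₂ else 1 - p₂))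
    (by simp [Fintype.sum_prod_type]; ring) (by simp [Fintype.sum_prod_type]) F
  rw [← hp]
  unfold bex
  rw [← (Equiv.arrowProdEquivProdArrow E (fun _ => Bool) (fun _ => Bool)).symm.sum_comp, Fintype.sum_prod_type]
  refine sum_congr rfl fun x _ => ?_
  rw [mul_sum]
  refine sum_congr rfl fun y _ => ?_
  rw [← mul_assoc]
  congr 1
  unfold bw
  rw [← prod_mul_distrib]
  rfl

end tools

theorem gnp_eq_pr (n : ℕ) (p : ℝ) (A : SimpleGraph (Fin n) → Prop) :
    gnp n p A = pr p (fun x : Edge n → Bool => A (ofBool x)) := gnp_eq_bex n p A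

open Pool.Agent.Q287.SR in
theorem ex_eq_bex (n : ℕ) (p : ℝ) (f : SimpleGraph (Fin n) → ℝ) :
    Ex n p f = bex p (fun x : Edge n → Bool => f (ofBool x)) := by
  unfold Ex bex
  rw [← (boolEquiv n).sum_comp]
  refine sum_congr rfl fun x _ => ?_
  congr 1
  unfold erWeight bw
  rw [prod_subtype (pairs n) (p := fun e => ¬ e.IsDiag) (fun e => by simp [pairs])]
  refine prod_congr rfl fun e _ => ?_
  have : e.1 ∈ (boolEquiv n x).edgeSet ↔ x e = true := mem_ofBool x e
  by_cases h : x e = true
  · rw [if_pos h, if_pos (this.2 h)]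
  · rw [if_neg h, if_neg (fun h' => h (this.1 h'))]

end Pool.Agent.J4H99.RL
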