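import Mathlib
import Pool.Agent.J4H99.RL.Prob
import Pool.Agent.J4H99.RL.Comb

/-!
# Many vertices in components of size larger than a constant
-/

set_option autoImplicit false

namespace Pool.Agent.J4H99.RL

open Finset Pool.Agent.R980
open scoped Classical

/-- pairs inside `X` -/
noncomputable def Ein {n : ℕ} (X : Finset (Fin n)) : Finset (Edge n) := univ.filter (fun e => ∀ v ∈ e.1, v ∈ X)

theorem ein_eq {n : ℕ} (x : Edge n → Bool) (X : Finset (Fin n)) :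
    ein (ofBool x) X = ((Ein X).filter fun e => x e = true).card := by
  unfold ein Ein
  rw [filter_filter]
  symm
  refine card_bij (fun e _ => e.1) ?_ ?_ ?_
  · intro e he
    obtain ⟨h1, h2⟩ := (mem_filter.1 he).2
    simp only [mem_filter, mem_univ, true_and]
    exact ⟨(mem_ofBool x e).2 h2, h1⟩
  · intro a _ b _ h
    exact Subtype.ext h
  · intro e he
    simp only [mem_filter, mem_univ, true_and] at he
    obtain ⟨h1, h2⟩ := he
    have hd : ¬ e.IsDiag := SimpleGraph.not_isDiag_of_mem_edgeSet _ h1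
    exact ⟨⟨e, hd⟩, mem_filter.2 ⟨mem_univ _, h2, (mem_ofBool x ⟨e, hd⟩).1 h1⟩, rfl⟩

theorem choose_step {n m k k0 : ℕ} (hk : k < k0) (hm : k0 + m ≤ n) (ρ : ℝ) (hρ1 : ρ ≤ 1)
    (hρ : ρ * ((n : ℝ) - k0) ≤ (n : ℝ) - k0 - m) :
    ((n - k).choose m : ℝ) * ρ ≤ ((n - (k + 1)).choose m : ℝ) := by
  have h1 := Nat.choose_mul_succ_eq (n - (k + 1)) m
  rw [show n - (k + 1) + 1 = n - k by omega] at h1
  have h2 : ((n - (k + 1)).choose m : ℝ) * ((n : ℝ) - k) = ((n - k).choose m : ℝ) * ((n : ℝ) - k - m) := by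
    have h3 : ((n - k : ℕ) : ℝ) = (n : ℝ) - k := by rw [Nat.cast_sub (by omega)]
    have h4 : ((n - k - m : ℕ) : ℝ) = (n : ℝ) - k - m := by rw [Nat.cast_sub (by omega), Nat.cast_sub (by omega)]
    rw [← h4, ← h3]
    exact_mod_cast h1
  have hk' : (k : ℝ) + 1 ≤ k0 := by exact_mod_cast hk
  have hmn : (k0 : ℝ) + m ≤ n := by exact_mod_cast hm
  have hm0 : (0 : ℝ) ≤ m := Nat.cast_nonneg _
  have hpos : (0 : ℝ) < (n : ℝ) - k := by linarith
  have hρ1 : ρ * ((n : ℝ) - k) ≤ (n : ℝ) - k - m := by nlinarith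
  have hc : (0 : ℝ) ≤ ((n - k).choose m : ℝ) := Nat.cast_nonneg _
  have h7 : ((n - k).choose m : ℝ) * ρ * ((n : ℝ) - k) ≤ ((n - (k + 1)).choose m : ℝ) * ((n : ℝ) - k) := by
    rw [h2, mul_assoc]
    exact mul_le_mul_of_nonneg_left hρ1 hc
  exact le_of_mul_le_mul_right h7 hpos

theorem choose_low {n m k0 : ℕ} (hm : k0 + m ≤ n) (ρ : ℝ) (hρ0 : 0 ≤ ρ) (hρ1 : ρ ≤ 1)
    (hρ : ρ * ((n : ℝ) - k0) ≤ (n : ℝ) - k0 - m) (k : ℕ) (hk : k ≤ k0) :
    (n.choose m : ℝ) * ρ ^ k ≤ ((n - k).choose m : ℝ) := by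
  induction k with
  | zero => simp
  | succ k ih =>
    calc (n.choose m : ℝ) * ρ ^ (k + 1) = ((n.choose m : ℝ) * ρ ^ k) * ρ := by rw [pow_succ]; ring
      _ ≤ ((n - k).choose m : ℝ) * ρ := mul_le_mul_of_nonneg_right (ih (by omega)) hρ0
      _ ≤ _ := choose_step (by omega) hm ρ hρ1 hρ

open Pool.Agent.Q287.SR Pool.Agent.H249.ER in
theorem small_prob {n m k0 : ℕ} (hm : k0 + m ≤ n) (hmn : m < n) {p : ℝ} (h0 : 0 ≤ p) (h1 : p < 1)
    (hρ : (1 - p) ^ m * ((n : ℝ) - k0) ≤ (n : ℝ) - k0 - m) (v : Fin n) :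
    pr p (fun x : Edge n → Bool => (cmp (ofBool x) v).card ≤ k0) ≤ 1 - (m : ℝ) / n := by
  have hide := t_IDE t_IND n p h0 h1 v m hmn
  rw [ex_eq_bex] at hide
  have hn : (0 : ℝ) < n := by
    have : 0 < n := by omega
    exact_mod_cast this
  have hp : 0 < 1 - p := by linarith
  have hcpos : (0 : ℝ) < (n.choose m : ℝ) := by exact_mod_cast Nat.choose_pos hmn.le
  have h2 : (n.choose m : ℝ) * pr p (fun x : Edge n → Bool => (cmp (ofBool x) v).card ≤ k0) ≤
      ((n - 1).choose m : ℝ) := by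
    rw [← hide]
    unfold pr
    rw [← bex_mul]
    refine bex_mono h0 h1.le fun x => ?_
    have hcc : comp (ofBool x) v = cmp (ofBool x) v := by
      ext w; simp [comp, cmp]
    rw [hcc]
    by_cases hx : (cmp (ofBool x) v).card ≤ k0
    · rw [if_pos hx, mul_one, le_div_iff₀ (pow_pos hp _), pow_mul]
      exact choose_low hm _ (pow_pos hp _).le (pow_le_one₀ hp.le (by linarith)) hρ _ hx
    · rw [if_neg hx, mul_zero]
      exact div_nonneg (Nat.cast_nonneg _) (pow_pos hp _).le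
  have h3 : ((n - 1).choose m : ℝ) * n = (n.choose m : ℝ) * ((n : ℝ) - m) := by
    have h4 := Nat.choose_mul_succ_eq (n - 1) m
    rw [show n - 1 + 1 = n by omega] at h4
    have h5 : ((n - m : ℕ) : ℝ) = (n : ℝ) - m := by rw [Nat.cast_sub hmn.le]
    rw [← h5]
    exact_mod_cast h4
  have h6 : (n.choose m : ℝ) * (pr p (fun x : Edge n → Bool => (cmp (ofBool x) v).card ≤ k0) * n) ≤
      (n.choose m : ℝ) * ((n : ℝ) - m) := by
    rw [← h3, ← mul_assoc]
    exact mul_le_mul_of_nonneg_right h2 hn.le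
  have h7 := le_of_mul_le_mul_left h6 hcpos
  rw [show (1 : ℝ) - m / n = ((n : ℝ) - m) / n by field_simp]
  rwa [le_div_iff₀ hn]

theorem small_prob' (ε : ℝ) (hε : 0 < ε) (hε1 : ε ≤ 1) (k0 : ℕ) :
    ∃ N : ℕ, ∀ n ≥ N, ∀ v : Fin n,
      pr ((1 + ε) / n) (fun x : Edge n → Bool => (cmp (ofBool x) v).card ≤ k0) ≤ 1 - ε / 16 := by
  obtain ⟨N, hN⟩ := exists_nat_gt (16 / ε + 8 * k0 / ε + 4 * k0 + 4)
  refine ⟨N, fun n hn v => ?_⟩
  have hnN : (N : ℝ) ≤ n := by exact_mod_cast hn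
  have hk0 : (0 : ℝ) ≤ k0 := Nat.cast_nonneg _
  have hA : 0 < 16 / ε := by positivity
  have hB : 0 ≤ 8 * (k0 : ℝ) / ε := by positivity
  have hn16 : 16 / ε < n := by linarith
  have hnk : 8 * (k0 : ℝ) / ε < n := by linarith
  have hn4 : (4 : ℝ) * k0 + 4 < n := by linarith
  have hn0 : (0 : ℝ) < n := by linarith
  rw [div_lt_iff₀ hε] at hn16 hnk
  set m : ℕ := ⌊ε / 8 * n⌋₊ with hm
  have hm1 : (m : ℝ) ≤ ε / 8 * n := Nat.floor_le (by positivity)
  have hm2 : ε / 8 * n < m + 1 := Nat.lt_floor_add_one _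
  have hm3 : ε / 16 * n ≤ m := by nlinarith
  have hkm : (k0 : ℝ) + m ≤ n := by nlinarith
  have hkm' : k0 + m ≤ n := by exact_mod_cast hkm
  have hmn : (m : ℝ) < n := by nlinarith
  have hmn' : m < n := by exact_mod_cast hmn
  have hp0 : 0 ≤ (1 + ε) / n := by positivity
  have hp1 : (1 + ε) / n < 1 := by rw [div_lt_one hn0]; linarith
  refine (small_prob hkm' hmn' hp0 hp1 ?_ v).trans ?_
  · -- `(1 - p)^m ≤ exp (-p m)`
    set z := (1 + ε) / n * m with hz
    have hz0 : 0 ≤ z := by positivity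
    have hu : (m : ℝ) / n ≤ ε / 8 := by rw [div_le_iff₀ hn0]; exact hm1
    have hu0 : 0 ≤ (m : ℝ) / n := by positivity
    have hzu : z = (1 + ε) * ((m : ℝ) / n) := by rw [hz]; ring
    have hz1 : z ≤ 1 := by rw [hzu]; nlinarith
    have e1 : (1 - (1 + ε) / n) ^ m ≤ Real.exp (-z) := by
      have : 1 - (1 + ε) / n ≤ Real.exp (-((1 + ε) / n)) := by
        have := Real.add_one_le_exp (-((1 + ε) / (n : ℝ)))
        linarith
      calc (1 - (1 + ε) / n) ^ m ≤ (Real.exp (-((1 + ε) / n))) ^ m :=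
            pow_le_pow_left₀ (by linarith) this m
        _ = Real.exp (-z) := by rw [← Real.exp_nat_mul]; congr 1; rw [hz]; ring
    have e2 : Real.exp (-z) ≤ 1 - z + z ^ 2 := by
      have := Real.abs_exp_sub_one_sub_id_le (x := -z) (by rw [abs_neg, abs_of_nonneg hz0]; exact hz1)
      rw [abs_le] at this
      nlinarith [this.2]
    have hnk0 : (0 : ℝ) < (n : ℝ) - k0 := by linarith
    have e3 : (1 - z + z ^ 2) * ((n : ℝ) - k0) ≤ (n : ℝ) - k0 - m := by
      -- `z (1 - z) (n - k0) ≥ m`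
      have e4 : (1 + ε / 4) * ((m : ℝ) / n) ≤ z - z ^ 2 := by
        rw [hzu]
        have : (1 + ε) * ((m : ℝ) / n) ≤ ε / 4 := by nlinarith
        nlinarith
      have e5 : (m : ℝ) ≤ (1 + ε / 4) * ((m : ℝ) / n) * ((n : ℝ) - k0) := by
        have e6 : (m : ℝ) = (m : ℝ) / n * n := by field_simp
        have e7 : (n : ℝ) ≤ (1 + ε / 4) * ((n : ℝ) - k0) := by nlinarith
        calc (m : ℝ) = (m : ℝ) / n * n := e6
          _ ≤ (m : ℝ) / n * ((1 + ε / 4) * ((n : ℝ) - k0)) := mul_le_mul_of_nonneg_left e7 hu0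
          _ = _ := by ring
      have e8 := mul_le_mul_of_nonneg_right e4 hnk0.le
      linarith
    exact (mul_le_mul_of_nonneg_right (e1.trans e2) hnk0.le).trans e3
  · have : ε / 16 ≤ (m : ℝ) / n := by rw [le_div_iff₀ hn0]; exact hm3
    linarith

end Pool.Agent.J4H99.RL
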