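import Mathlib
import Pool.Agent.J4H99.RL.Big

/-!
# The vertices in components of size larger than a constant: concentration and density
-/

set_option autoImplicit false

namespace Pool.Agent.J4H99.RL

open Finset Pool.Agent.R980
open scoped Classical

/-- the vertices in components with more than `k0` vertices -/
noncomputable def big {n : ℕ} (k0 : ℕ) (G : SimpleGraph (Fin n)) : Finset (Fin n) :=
  univ.filter (fun v => k0 < (cmp G v).card)

theorem cmp_del {n : ℕ} {G G' : SimpleGraph (Fin n)} {a b : Fin n}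
    (hd : ∀ u w, G.Adj u w → G'.Adj u w ∨ s(u, w) = s(a, b)) (hle : G' ≤ G) {v : Fin n}
    (ha : a ∉ cmp G' v) (hb : b ∉ cmp G' v) : cmp G v = cmp G' v := by
  ext w
  rw [mem_cmp]
  constructor
  · intro h
    have := not_mem_reach (P := G) (p := fun u => u ∈ cmp G' v) ?_ h (self_mem_cmp v)
    · exact this
    · intro u w huw hu
      rcases hd u w huw with h1 | h1
      · exact mem_cmp.2 ((mem_cmp.1 hu).trans h1.reachable)
      · rcases Sym2.eq_iff.1 h1 with ⟨rfl, rfl⟩ | ⟨rfl, rfl⟩
        · exact absurd hu ha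
        · exact absurd hu hb
  · intro h
    exact (mem_cmp.1 h).mono hle
where
  not_mem_reach {P : SimpleGraph (Fin n)} {p : Fin n → Prop} (h : ∀ u v, P.Adj u v → p u → p v) {u v : Fin n}
      (huv : P.Reachable u v) (hu : p u) : p v := by
    obtain ⟨q⟩ := huv
    induction q with
    | nil => exact hu
    | cons hadj _ ih => exact ih (h _ _ hadj hu)

theorem big_diff {n k0 : ℕ} {G G' : SimpleGraph (Fin n)} {a b : Fin n}
    (hd : ∀ u w, G.Adj u w → G'.Adj u w ∨ s(u, w) = s(a, b)) (hle : G' ≤ G) :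
    (big k0 G').card ≤ (big k0 G).card ∧ (big k0 G).card ≤ (big k0 G').card + 2 * k0 := by
  constructor
  · refine card_le_card fun v hv => ?_
    rw [big, mem_filter] at hv ⊢
    refine ⟨mem_univ _, hv.2.trans_le (card_le_card fun w hw => ?_)⟩
    exact mem_cmp.2 ((mem_cmp.1 hw).mono hle)
  · have hsub : big k0 G ⊆ big k0 G' ∪ ((if (cmp G' a).card ≤ k0 then cmp G' a else ∅) ∪
        (if (cmp G' b).card ≤ k0 then cmp G' b else ∅)) := by
      intro v hv
      rw [mem_union, mem_union]
      by_cases h1 : v ∈ big k0 G'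
      · exact Or.inl h1
      right
      have h2 : (cmp G' v).card ≤ k0 := by
        by_contra h3
        exact h1 (mem_filter.2 ⟨mem_univ _, by omega⟩)
      have h3 : a ∈ cmp G' v ∨ b ∈ cmp G' v := by
        by_contra hno
        rw [not_or] at hno
        have := cmp_del hd hle hno.1 hno.2
        rw [big, mem_filter, this] at hv
        omega
      rcases h3 with h3 | h3
      · left
        have e := cmp_eq (mem_cmp.1 h3)
        rw [← e, if_pos h2]
        exact self_mem_cmp v
      · right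
        have e := cmp_eq (mem_cmp.1 h3)
        rw [← e, if_pos h2]
        exact self_mem_cmp v
    have h4 : ∀ c : Fin n, (if (cmp G' c).card ≤ k0 then cmp G' c else ∅).card ≤ k0 := by
      intro c
      split_ifs with h
      · exact h
      · simp
    calc (big k0 G).card ≤ _ := card_le_card hsub
      _ ≤ _ := card_union_le _ _
      _ ≤ (big k0 G').card + (k0 + k0) :=
        Nat.add_le_add_left ((card_union_le _ _).trans (Nat.add_le_add (h4 a) (h4 b))) _
      _ = _ := by ring

theorem ofBool_off {n : ℕ} (x : Edge n → Bool) (e : Edge n) :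
    ofBool (off x e) ≤ ofBool x ∧ ∀ u w, (ofBool x).Adj u w → (ofBool (off x e)).Adj u w ∨ s(u, w) = e.1 := by
  constructor
  · rintro u w ⟨h, hx⟩
    refine ⟨h, ?_⟩
    unfold off at hx
    by_cases he : (⟨s(u, w), h⟩ : Edge n) = e
    · rw [he, Function.update_self] at hx
      exact absurd hx (by simp)
    · rwa [Function.update_of_ne he] at hx
  · rintro u w ⟨h, hx⟩
    by_cases he : (⟨s(u, w), h⟩ : Edge n) = e
    · right
      rw [← he]
    · left
      refine ⟨h, ?_⟩
      unfold off
      rwa [Function.update_of_ne he]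

theorem big_lip {n : ℕ} (k0 : ℕ) (x : Edge n → Bool) (e : Edge n) :
    |((big k0 (ofBool x)).card : ℝ) - ((big k0 (ofBool (off x e))).card : ℝ)| ≤ 2 * k0 := by
  obtain ⟨⟨a, b⟩, hab⟩ := e
  obtain ⟨h1, h2⟩ := ofBool_off x ⟨s(a, b), hab⟩
  obtain ⟨h3, h4⟩ := big_diff (k0 := k0) (a := a) (b := b) h2 h1
  have h3' : ((big k0 (ofBool (off x ⟨s(a, b), hab⟩))).card : ℝ) ≤ (big k0 (ofBool x)).card := by exact_mod_cast h3
  have h4' : ((big k0 (ofBool x)).card : ℝ) ≤ (big k0 (ofBool (off x ⟨s(a, b), hab⟩))).card + 2 * k0 := by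
    exact_mod_cast h4
  have e1 : (⟨Quot.mk _ (a, b), hab⟩ : Edge n) = ⟨s(a, b), hab⟩ := rfl
  rw [e1, abs_le]
  constructor <;> linarith

theorem card_edge_le (n : ℕ) : ((Fintype.card (Edge n) : ℕ) : ℝ) ≤ (n : ℝ) ^ 2 / 2 := by
  rw [card_Edge, Nat.cast_choose_two]
  have : (0 : ℝ) ≤ n := Nat.cast_nonneg _
  nlinarith

/-- with high probability a positive fraction of the vertices are in big components -/
theorem big_whp (ε : ℝ) (hε : 0 < ε) (hε1 : ε ≤ 1) (k0 : ℕ) (η : ℝ) (hη : 0 < η) :
    ∃ N : ℕ, ∀ n ≥ N,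
      pr ((1 + ε) / n) (fun x : Edge n → Bool => ((big k0 (ofBool x)).card : ℝ) < ε / 32 * n) ≤ η := by
  obtain ⟨N, hN⟩ := small_prob' ε hε hε1 k0
  obtain ⟨N', hN'⟩ := exists_nat_gt (2 + 4096 * (k0 : ℝ) ^ 2 / (ε ^ 2 * η))
  refine ⟨max N N', fun n hn => ?_⟩
  have hnN : n ≥ N := (le_max_left _ _).trans hn
  have hnN' : (N' : ℝ) ≤ n := by exact_mod_cast (le_max_right _ _).trans hn
  have hpos : 0 ≤ 4096 * (k0 : ℝ) ^ 2 / (ε ^ 2 * η) := by positivity
  have hn2 : (2 : ℝ) < n := by linarith
  have hn0 : (0 : ℝ) < n := by linarith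
  have hp0 : 0 ≤ (1 + ε) / n := by positivity
  have hp1 : (1 + ε) / n ≤ 1 := by rw [div_le_one hn0]; linarith
  set F : (Edge n → Bool) → ℝ := fun x => ((big k0 (ofBool x)).card : ℝ) with hF
  have hmean : ε / 16 * n ≤ bex ((1 + ε) / n) F := by
    have h1 : F = fun x => ∑ v : Fin n, ((1 : ℝ) + (-1) * (if (cmp (ofBool x) v).card ≤ k0 then (1 : ℝ) else 0)) := by
      funext x
      rw [hF]
      simp only [big, card_filter]
      push_cast
      refine sum_congr rfl fun v _ => ?_
      by_cases h : k0 < (cmp (ofBool x) v).card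
      · rw [if_pos h, if_neg (by omega)]; ring
      · rw [if_neg h, if_pos (by omega)]; ring
    rw [h1, bex_sum]
    have h2 : ∀ v ∈ (univ : Finset (Fin n)), ε / 16 ≤ bex ((1 + ε) / n) (fun x : Edge n → Bool =>
        (1 : ℝ) + (-1) * (if (cmp (ofBool x) v).card ≤ k0 then (1 : ℝ) else 0)) := by
      intro v _
      rw [bex_add, bex_const, bex_mul]
      have := hN n hnN v
      rw [← pr_ite (fun x => Nat.decLe _ _)] at this
      linarith
    calc ε / 16 * n = ∑ v : Fin n, ε / 16 := by rw [sum_const, card_univ, Fintype.card_fin, nsmul_eq_mul]; ring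
      _ ≤ _ := sum_le_sum h2
  have hch := cheb hp0 hp1 F univ (2 * k0) (by positivity) (fun x e he => absurd (mem_univ e) he)
    (fun x e => big_lip k0 x e) (ε / 32 * n) (by positivity)
  calc pr ((1 + ε) / n) (fun x : Edge n → Bool => ((big k0 (ofBool x)).card : ℝ) < ε / 32 * n)
      ≤ pr ((1 + ε) / n) (fun x => ε / 32 * n ≤ |F x - bex ((1 + ε) / n) F|) := by
        refine pr_mono hp0 hp1 fun x hx => ?_
        rw [le_abs]
        right
        have : F x < ε / 32 * n := hx
        linarith
    _ ≤ _ := hch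
    _ ≤ η := by
        rw [div_le_iff₀ (by positivity), card_univ]
        have h3 : (1 + ε) / n * ((Fintype.card (Edge n) : ℕ) : ℝ) ≤ n := by
          calc (1 + ε) / n * ((Fintype.card (Edge n) : ℕ) : ℝ) ≤ (1 + ε) / n * ((n : ℝ) ^ 2 / 2) :=
                mul_le_mul_of_nonneg_left (card_edge_le n) hp0
            _ = (1 + ε) * n / 2 := by field_simp
            _ ≤ n := by nlinarith
        have h4 : 4096 * (k0 : ℝ) ^ 2 ≤ n * (ε ^ 2 * η) := by
          have : 4096 * (k0 : ℝ) ^ 2 / (ε ^ 2 * η) ≤ n := by linarith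
          rwa [div_le_iff₀ (by positivity)] at this
        calc (1 + ε) / n * ((Fintype.card (Edge n) : ℕ) : ℝ) * (2 * (k0 : ℝ)) ^ 2 ≤ n * (2 * (k0 : ℝ)) ^ 2 :=
              mul_le_mul_of_nonneg_right h3 (by positivity)
          _ = (4096 * (k0 : ℝ) ^ 2) * n / 1024 := by ring
          _ ≤ (n * (ε ^ 2 * η)) * n / 1024 := by
              refine div_le_div_of_nonneg_right (mul_le_mul_of_nonneg_right h4 hn0.le) (by norm_num)
          _ = η * (ε / 32 * n) ^ 2 := by ring

/-- the root of the component of `v` -/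
noncomputable def root {n : ℕ} (G : SimpleGraph (Fin n)) (v : Fin n) : Fin n :=
  (cmp G v).min' ⟨v, self_mem_cmp v⟩

theorem root_mem {n : ℕ} (G : SimpleGraph (Fin n)) (v : Fin n) : root G v ∈ cmp G v := min'_mem _ _

theorem root_eq {n : ℕ} {G : SimpleGraph (Fin n)} {u v : Fin n} (h : G.Reachable u v) : root G u = root G v := by
  unfold root
  simp only [cmp_eq h]

theorem exists_parent {n : ℕ} (G : SimpleGraph (Fin n)) (v : Fin n) (hv : v ≠ root G v) :
    ∃ u, G.Adj v u ∧ G.dist u (root G v) < G.dist v (root G v) := by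
  have hr : G.Reachable v (root G v) := mem_cmp.1 (root_mem G v)
  generalize root G v = r at hr hv ⊢
  obtain ⟨p, hp⟩ := hr.exists_walk_length_eq_dist
  cases p with
  | nil => exact absurd rfl hv
  | @cons _ u _ hadj q =>
    refine ⟨u, hadj, ?_⟩
    have h1 := SimpleGraph.dist_le q
    rw [SimpleGraph.Walk.length_cons] at hp
    omega

theorem card_roots {n k0 : ℕ} (G : SimpleGraph (Fin n)) :
    ((big k0 G).filter (fun v => v = root G v)).card * k0 ≤ (big k0 G).card := by
  have h1 : ((big k0 G).filter (fun v => v = root G v)).biUnion (fun v => cmp G v) ⊆ big k0 G := by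
    intro w hw
    obtain ⟨v, hv, hwv⟩ := mem_biUnion.1 hw
    have h2 := (mem_filter.1 (mem_filter.1 hv).1).2
    rw [cmp_eq (mem_cmp.1 hwv)] at h2
    exact mem_filter.2 ⟨mem_univ _, h2⟩
  have h3 := card_le_card h1
  rw [card_biUnion] at h3
  · calc ((big k0 G).filter (fun v => v = root G v)).card * k0
        = ∑ v ∈ (big k0 G).filter (fun v => v = root G v), k0 := by rw [sum_const, smul_eq_mul]
      _ ≤ ∑ v ∈ (big k0 G).filter (fun v => v = root G v), (cmp G v).card :=
        sum_le_sum fun v hv => (mem_filter.1 (mem_filter.1 hv).1).2.le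
      _ ≤ _ := h3
  · intro u hu v hv huv
    rw [mem_coe] at hu hv
    have hu2 := (mem_filter.1 hu).2
    have hv2 := (mem_filter.1 hv).2
    show Disjoint (cmp G u) (cmp G v)
    rw [disjoint_left]
    intro w h5 h6
    apply huv
    have := root_eq ((mem_cmp.1 h5).trans (mem_cmp.1 h6).symm)
    rw [hu2, hv2]; exact this

/-- the density of the big components -/
theorem big_dens {n k0 : ℕ} (G : SimpleGraph (Fin n)) (hk : 0 < k0) :
    ((big k0 G).card : ℝ) * (1 - 1 / k0) ≤ ein G (big k0 G) := by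
  set B := big k0 G with hB
  set N := B.filter (fun v => ¬ v = root G v) with hN
  have h1 : (B.filter (fun v => v = root G v)).card + N.card = B.card :=
    Finset.card_filter_add_card_filter_not _
  have hex : ∀ v : Fin n, ∃ u, v ∈ N → G.Adj v u ∧ G.dist u (root G v) < G.dist v (root G v) := by
    intro v
    by_cases hv : v ∈ N
    · obtain ⟨u, hu⟩ := exists_parent G v (mem_filter.1 hv).2
      exact ⟨u, fun _ => hu⟩
    · exact ⟨v, fun h => absurd h hv⟩
  choose par hpar using hex
  have h2 : N.card ≤ ein G B := by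
    unfold ein
    refine card_le_card_of_injOn (fun v => s(v, par v)) ?_ ?_
    · intro v hv
      rw [mem_coe] at hv
      obtain ⟨h3, -⟩ := hpar v hv
      have hvB : v ∈ B := (mem_filter.1 hv).1
      rw [mem_coe]
      simp only [mem_filter, mem_univ, true_and, SimpleGraph.mem_edgeSet]
      refine ⟨h3, ?_⟩
      intro w hw
      rcases Sym2.mem_iff.1 hw with rfl | rfl
      · exact hvB
      · have h4 := (mem_filter.1 hvB).2
        rw [cmp_eq h3.reachable] at h4
        exact mem_filter.2 ⟨mem_univ _, h4⟩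
    · intro u hu v hv h
      rw [mem_coe] at hu hv
      obtain ⟨h3, h4⟩ := hpar u hu
      obtain ⟨h5, h6⟩ := hpar v hv
      rcases Sym2.eq_iff.1 h with ⟨h7, -⟩ | ⟨h7, h8⟩
      · exact h7
      · exfalso
        rw [← h7] at h5 h6
        rw [h8] at h4 h3
        rw [root_eq h3.reachable] at h4
        omega
  have h3 := card_roots (k0 := k0) G
  have hk' : (0 : ℝ) < k0 := by exact_mod_cast hk
  have h4 : ((B.filter (fun v => v = root G v)).card : ℝ) ≤ (B.card : ℝ) / k0 := by
    rw [le_div_iff₀ hk']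
    exact_mod_cast h3
  have h5 : ((B.filter (fun v => v = root G v)).card : ℝ) + N.card = B.card := by exact_mod_cast h1
  have h6 : (N.card : ℝ) ≤ ein G B := by exact_mod_cast h2
  have h7 : (B.card : ℝ) * (1 - 1 / k0) = B.card - (B.card : ℝ) / k0 := by ring
  rw [h7]
  linarith

end Pool.Agent.J4H99.RL
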