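import Mathlib
import Pool.Agent.J4H99.RL.Anim

/-!
# Patterns of realizations
-/

set_option autoImplicit false

namespace Pool.Agent.J4H99.RL

open Finset
open scoped Classical

variable {α : Type} [Fintype α]

/-- edges of `H` in `T` -/
def gm (H : SimpleGraph α) (T : Finset (Sym2 α)) : SimpleGraph α where
  Adj u v := H.Adj u v ∧ s(u, v) ∈ T
  symm := ⟨fun u v h => ⟨h.1.symm, by rw [Sym2.eq_swap]; exact h.2⟩⟩
  loopless := ⟨fun u h => H.loopless.irrefl u h.1⟩

/-- edges of `H` outside `T` -/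
def gp (H : SimpleGraph α) (T : Finset (Sym2 α)) : SimpleGraph α where
  Adj u v := H.Adj u v ∧ s(u, v) ∉ T
  symm := ⟨fun u v h => ⟨h.1.symm, by rw [Sym2.eq_swap]; exact h.2⟩⟩
  loopless := ⟨fun u h => H.loopless.irrefl u h.1⟩

theorem gp_or_gm (H : SimpleGraph α) (T : Finset (Sym2 α)) (u v : α) (h : H.Adj u v) :
    (gp H T).Adj u v ∨ (gm H T).Adj u v := by
  by_cases hT : s(u, v) ∈ T
  · exact Or.inr ⟨h, hT⟩
  · exact Or.inl ⟨h, hT⟩

/-- the edges on which `f` reverses the sign -/
noncomputable def sgn (H : SimpleGraph α) (f y : α → ℝ) : Finset (Sym2 α) :=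
  univ.filter (fun e => ∃ u v, e = s(u, v) ∧ H.Adj u v ∧ f u - f v = -(y u - y v))

theorem mem_sgn {H : SimpleGraph α} {f y : α → ℝ} {u v : α} :
    s(u, v) ∈ sgn H f y ↔ H.Adj u v ∧ f u - f v = -(y u - y v) := by
  constructor
  · intro h
    obtain ⟨a, b, hab, hadj, h⟩ := (mem_filter.1 h).2
    rcases Sym2.eq_iff.1 hab with ⟨rfl, rfl⟩ | ⟨rfl, rfl⟩
    · exact ⟨hadj, h⟩
    · exact ⟨hadj.symm, by linarith⟩
  · rintro ⟨h1, h2⟩
    exact mem_filter.2 ⟨mem_univ _, u, v, rfl, h1, h2⟩

theorem sgn_subset (H : SimpleGraph α) (f y : α → ℝ) : sgn H f y ⊆ univ.filter (fun e => e ∈ H.edgeSet) := by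
  intro e he
  obtain ⟨a, b, rfl, hadj, -⟩ := (mem_filter.1 he).2
  exact mem_filter.2 ⟨mem_univ _, hadj⟩

/-- `f` keeps the lengths of the edges -/
def Keep (H : SimpleGraph α) (f y : α → ℝ) : Prop := ∀ u v, H.Adj u v → |f u - f v| = |y u - y v|

theorem plus_of {H : SimpleGraph α} {f y : α → ℝ} (hf : Keep H f y) {u v : α}
    (h : (gp H (sgn H f y)).Adj u v) : f u - y u = f v - y v := by
  obtain ⟨h1, h2⟩ := h
  rcases abs_eq_abs.1 (hf u v h1) with h3 | h3
  · linarith
  · exact absurd (mem_sgn.2 ⟨h1, h3⟩) h2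

theorem minus_of {H : SimpleGraph α} {f y : α → ℝ} {u v : α}
    (h : (gm H (sgn H f y)).Adj u v) : f u + y u = f v + y v := by
  have := (mem_sgn.1 h.2).2
  linarith

theorem real_of {H : SimpleGraph α} {f y : α → ℝ} (hf : Keep H f y) :
    Real (gp H (sgn H f y)) (gm H (sgn H f y)) y :=
  ⟨f, fun _ _ h => plus_of hf h, fun _ _ h => minus_of h⟩

theorem sep_of {P Q : SimpleGraph α} {y : α → ℝ} (hy : Function.Injective y) (h : Real P Q y) {u v : α}
    (hP : P.Reachable u v) (hQ : Q.Reachable u v) : u = v := by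
  obtain ⟨f, h1, h2⟩ := h
  have e1 : f u - y u = f v - y v := const_of_adj (g := fun w => f w - y w) h1 hP
  have e2 : f u + y u = f v + y v := const_of_adj (g := fun w => f w + y w) h2 hQ
  exact hy (by linarith)

theorem real_symm {P Q : SimpleGraph α} {y : α → ℝ} (h : Real P Q y) : Real Q P y := by
  obtain ⟨f, h1, h2⟩ := h
  refine ⟨fun w => - f w, fun u v huv => ?_, fun u v huv => ?_⟩
  · have := h2 u v huv
    simp only; linarith
  · have := h1 u v huv
    simp only; linarith

theorem card_le_of_cset {P : SimpleGraph α} {X : Finset α} (hX : X ∈ cset P) :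
    1 ≤ (X.card : ℝ) ∧ (X.card : ℝ) ≤ Fintype.card α := by
  constructor
  · have := card_pos.2 (cset_nonempty hX)
    exact_mod_cast this
  · exact_mod_cast card_le_univ X

theorem dfc_nonneg (P : SimpleGraph α) : 0 ≤ dfc P := by
  refine sum_nonneg fun X hX => ?_
  obtain ⟨h1, h2⟩ := card_le_of_cset hX
  exact mul_nonneg (by linarith) (by linarith)

/-- if all components are at most three quarters -/
theorem dfc_of_small {P : SimpleGraph α} (h : ∀ X ∈ cset P, 4 * X.card ≤ 3 * Fintype.card α) :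
    (Fintype.card α : ℝ) / 4 * ((Fintype.card α : ℝ) - (cset P).card) ≤ dfc P := by
  rw [← sum_sub_one, mul_sum]
  refine sum_le_sum fun X hX => ?_
  obtain ⟨h1, h2⟩ := card_le_of_cset hX
  have h3 : 4 * (X.card : ℝ) ≤ 3 * Fintype.card α := by exact_mod_cast h X hX
  nlinarith

/-- the pattern `T` is a local pattern for a set of `s` vertices -/
def Loc (H : SimpleGraph α) (T : Finset (Sym2 α)) (s : ℕ) : Prop :=
  univ ∉ cset (gp H T) ∧ univ ∉ cset (gm H T) ∧
    (Fintype.card α : ℝ) / 2 * (s + ncon (gp H T) (gm H T)) ≤ dfc (gp H T) + dfc (gm H T)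

theorem not_mem_of_reach {P : SimpleGraph α} {p : α → Prop} (h : ∀ u v, P.Adj u v → p u → p v) {u v : α}
    (huv : P.Reachable u v) (hu : p u) : p v := by
  obtain ⟨q⟩ := huv
  induction q with
  | nil => exact hu
  | cons hadj _ ih => exact ih (h _ _ hadj hu)

/-- `H` without the edges which touch `K` -/
def away (H : SimpleGraph α) (K : Finset α) : SimpleGraph α where
  Adj u v := H.Adj u v ∧ u ∉ K ∧ v ∉ K
  symm := ⟨fun _ _ h => ⟨h.1.symm, h.2.2, h.2.1⟩⟩
  loopless := ⟨fun u h => H.loopless.irrefl u h.1⟩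

theorem cut_cmp {H : SimpleGraph α} {K : Finset α} (w : α) : Cut H w (cmp (away H K) w) := by
  refine ⟨self_mem_cmp w, fun X hX hne hwX => ?_⟩
  obtain ⟨v, hv, hvX⟩ : ∃ v ∈ cmp (away H K) w, v ∉ X := by
    by_contra hno
    push Not at hno
    exact hne (Subset.antisymm hX hno)
  obtain ⟨q⟩ := mem_cmp.1 hv
  obtain ⟨d, hd, h1, h2⟩ := q.exists_boundary_dart (X : Set α) (by exact_mod_cast hwX) (by exact_mod_cast hvX)
  refine ⟨d.fst, by exact_mod_cast h1, d.snd, ?_, by exact_mod_cast h2, d.adj.1⟩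
  have h3 : d.fst ∈ cmp (away H K) w := hX (by exact_mod_cast h1)
  exact mem_cmp.2 ((mem_cmp.1 h3).trans d.adj.reachable)

/-- The local lemma. -/
theorem local_pattern {H : SimpleGraph α} {f y : α → ℝ} (hy : Function.Injective y) (hf : Keep H f y)
    (hN : 4 ≤ Fintype.card α) {K : Finset α} (hK : K ∈ cset (gp H (sgn H f y)))
    (hbig : 3 * Fintype.card α < 4 * K.card) {w : α} (hw : w ∉ K) :
    ∃ S : Finset α, Cut H w S ∧ ∃ T ⊆ touch H S, Real (gp H T) (gm H T) y ∧ Loc H T S.card := by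
  set S := cmp (away H K) w with hS
  have hSK : ∀ v ∈ S, v ∉ K := fun v hv =>
    not_mem_of_reach (P := away H K) (p := fun v => v ∉ K) (fun _ _ h _ => h.2.2) (mem_cmp.1 hv) hw
  have hSadj : ∀ u v, u ∈ S → v ∉ S → H.Adj u v → v ∈ K := by
    intro u v hu hv huv
    by_contra hvK
    exact hv (mem_cmp.2 ((mem_cmp.1 hu).trans (SimpleGraph.Adj.reachable ⟨huv, hSK u hu, hvK⟩)))
  set T := (sgn H f y).filter (fun e => ∃ v ∈ e, v ∈ S) with hT
  have hTsub : T ⊆ touch H S := by
    intro e he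
    obtain ⟨h1, h2⟩ := mem_filter.1 he
    exact mem_filter.2 ⟨mem_univ _, (mem_filter.1 (sgn_subset H f y h1)).2, h2⟩
  obtain ⟨k, hk⟩ := cset_nonempty hK
  have hKk : K = cmp (gp H (sgn H f y)) k := cset_eq_of_mem hK hk
  have hconst : ∀ v ∈ K, f v - y v = f k - y k := by
    intro v hv
    rw [hKk] at hv
    exact (const_of_adj (g := fun w => f w - y w) (fun _ _ h => plus_of hf h) (mem_cmp.1 hv)).symm
  have hKadj : ∀ u v, v ∈ K → (gp H (sgn H f y)).Adj u v → u ∈ K := by
    intro u v hv huv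
    rw [hKk] at hv ⊢
    exact mem_cmp.2 ((mem_cmp.1 hv).trans huv.symm.reachable)
  -- a plus edge does not leave `S`
  have hplus : ∀ u v, u ∈ S → (gp H T).Adj u v → v ∈ S := by
    intro u v hu huv
    by_contra hv
    have h1 : s(u, v) ∉ sgn H f y := fun h => huv.2 (mem_filter.2 ⟨h, u, Sym2.mem_mk_left _ _, hu⟩)
    exact hSK u hu (hKadj u v (hSadj u v hu hv huv.1) ⟨huv.1, h1⟩)
  set g : α → ℝ := fun v => if v ∈ S then f v - (f k - y k) else y v with hg
  have hreal : Real (gp H T) (gm H T) y := by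
    refine ⟨g, ?_, ?_⟩
    · intro u v huv
      by_cases hu : u ∈ S
      · have hv := hplus u v hu huv
        have h1 : s(u, v) ∉ sgn H f y := fun h => huv.2 (mem_filter.2 ⟨h, u, Sym2.mem_mk_left _ _, hu⟩)
        have := plus_of hf ⟨huv.1, h1⟩
        simp only [hg, hu, hv, if_true]
        linarith
      · have hv : v ∉ S := fun hv => hu (hplus v u hv huv.symm)
        simp only [hg, hu, hv, if_false]
        ring
    · intro u v huv
      obtain ⟨h1, h2⟩ := mem_filter.1 huv.2
      have h3 := minus_of (f := f) (y := y) (H := H) ⟨huv.1, h1⟩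
      by_cases hu : u ∈ S
      · by_cases hv : v ∈ S
        · simp only [hg, hu, hv, if_true]
          linarith
        · have h4 := hconst v (hSadj u v hu hv huv.1)
          simp only [hg, hu, hv, if_true, if_false]
          linarith
      · by_cases hv : v ∈ S
        · have h4 := hconst u (hSadj v u hv hu huv.1.symm)
          simp only [hg, hu, hv, if_true, if_false]
          linarith
        · exfalso
          obtain ⟨z, hz, hzS⟩ := h2
          rcases Sym2.mem_iff.1 hz with rfl | rfl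
          · exact hu hzS
          · exact hv hzS
  -- the big component
  have hkS : k ∉ S := fun h => hSK k h hk
  set K' := cmp (gp H T) k with hK'
  have hK'c : K' ∈ cset (gp H T) := cmp_mem_cset k
  have hKK' : K ⊆ K' := by
    intro v hv
    rw [hKk] at hv
    refine mem_cmp.2 ((mem_cmp.1 hv).mono ?_)
    intro a b hab
    exact ⟨hab.1, fun h => hab.2 (mem_filter.1 h).1⟩
  have hK'S : ∀ v ∈ K', v ∉ S := fun v hv =>
    not_mem_of_reach (p := fun v => v ∉ S) (fun a b hab ha hb => ha (hplus b a hb hab.symm)) (mem_cmp.1 hv) hkS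
  have hwS : w ∈ S := self_mem_cmp w
  have hKcard : K.card ≤ K'.card := card_le_card hKK'
  have hdisj : Disjoint K' S := by
    rw [Finset.disjoint_left]; exact hK'S
  have hcard : K'.card + S.card ≤ Fintype.card α := by
    rw [← card_union_of_disjoint hdisj]
    exact card_le_univ _
  have hQsmall : ∀ X ∈ cset (gm H T), X.card + K'.card ≤ Fintype.card α + 1 := by
    intro X hX
    have h1 : (X ∩ K').card ≤ 1 := by
      rw [card_le_one]
      intro a ha b hb
      obtain ⟨ha1, ha2⟩ := mem_inter.1 ha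
      obtain ⟨hb1, hb2⟩ := mem_inter.1 hb
      rw [cset_eq_of_mem hX ha1] at hb1
      exact sep_of hy hreal ((mem_cmp.1 ha2).symm.trans (mem_cmp.1 hb2)) (mem_cmp.1 hb1)
    have h2 := card_union_add_card_inter X K'
    have h3 := card_le_univ (X ∪ K')
    omega
  have hPsmall : ∀ X ∈ cset (gp H T), X ≠ K' → X.card + K'.card ≤ Fintype.card α := by
    intro X hX hne
    rw [← card_union_of_disjoint (cset_disj hX hK'c hne)]
    exact card_le_univ _
  refine ⟨S, cut_cmp w, T, hTsub, hreal, ?_, ?_, ?_⟩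
  · intro h
    have h1 := cset_eq_of_mem h (mem_univ k)
    exact hK'S w (by rw [hK', ← h1]; exact mem_univ _) hwS
  · intro h
    have := hQsmall _ h
    rw [card_univ] at this
    omega
  · have e1 : dfc (gp H T) = ((K'.card : ℝ) - 1) * ((Fintype.card α : ℝ) - K'.card) +
        ∑ X ∈ (cset (gp H T)).erase K', ((X.card : ℝ) - 1) * ((Fintype.card α : ℝ) - X.card) := by
      rw [dfc]
      exact (add_sum_erase _ (fun X : Finset α => ((X.card : ℝ) - 1) * ((Fintype.card α : ℝ) - X.card)) hK'c).symm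
    have e2 : ∑ X ∈ cset (gp H T), ((X.card : ℝ) - 1) = ((K'.card : ℝ) - 1) +
        ∑ X ∈ (cset (gp H T)).erase K', ((X.card : ℝ) - 1) := by
      exact (add_sum_erase _ (fun X : Finset α => ((X.card : ℝ) - 1)) hK'c).symm
    have hN' : (4 : ℝ) ≤ Fintype.card α := by exact_mod_cast hN
    have hb' : 3 * (Fintype.card α : ℝ) < 4 * K'.card := by
      have : 3 * Fintype.card α < 4 * K'.card := by omega
      exact_mod_cast this
    have hK'1 := card_le_of_cset hK'c
    have e3 : (Fintype.card α : ℝ) / 2 * ∑ X ∈ (cset (gp H T)).erase K', ((X.card : ℝ) - 1) ≤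
        ∑ X ∈ (cset (gp H T)).erase K', ((X.card : ℝ) - 1) * ((Fintype.card α : ℝ) - X.card) := by
      rw [mul_sum]
      refine sum_le_sum fun X hX => ?_
      obtain ⟨h1, h2⟩ := mem_erase.1 hX
      have h3 : (X.card : ℝ) + K'.card ≤ Fintype.card α := by exact_mod_cast hPsmall X h2 h1
      obtain ⟨h4, h5⟩ := card_le_of_cset h2
      nlinarith
    have e4 : (Fintype.card α : ℝ) / 2 * ∑ X ∈ cset (gm H T), ((X.card : ℝ) - 1) ≤ dfc (gm H T) := by
      rw [mul_sum, dfc]
      refine sum_le_sum fun X hX => ?_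
      have h3 : (X.card : ℝ) + K'.card ≤ Fintype.card α + 1 := by exact_mod_cast hQsmall X hX
      obtain ⟨h4, h5⟩ := card_le_of_cset hX
      nlinarith
    have e5 := sum_sub_one (gp H T)
    have e6 := sum_sub_one (gm H T)
    have e7 : (K'.card : ℝ) + S.card ≤ Fintype.card α := by exact_mod_cast hcard
    have e8 : (0 : ℝ) ≤ ((K'.card : ℝ) - 1) * ((Fintype.card α : ℝ) - K'.card) :=
      mul_nonneg (by linarith) (by linarith)
    unfold ncon
    rw [e1]
    have e9 : (S.card : ℝ) + ((Fintype.card α : ℝ) + 1 - (cset (gp H T)).card - (cset (gm H T)).card) ≤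
        ∑ X ∈ (cset (gp H T)).erase K', ((X.card : ℝ) - 1) + ∑ X ∈ cset (gm H T), ((X.card : ℝ) - 1) := by
      linarith
    have e10 := mul_le_mul_of_nonneg_left e9 (by positivity : (0 : ℝ) ≤ (Fintype.card α : ℝ) / 2)
    linarith

end Pool.Agent.J4H99.RL
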