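import Mathlib
import Pool.Agent.J4H99.RL.Local

/-!
# Union bounds for random permutations
-/

set_option autoImplicit false

namespace Pool.Agent.J4H99.RL

open Finset
open scoped Classical

/-- every placement with the known distances is an isometry on `U` -/
def Rec {n : ℕ} (y : Fin n → ℝ) (G : SimpleGraph (Fin n)) (U : Finset (Fin n)) : Prop :=
  ∀ f : Fin n → ℝ, (∀ a b, G.Adj a b → |f a - f b| = |y a - y b|) →
    ∃ s t : ℝ, (s = 1 ∨ s = -1) ∧ ∀ u ∈ U, f u = s * y u + t

/-- the graph induced on `W` -/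
def ind {n : ℕ} (G : SimpleGraph (Fin n)) (W : Finset (Fin n)) : SimpleGraph {w // w ∈ W} :=
  G.comap Subtype.val

/-- the placement of the vertices of `W` -/
def pl {n : ℕ} (x : Fin n → ℝ) (W : Finset (Fin n)) (σ : Equiv.Perm (Fin n)) : {w // w ∈ W} → ℝ :=
  fun w => x (σ w.1)

section

variable {n : ℕ} (x : Fin n → ℝ) (hx : Function.Injective x) (W : Finset (Fin n)) (hW : W.Nonempty)
  (q : ℝ) (hq : 1 ≤ q) (hqn : q ≤ (n : ℝ) - W.card)

include hx in
theorem pl_inj (σ : Equiv.Perm (Fin n)) : Function.Injective (pl x W σ) := by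
  intro a b h
  exact Subtype.ext (σ.injective (hx h))

include hx hW hq hqn in
theorem count_real (P Q : SimpleGraph {w // w ∈ W}) (r : ℝ) (hr : r ≤ ncon P Q) (h0 : 0 ≤ ncon P Q) :
    (((univ : Finset (Equiv.Perm (Fin n))).filter (fun σ => Real P Q (pl x W σ))).card : ℝ) ≤
      n.factorial * q ^ (-r) := by
  have hcW : Fintype.card {w // w ∈ W} = W.card := Fintype.card_coe W
  have hWn : W.card < n := by
    have : (W.card : ℝ) < n := by linarith
    exact_mod_cast this
  have hle : (cset P).card + (cset Q).card ≤ W.card + 1 := by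
    unfold ncon at h0
    rw [hcW] at h0
    have : ((cset P).card : ℝ) + (cset Q).card ≤ W.card + 1 := by linarith
    exact_mod_cast this
  set c := W.card + 1 - ((cset P).card + (cset Q).card) with hc
  have hcr : (c : ℝ) = ncon P Q := by
    unfold ncon
    rw [hc, Nat.cast_sub hle, hcW]
    push_cast; ring
  have h1 := count_pat x hx W hW hWn P Q c (by rw [← card_cset, ← card_cset]; omega)
  have h2 : (((univ : Finset (Equiv.Perm (Fin n))).filter (fun σ => Real P Q (pl x W σ))).card : ℝ) *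
      (((n - W.card : ℕ) : ℝ)) ^ c ≤ n.factorial := by
    exact_mod_cast h1
  have h3 : ((n - W.card : ℕ) : ℝ) = n - W.card := by
    rw [Nat.cast_sub hWn.le]
  have h4 : q ^ r ≤ (((n - W.card : ℕ) : ℝ)) ^ c := by
    calc q ^ r ≤ q ^ (c : ℝ) := Real.rpow_le_rpow_of_exponent_le hq (by rw [hcr]; exact hr)
      _ = q ^ c := Real.rpow_natCast _ _
      _ ≤ _ := pow_le_pow_left₀ (by linarith) (by rw [h3]; exact hqn) _
  have h5 : 0 < q ^ r := Real.rpow_pos_of_pos (by linarith) _
  rw [Real.rpow_neg (by linarith), ← div_eq_mul_inv, le_div_iff₀ h5]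
  exact (mul_le_mul_of_nonneg_left h4 (Nat.cast_nonneg _)).trans h2

variable (H : SimpleGraph {w // w ∈ W}) (c2 κ : ℝ) (hc2 : 0 < c2) (hκ : 0 < κ)
  (hsub : ∀ X : Finset {w // w ∈ W}, X.Nonempty → X ≠ univ →
    (ein H X : ℝ) ≤ ((X.card : ℝ) - 1) * (c2 + κ * X.card))
  (hbig : (((W.card : ℕ) : ℝ) - 1) * (c2 + κ * W.card) ≤ ein H univ)
  (hA : c2 + κ * W.card ≤ 2)

/-- there are only small components -/
def Small {α : Type} [Fintype α] (H : SimpleGraph α) (T : Finset (Sym2 α)) : Prop :=
  (∀ X ∈ cset (gp H T), 4 * X.card ≤ 3 * Fintype.card α) ∧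
    (∀ X ∈ cset (gm H T), 4 * X.card ≤ 3 * Fintype.card α)

include hc2 hκ hsub hbig hA in
theorem comb' (T : Finset (Sym2 {w // w ∈ W})) (hP : univ ∉ cset (gp H T)) (hQ : univ ∉ cset (gm H T)) :
    0 ≤ ncon (gp H T) (gm H T) ∧
      κ * (dfc (gp H T) + dfc (gm H T)) ≤ 2 * ncon (gp H T) (gm H T) := by
  have hcW : Fintype.card {w // w ∈ W} = W.card := Fintype.card_coe W
  have h := comb H (gp H T) (gm H T) (gp_or_gm H T) c2 κ hsub (by rw [hcW]; exact hbig) hP hQ
  rw [hcW] at h
  have h1 := dfc_nonneg (gp H T)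
  have h2 := dfc_nonneg (gm H T)
  have h3 : 0 ≤ κ * (dfc (gp H T) + dfc (gm H T)) := by positivity
  have h5 : 0 < c2 + κ * W.card := by positivity
  have h4 : 0 ≤ ncon (gp H T) (gm H T) := by
    by_contra hneg
    push Not at hneg
    nlinarith
  exact ⟨h4, h.trans (mul_le_mul_of_nonneg_right hA h4)⟩

/-- the bad event that there is no big component -/
def E1 (σ : Equiv.Perm (Fin n)) : Prop :=
  ∃ T ⊆ univ.filter (fun e => e ∈ H.edgeSet), Real (gp H T) (gm H T) (pl x W σ) ∧ Small H T

include hx hW hq hqn hc2 hκ hsub hbig hA in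
theorem count_E1 : (((univ : Finset (Equiv.Perm (Fin n))).filter (fun σ => E1 x W H σ)).card : ℝ) ≤
    2 ^ (ein H univ) * (n.factorial * q ^ (-(κ * ((W.card : ℝ) / 4) * ((W.card : ℝ) - 1) / 2))) := by
  have hcW : Fintype.card {w // w ∈ W} = W.card := Fintype.card_coe W
  have hpos : 0 < W.card := card_pos.2 hW
  have hE : (univ.filter (fun e => e ∈ H.edgeSet)).card = ein H univ := by
    unfold ein; simp
  have hsubset : (univ : Finset (Equiv.Perm (Fin n))).filter (fun σ => E1 x W H σ) ⊆
      ((univ.filter (fun e => e ∈ H.edgeSet)).powerset.filter (Small H)).biUnion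
        (fun T => (univ : Finset (Equiv.Perm (Fin n))).filter
          (fun σ => Real (gp H T) (gm H T) (pl x W σ))) := by
    intro σ hσ
    obtain ⟨T, hT, h1, h2⟩ := (mem_filter.1 hσ).2
    rw [mem_biUnion]
    exact ⟨T, mem_filter.2 ⟨mem_powerset.2 hT, h2⟩, mem_filter.2 ⟨mem_univ _, h1⟩⟩
  have hb : ∀ T, Small H T → (((univ : Finset (Equiv.Perm (Fin n))).filter
      (fun σ => Real (gp H T) (gm H T) (pl x W σ))).card : ℝ) ≤
      n.factorial * q ^ (-(κ * ((W.card : ℝ) / 4) * ((W.card : ℝ) - 1) / 2)) := by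
    intro T hT
    have hP : univ ∉ cset (gp H T) := fun h => by
      have := hT.1 _ h
      rw [card_univ, hcW] at this; omega
    have hQ : univ ∉ cset (gm H T) := fun h => by
      have := hT.2 _ h
      rw [card_univ, hcW] at this; omega
    obtain ⟨h0, h1⟩ := comb' W H c2 κ hc2 hκ hsub hbig hA T hP hQ
    refine count_real x hx W hW q hq hqn _ _ _ ?_ h0
    have h2 := dfc_of_small hT.1
    have h3 := dfc_of_small hT.2
    rw [hcW] at h2 h3
    have h4 : ((W.card : ℝ) / 4) * ((W.card : ℝ) - 1 + ncon (gp H T) (gm H T)) ≤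
        dfc (gp H T) + dfc (gm H T) := by
      unfold ncon
      rw [hcW]
      linarith
    have h5 : ((W.card : ℝ) / 4) * ((W.card : ℝ) - 1) ≤ dfc (gp H T) + dfc (gm H T) := by
      refine le_trans ?_ h4
      refine mul_le_mul_of_nonneg_left (by linarith) (by positivity)
    have h6 := mul_le_mul_of_nonneg_left h5 hκ.le
    linarith
  calc (((univ : Finset (Equiv.Perm (Fin n))).filter (fun σ => E1 x W H σ)).card : ℝ)
      ≤ ∑ T ∈ (univ.filter (fun e => e ∈ H.edgeSet)).powerset.filter (Small H),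
        (((univ : Finset (Equiv.Perm (Fin n))).filter
          (fun σ => Real (gp H T) (gm H T) (pl x W σ))).card : ℝ) := by
        exact_mod_cast (card_le_card hsubset).trans card_biUnion_le
    _ ≤ ∑ T ∈ (univ.filter (fun e => e ∈ H.edgeSet)).powerset.filter (Small H),
        (n.factorial * q ^ (-(κ * ((W.card : ℝ) / 4) * ((W.card : ℝ) - 1) / 2)) : ℝ) :=
        sum_le_sum fun T hT => hb T (mem_filter.1 hT).2
    _ = (((univ.filter (fun e => e ∈ H.edgeSet)).powerset.filter (Small H)).card : ℝ) *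
        (n.factorial * q ^ (-(κ * ((W.card : ℝ) / 4) * ((W.card : ℝ) - 1) / 2))) := by
        rw [sum_const, nsmul_eq_mul]
    _ ≤ _ := by
        refine mul_le_mul_of_nonneg_right ?_ (mul_nonneg (Nat.cast_nonneg _)
          (Real.rpow_nonneg (by linarith) _))
        have h7 : ((univ.filter (fun e => e ∈ H.edgeSet)).powerset.filter (Small H)).card ≤
            2 ^ (ein H univ) := by
          refine (card_filter_le _ _).trans ?_
          rw [card_powerset, hE]
        exact_mod_cast h7

/-- the bad event of a vertex -/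
def E2 (w : {w // w ∈ W}) (σ : Equiv.Perm (Fin n)) : Prop :=
  ∃ S : Finset {w // w ∈ W}, Cut H w S ∧ ∃ T ⊆ touch H S,
    Real (gp H T) (gm H T) (pl x W σ) ∧ Loc H T S.card

/-- the bound for the probability of the bad event of a vertex -/
noncomputable def tau (Δ N : ℕ) (q κ : ℝ) : ℝ :=
  ∑ s ∈ Finset.Icc 1 N, ((Δ : ℝ) ^ (2 * (s - 1)) * 2 ^ (Δ * s)) * q ^ (-((1 + κ * N / 4 * s) / 2))

include hx hW hq hqn hc2 hκ hsub hbig hA in
theorem count_E2 {Δ : ℕ} (hΔ : ∀ w, (univ.filter (fun u => H.Adj w u)).card ≤ Δ) (w : {w // w ∈ W}) :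
    (((univ : Finset (Equiv.Perm (Fin n))).filter (fun σ => E2 x W H w σ)).card : ℝ) ≤
    n.factorial * tau Δ W.card q κ := by
  have hcW : Fintype.card {w // w ∈ W} = W.card := Fintype.card_coe W
  have hpos : 0 < W.card := card_pos.2 hW
  have hsubset : (univ : Finset (Equiv.Perm (Fin n))).filter (fun σ => E2 x W H w σ) ⊆
      (Finset.Icc 1 W.card).biUnion fun s => ((supp H (2 * (s - 1)) w).filter (fun S => S.card = s)).biUnion
        fun S => ((touch H S).powerset.filter (fun T => Loc H T S.card)).biUnion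
        (fun T => (univ : Finset (Equiv.Perm (Fin n))).filter
          (fun σ => Real (gp H T) (gm H T) (pl x W σ))) := by
    intro σ hσ
    obtain ⟨S, hS, T, hT, h1, h2⟩ := (mem_filter.1 hσ).2
    rw [mem_biUnion]
    refine ⟨S.card, ?_, ?_⟩
    · rw [mem_Icc]
      refine ⟨card_pos.2 ⟨w, hS.1⟩, ?_⟩
      have := card_le_univ S
      rwa [hcW] at this
    rw [mem_biUnion]
    refine ⟨S, mem_filter.2 ⟨cut_mem_supp H hS, rfl⟩, ?_⟩
    rw [mem_biUnion]
    exact ⟨T, mem_filter.2 ⟨mem_powerset.2 hT, h2⟩, mem_filter.2 ⟨mem_univ _, h1⟩⟩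
  have hb : ∀ s : ℕ, 1 ≤ s → ∀ T, Loc H T s → (((univ : Finset (Equiv.Perm (Fin n))).filter
      (fun σ => Real (gp H T) (gm H T) (pl x W σ))).card : ℝ) ≤
      n.factorial * q ^ (-((1 + κ * W.card / 4 * s) / 2)) := by
    intro s hs T hT
    obtain ⟨h0, h1⟩ := comb' W H c2 κ hc2 hκ hsub hbig hA T hT.1 hT.2.1
    refine count_real x hx W hW q hq hqn _ _ _ ?_ h0
    have h2 := hT.2.2
    rw [hcW] at h2
    have hs' : (1 : ℝ) ≤ s := by exact_mod_cast hs
    have hpos' : (1 : ℝ) ≤ W.card := by exact_mod_cast hpos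
    have h3 := mul_le_mul_of_nonneg_left h2 hκ.le
    have h4 : κ * W.card / 4 * s ≤ ncon (gp H T) (gm H T) := by
      have : κ * ((W.card : ℝ) / 2 * s) ≤ κ * ((W.card : ℝ) / 2 * (s + ncon (gp H T) (gm H T))) := by
        refine mul_le_mul_of_nonneg_left ?_ hκ.le
        refine mul_le_mul_of_nonneg_left (by linarith) (by positivity)
      linarith
    have h5 : 0 < ncon (gp H T) (gm H T) := lt_of_lt_of_le (by positivity) h4
    have h6 : 1 ≤ ncon (gp H T) (gm H T) := by
      unfold ncon at h5 ⊢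
      have e : ((Fintype.card {w // w ∈ W} : ℝ) + 1 - (cset (gp H T)).card - (cset (gm H T)).card) =
          (((Fintype.card {w // w ∈ W} : ℤ) + 1 - (cset (gp H T)).card - (cset (gm H T)).card : ℤ) : ℝ) := by
        push_cast; ring
      rw [e] at h5 ⊢
      have h7 : 0 < ((Fintype.card {w // w ∈ W} : ℤ) + 1 - (cset (gp H T)).card - (cset (gm H T)).card : ℤ) := by
        exact_mod_cast h5
      have h8 : 1 ≤ ((Fintype.card {w // w ∈ W} : ℤ) + 1 - (cset (gp H T)).card - (cset (gm H T)).card : ℤ) := h7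
      exact_mod_cast h8
    linarith
  have hq0 : 0 < q := by linarith
  calc (((univ : Finset (Equiv.Perm (Fin n))).filter (fun σ => E2 x W H w σ)).card : ℝ)
      ≤ ∑ s ∈ Finset.Icc 1 W.card, ∑ S ∈ (supp H (2 * (s - 1)) w).filter (fun S => S.card = s),
        ∑ T ∈ (touch H S).powerset.filter (fun T => Loc H T S.card),
        (((univ : Finset (Equiv.Perm (Fin n))).filter
          (fun σ => Real (gp H T) (gm H T) (pl x W σ))).card : ℝ) := by
        have := (card_le_card hsubset).trans card_biUnion_le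
        have h2 := this.trans (sum_le_sum fun s _ => card_biUnion_le.trans
          (sum_le_sum fun S _ => card_biUnion_le))
        exact_mod_cast h2
    _ ≤ ∑ s ∈ Finset.Icc 1 W.card, ∑ S ∈ (supp H (2 * (s - 1)) w).filter (fun S => S.card = s),
        (2 : ℝ) ^ (Δ * s) * (n.factorial * q ^ (-((1 + κ * W.card / 4 * s) / 2))) := by
        refine sum_le_sum fun s hs => sum_le_sum fun S hS => ?_
        have hSs := (mem_filter.1 hS).2
        rw [hSs]
        calc _ ≤ ∑ T ∈ (touch H S).powerset.filter (fun T => Loc H T s),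
            (n.factorial * q ^ (-((1 + κ * W.card / 4 * s) / 2)) : ℝ) :=
              sum_le_sum fun T hT => hb s (mem_Icc.1 hs).1 T (mem_filter.1 hT).2
          _ = (((touch H S).powerset.filter (fun T => Loc H T s)).card : ℝ) *
            (n.factorial * q ^ (-((1 + κ * W.card / 4 * s) / 2))) := by rw [sum_const, nsmul_eq_mul]
          _ ≤ _ := by
            refine mul_le_mul_of_nonneg_right ?_ (mul_nonneg (Nat.cast_nonneg _)
              (Real.rpow_nonneg hq0.le _))
            have h7 : ((touch H S).powerset.filter (fun T => Loc H T s)).card ≤ 2 ^ (Δ * s) := by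
              refine (card_filter_le _ _).trans ?_
              rw [card_powerset]
              refine Nat.pow_le_pow_right (by norm_num) ?_
              rw [← hSs]
              exact card_touch H hΔ S
            exact_mod_cast h7
    _ ≤ ∑ s ∈ Finset.Icc 1 W.card, (n.factorial : ℝ) *
        (((Δ : ℝ) ^ (2 * (s - 1)) * 2 ^ (Δ * s)) * q ^ (-((1 + κ * W.card / 4 * s) / 2))) := by
        refine sum_le_sum fun s _ => ?_
        rw [sum_const, nsmul_eq_mul]
        have h8 : (((supp H (2 * (s - 1)) w).filter (fun S => S.card = s)).card : ℝ) ≤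
            (Δ : ℝ) ^ (2 * (s - 1)) := by
          exact_mod_cast (card_filter_le _ _).trans (card_supp H hΔ _ w)
        have h9 : 0 ≤ (2 : ℝ) ^ (Δ * s) * (n.factorial * q ^ (-((1 + κ * W.card / 4 * s) / 2))) :=
          mul_nonneg (by positivity) (mul_nonneg (Nat.cast_nonneg _) (Real.rpow_nonneg hq0.le _))
        calc _ ≤ (Δ : ℝ) ^ (2 * (s - 1)) * ((2 : ℝ) ^ (Δ * s) *
              (n.factorial * q ^ (-((1 + κ * W.card / 4 * s) / 2)))) := mul_le_mul_of_nonneg_right h8 h9
          _ = _ := by ring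
    _ = _ := by rw [tau, mul_sum]

end

end Pool.Agent.J4H99.RL
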