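import Mathlib
import Pool.Agent.J4H99.RL.UB

/-!
# The reconstruction for a random permutation of the points
-/

set_option autoImplicit false

namespace Pool.Agent.J4H99.RL

open Finset
open scoped Classical

theorem gp_neg {α : Type} [Fintype α] {H : SimpleGraph α} {f y : α → ℝ} (hy : Function.Injective y)
    (hf : Keep H f y) : gp H (sgn H (fun v => - f v) y) = gm H (sgn H f y) := by
  ext u v
  constructor
  · rintro ⟨h1, h2⟩
    refine ⟨h1, mem_sgn.2 ⟨h1, ?_⟩⟩
    rcases abs_eq_abs.1 (hf u v h1) with h3 | h3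
    · exfalso
      apply h2
      rw [mem_sgn]
      exact ⟨h1, by linarith⟩
    · exact h3
  · rintro ⟨h1, h2⟩
    refine ⟨h1, fun h3 => ?_⟩
    have h4 := (mem_sgn.1 h2).2
    have h5 := (mem_sgn.1 h3).2
    exact H.ne_of_adj h1 (hy (by linarith))

theorem good_det {α : Type} [Fintype α] {H : SimpleGraph α} {f y : α → ℝ} (hy : Function.Injective y)
    (hf : Keep H f y) (hN : 4 ≤ Fintype.card α) (U : Set α)
    (hU : ∀ w ∈ U, ¬ ∃ S : Finset α, Cut H w S ∧ ∃ T ⊆ touch H S, Real (gp H T) (gm H T) y ∧ Loc H T S.card)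
    (hE : ¬ ∃ T ⊆ univ.filter (fun e => e ∈ H.edgeSet), Real (gp H T) (gm H T) y ∧ Small H T) :
    ∃ s t : ℝ, (s = 1 ∨ s = -1) ∧ ∀ u ∈ U, f u = s * y u + t := by
  have h1 : ¬ Small H (sgn H f y) := fun h => hE ⟨_, sgn_subset H f y, real_of hf, h⟩
  unfold Small at h1
  rw [not_and_or] at h1
  rcases h1 with h1 | h1
  · push Not at h1
    obtain ⟨K, hK, hbig⟩ := h1
    obtain ⟨k, hk⟩ := cset_nonempty hK
    refine ⟨1, f k - y k, Or.inl rfl, fun u hu => ?_⟩
    have hu' : u ∈ K := by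
      by_contra hno
      exact hU u hu (local_pattern hy hf hN hK hbig hno)
    rw [cset_eq_of_mem hK hk] at hu'
    have h2 : f k - y k = f u - y u :=
      const_of_adj (g := fun w => f w - y w) (fun _ _ h => plus_of hf h) (mem_cmp.1 hu')
    linarith
  · push Not at h1
    obtain ⟨K, hK, hbig⟩ := h1
    have hf' : Keep H (fun v => - f v) y := by
      intro u v huv
      rw [← hf u v huv, ← abs_neg (f u - f v)]
      congr 1; ring
    rw [← gp_neg hy hf] at hK
    obtain ⟨k, hk⟩ := cset_nonempty hK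
    refine ⟨-1, f k + y k, Or.inr rfl, fun u hu => ?_⟩
    have hu' : u ∈ K := by
      by_contra hno
      exact hU u hu (local_pattern hy hf' hN hK hbig hno)
    rw [cset_eq_of_mem hK hk] at hu'
    have h2 : - f k - y k = - f u - y u :=
      const_of_adj (g := fun w => - f w - y w) (fun _ _ h => plus_of hf' h) (mem_cmp.1 hu')
    linarith

section

variable {n : ℕ} (x : Fin n → ℝ) (hx : Function.Injective x) (G : SimpleGraph (Fin n)) (W : Finset (Fin n))
  (hW4 : 4 ≤ W.card) (q : ℝ) (hq : 1 ≤ q) (hqn : q ≤ (n : ℝ) - W.card)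
  (c2 κ : ℝ) (hc2 : 0 < c2) (hκ : 0 < κ)
  (hsub : ∀ X : Finset {w // w ∈ W}, X.Nonempty → X ≠ univ →
    (ein (ind G W) X : ℝ) ≤ ((X.card : ℝ) - 1) * (c2 + κ * X.card))
  (hbig : (((W.card : ℕ) : ℝ) - 1) * (c2 + κ * W.card) ≤ ein (ind G W) univ)
  (hA : c2 + κ * W.card ≤ 2)

include hx hW4 in
theorem rec_of (σ : Equiv.Perm (Fin n)) (h1 : ¬ E1 x W (ind G W) σ) :
    Rec (fun i => x (σ i)) G ((univ.filter (fun w : {w // w ∈ W} => ¬ E2 x W (ind G W) w σ)).map
      (Function.Embedding.subtype fun w => w ∈ W)) := by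
  intro f hf
  have hcW : Fintype.card {w // w ∈ W} = W.card := Fintype.card_coe W
  have hf' : Keep (ind G W) (fun w => f w.1) (pl x W σ) := by
    intro u v huv
    exact hf u.1 v.1 huv
  obtain ⟨s, t, hs, h⟩ := good_det (pl_inj x hx W σ) hf' (by rw [hcW]; exact hW4)
    {w | ¬ E2 x W (ind G W) w σ} (fun w hw => hw) h1
  refine ⟨s, t, hs, fun u hu => ?_⟩
  obtain ⟨w, hw, rfl⟩ := mem_map.1 hu
  exact h w (mem_filter.1 hw).2

include hx hW4 hq hqn hc2 hκ hsub hbig hA in
theorem partA {Δ : ℕ} (hΔ : ∀ w, (univ.filter (fun u => (ind G W).Adj w u)).card ≤ Δ) :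
    (((univ : Finset (Equiv.Perm (Fin n))).filter (fun σ =>
      ¬ ∃ U : Finset (Fin n), W.card ≤ 2 * U.card ∧ Rec (fun i => x (σ i)) G U)).card : ℝ) ≤
    n.factorial * (2 ^ (ein (ind G W) univ) *
      q ^ (-(κ * ((W.card : ℝ) / 4) * ((W.card : ℝ) - 1) / 2)) + 2 * tau Δ W.card q κ) := by
  have hW : W.Nonempty := card_pos.1 (by omega)
  have hcW : Fintype.card {w // w ∈ W} = W.card := Fintype.card_coe W
  have c1 := count_E1 x hx W hW q hq hqn (ind G W) c2 κ hc2 hκ hsub hbig hA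
  have c2' := fun w => count_E2 x hx W hW q hq hqn (ind G W) c2 κ hc2 hκ hsub hbig hA hΔ w
  -- Markov
  set bad : Finset (Equiv.Perm (Fin n)) := (univ : Finset (Equiv.Perm (Fin n))).filter (fun σ =>
    W.card < 2 * (univ.filter (fun w : {w // w ∈ W} => E2 x W (ind G W) w σ)).card) with hbad
  have hdc : ∑ σ : Equiv.Perm (Fin n), (univ.filter (fun w : {w // w ∈ W} => E2 x W (ind G W) w σ)).card =
      ∑ w : {w // w ∈ W}, ((univ : Finset (Equiv.Perm (Fin n))).filter (fun σ => E2 x W (ind G W) w σ)).card := by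
    simp only [card_filter]
    exact sum_comm
  have hmk : (bad.card : ℝ) * W.card ≤ 2 * (W.card * (n.factorial * tau Δ W.card q κ)) := by
    have h1 : bad.card * W.card ≤ 2 * ∑ σ : Equiv.Perm (Fin n),
        (univ.filter (fun w : {w // w ∈ W} => E2 x W (ind G W) w σ)).card := by
      calc bad.card * W.card = ∑ σ ∈ bad, W.card := by rw [sum_const, smul_eq_mul]
        _ ≤ ∑ σ ∈ bad, 2 * (univ.filter (fun w : {w // w ∈ W} => E2 x W (ind G W) w σ)).card :=
          sum_le_sum fun σ hσ => (mem_filter.1 hσ).2.le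
        _ ≤ ∑ σ, 2 * (univ.filter (fun w : {w // w ∈ W} => E2 x W (ind G W) w σ)).card :=
          sum_le_sum_of_subset (subset_univ _)
        _ = _ := by rw [mul_sum]
    rw [hdc] at h1
    have h2 : (bad.card : ℝ) * W.card ≤ 2 * ∑ w : {w // w ∈ W},
        (((univ : Finset (Equiv.Perm (Fin n))).filter (fun σ => E2 x W (ind G W) w σ)).card : ℝ) := by
      exact_mod_cast h1
    refine h2.trans (mul_le_mul_of_nonneg_left ?_ (by norm_num))
    calc _ ≤ ∑ w : {w // w ∈ W}, (n.factorial * tau Δ W.card q κ : ℝ) := sum_le_sum fun w _ => c2' w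
      _ = _ := by rw [sum_const, nsmul_eq_mul, card_univ, hcW]
  have hWpos : (0 : ℝ) < W.card := by
    have : 0 < W.card := by omega
    exact_mod_cast this
  have hmk' : (bad.card : ℝ) ≤ 2 * (n.factorial * tau Δ W.card q κ) := by
    refine le_of_mul_le_mul_right ?_ hWpos
    calc _ ≤ _ := hmk
      _ = _ := by ring
  have hsub' : (univ : Finset (Equiv.Perm (Fin n))).filter (fun σ =>
      ¬ ∃ U : Finset (Fin n), W.card ≤ 2 * U.card ∧ Rec (fun i => x (σ i)) G U) ⊆
      (univ : Finset (Equiv.Perm (Fin n))).filter (fun σ => E1 x W (ind G W) σ) ∪ bad := by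
    intro σ hσ
    have hno := (mem_filter.1 hσ).2
    by_contra hnot
    rw [mem_union, not_or] at hnot
    have h1 : ¬ E1 x W (ind G W) σ := fun h => hnot.1 (mem_filter.2 ⟨mem_univ _, h⟩)
    have h2 : ¬ W.card < 2 * (univ.filter (fun w : {w // w ∈ W} => E2 x W (ind G W) w σ)).card :=
      fun h => hnot.2 (mem_filter.2 ⟨mem_univ _, h⟩)
    apply hno
    refine ⟨_, ?_, rec_of x hx G W hW4 σ h1⟩
    rw [card_map]
    have h3 := Finset.card_filter_add_card_filter_not (s := (univ : Finset {w // w ∈ W}))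
      (fun w => E2 x W (ind G W) w σ)
    rw [card_univ, hcW] at h3
    omega
  have h4 := (card_le_card hsub').trans (card_union_le _ _)
  have h5 : (((univ : Finset (Equiv.Perm (Fin n))).filter (fun σ =>
      ¬ ∃ U : Finset (Fin n), W.card ≤ 2 * U.card ∧ Rec (fun i => x (σ i)) G U)).card : ℝ) ≤
      (((univ : Finset (Equiv.Perm (Fin n))).filter (fun σ => E1 x W (ind G W) σ)).card : ℝ) + bad.card := by
    exact_mod_cast h4
  refine h5.trans ((add_le_add c1 hmk').trans (le_of_eq ?_))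
  ring

end

end Pool.Agent.J4H99.RL
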