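import Mathlib
import Pool.Agent.J4H99.RL.Dens

/-!
# Sprinkling
-/

set_option autoImplicit false

namespace Pool.Agent.J4H99.RL

open Finset Pool.Agent.R980
open scoped Classical

theorem card_Ein {n : ℕ} (B : Finset (Fin n)) : (Ein B).card = B.card.choose 2 := by
  rw [← Sym2.card_image_offDiag]
  refine card_bij (fun e _ => e.1) ?_ ?_ ?_
  · intro e he
    have h1 := (mem_filter.1 he).2
    obtain ⟨e, hd⟩ := e
    induction e with
    | _ u v =>
    rw [mem_image]
    refine ⟨(u, v), ?_, rfl⟩
    rw [mem_offDiag]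
    refine ⟨h1 u (Sym2.mem_mk_left _ _), h1 v (Sym2.mem_mk_right _ _), ?_⟩
    intro h
    apply hd
    exact h
  · intro a _ b _ h
    exact Subtype.ext h
  · intro e he
    obtain ⟨⟨u, v⟩, huv, rfl⟩ := mem_image.1 he
    rw [mem_offDiag] at huv
    have hd : ¬ (s(u, v) : Sym2 (Fin n)).IsDiag := fun h => huv.2.2 h
    refine ⟨⟨s(u, v), hd⟩, ?_, rfl⟩
    unfold Ein
    simp only [mem_filter, mem_univ, true_and]
    intro w hw
    rcases Sym2.mem_iff.1 hw with rfl | rfl
    · exact huv.1
    · exact huv.2.1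

/-- lower tail of the number of present coordinates -/
theorem lower_tail {E : Type} [Fintype E] [DecidableEq E] {p : ℝ} (h0 : 0 < p) (h1 : p ≤ 1) (A : Finset E)
    (hA : 0 < A.card) :
    pr p (fun x => ((A.filter fun e => x e = true).card : ℝ) < p * A.card / 2) ≤ 4 / (p * A.card) := by
  have hA' : (0 : ℝ) < A.card := by exact_mod_cast hA
  have hpA : 0 < p * A.card := by positivity
  have h := cheb h0.le h1 (fun x => ((A.filter fun e => x e = true).card : ℝ)) A 1 (by norm_num) ?_ ?_
    (p * A.card / 2) (by positivity)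
  · rw [bex_card] at h
    calc _ ≤ pr p (fun x => p * A.card / 2 ≤ |((A.filter fun e => x e = true).card : ℝ) - p * A.card|) := by
          refine pr_mono h0.le h1 fun x hx => ?_
          rw [le_abs]
          right
          linarith
      _ ≤ _ := h
      _ = _ := by field_simp; norm_num
  · intro x e he
    congr 2
    refine filter_congr fun e' he' => ?_
    unfold off
    rw [Function.update_of_ne (by rintro rfl; exact he he')]
  · intro x e
    have hsub1 : (A.filter fun e' => off x e e' = true) ⊆ A.filter fun e' => x e' = true := by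
      intro e' he'
      obtain ⟨h2, h3⟩ := mem_filter.1 he'
      refine mem_filter.2 ⟨h2, ?_⟩
      unfold off at h3
      by_cases h4 : e' = e
      · rw [h4, Function.update_self] at h3
        exact absurd h3 (by simp)
      · rwa [Function.update_of_ne h4] at h3
    have hsub2 : (A.filter fun e' => x e' = true) ⊆ insert e (A.filter fun e' => off x e e' = true) := by
      intro e' he'
      obtain ⟨h2, h3⟩ := mem_filter.1 he'
      rw [mem_insert]
      by_cases h4 : e' = e
      · exact Or.inl h4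
      · right
        refine mem_filter.2 ⟨h2, ?_⟩
        unfold off
        rwa [Function.update_of_ne h4]
    have c1 := card_le_card hsub1
    have c2 := (card_le_card hsub2).trans (card_insert_le _ _)
    have c1' : ((A.filter fun e' => off x e e' = true).card : ℝ) ≤ (A.filter fun e' => x e' = true).card := by
      exact_mod_cast c1
    have c2' : ((A.filter fun e' => x e' = true).card : ℝ) ≤ (A.filter fun e' => off x e e' = true).card + 1 := by
      exact_mod_cast c2
    rw [abs_le]
    constructor <;> linarith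

/-- the number of edges -/
noncomputable def ecard {n : ℕ} (x : Edge n → Bool) : ℕ := (univ.filter fun e => x e = true).card

/-- there is a large dense set -/
def Dense {n : ℕ} (ρ δ : ℝ) (x : Edge n → Bool) : Prop :=
  ∃ B : Finset (Fin n), ρ * n ≤ B.card ∧ (1 + 2 * δ) * B.card ≤ ein (ofBool x) B

theorem spr_one {n : ℕ} (ε : ℝ) (hε : 0 < ε) (hε1 : ε ≤ 1) (k0 : ℕ) (hk0 : 0 < k0)
    (hk : 1 / (k0 : ℝ) ≤ ε * (ε / 64) ^ 2 / 128)
    (hn : 8 / (ε / 64) ^ 2 ≤ n) (x : Edge n → Bool) (hx : ecard x ≤ n)
    (hbig : ε / 64 * n ≤ (big k0 (ofBool x)).card) :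
    pr (ε / 4 / n) (fun y : Edge n → Bool => ¬ Dense (ε / 64) (ε * (ε / 64) ^ 2 / 256) (fun e => x e || y e)) ≤
      64 / (ε * (ε / 64) ^ 2 * n) := by
  set ρ := ε / 64 with hρ
  have hρ0 : 0 < ρ := by positivity
  have hρ1 : ρ ≤ 1 := by rw [hρ]; linarith
  set B := big k0 (ofBool x) with hB
  set A := (Ein B).filter (fun e => ¬ x e = true) with hA
  have hn8 : (8 : ℝ) ≤ ρ ^ 2 * n := by
    rw [div_le_iff₀ (by positivity)] at hn
    linarith
  have hn0 : (0 : ℝ) < n := by
    by_contra h
    push Not at h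
    nlinarith [sq_nonneg ρ]
  have hn1 : (1 : ℝ) ≤ n := by
    have : 0 < n := by exact_mod_cast hn0
    exact_mod_cast this
  have hcard : ρ ^ 2 * (n : ℝ) ^ 2 / 4 ≤ A.card := by
    have h1 : ((Ein B).filter (fun e => x e = true)).card + A.card = (Ein B).card := by
      rw [hA]
      convert Finset.card_filter_add_card_filter_not (s := Ein B) (fun e => x e = true)
    have h2 : ((Ein B).filter (fun e => x e = true)).card ≤ ecard x :=
      card_le_card fun e he => mem_filter.2 ⟨mem_univ _, (mem_filter.1 he).2⟩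
    rw [card_Ein] at h1
    have h3 : ((B.card.choose 2 : ℕ) : ℝ) ≤ (n : ℝ) + A.card := by
      have : B.card.choose 2 ≤ n + A.card := by omega
      exact_mod_cast this
    rw [Nat.cast_choose_two] at h3
    have h4 : ρ * n ≤ B.card := hbig
    have h5 : ρ * n * (ρ * n - 1) ≤ (B.card : ℝ) * ((B.card : ℝ) - 1) := by
      have : 1 ≤ ρ * n := by nlinarith
      nlinarith
    nlinarith
  have hA0 : 0 < A.card := by
    have : (0 : ℝ) < A.card := lt_of_lt_of_le (by positivity) hcard
    exact_mod_cast this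
  have hp0 : 0 < ε / 4 / n := by positivity
  have hp1 : ε / 4 / n ≤ 1 := by rw [div_le_one hn0]; linarith
  have hlow := lower_tail hp0 hp1 A hA0
  have hpA : ε * ρ ^ 2 * n / 16 ≤ ε / 4 / n * A.card := by
    calc ε * ρ ^ 2 * n / 16 = ε / 4 / n * (ρ ^ 2 * (n : ℝ) ^ 2 / 4) := by field_simp; ring
      _ ≤ _ := mul_le_mul_of_nonneg_left hcard hp0.le
  refine (pr_mono hp0.le hp1 ?_).trans (hlow.trans ?_)
  · intro y hy
    by_contra hno
    push Not at hno
    apply hy
    refine ⟨B, hbig, ?_⟩
    have h6 := big_dens (ofBool x) hk0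
    rw [← hB] at h6
    have h7 : ein (ofBool (fun e => x e || y e)) B = ein (ofBool x) B + (A.filter fun e => y e = true).card := by
      rw [ein_eq, ein_eq, hA, filter_filter]
      rw [← card_union_of_disjoint]
      · congr 1
        ext e
        simp only [mem_union, mem_filter, Bool.or_eq_true]
        by_cases h8 : x e = true <;> simp [h8]
      · rw [disjoint_left]
        intro e h8 h9
        exact (mem_filter.1 h9).2.1 (mem_filter.1 h8).2
    rw [h7]
    push_cast
    have hBn : (B.card : ℝ) ≤ n := by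
      have := card_le_univ B
      rw [Fintype.card_fin] at this
      exact_mod_cast this
    have hB0 : (0 : ℝ) ≤ B.card := Nat.cast_nonneg _
    have h9 : (B.card : ℝ) * (1 / k0) ≤ n * (ε * ρ ^ 2 / 128) :=
      mul_le_mul hBn hk (by positivity) hn0.le
    have h10 : (B.card : ℝ) * (ε * ρ ^ 2 / 256) ≤ n * (ε * ρ ^ 2 / 256) :=
      mul_le_mul_of_nonneg_right hBn (by positivity)
    nlinarith
  · rw [div_le_div_iff₀ (by positivity) (by positivity)]
    nlinarith

theorem pr_two {E : Type} [Fintype E] [DecidableEq E] (p₁ p₂ : ℝ) (A : (E → Bool) → Prop) :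
    pr (1 - (1 - p₁) * (1 - p₂)) A = bex p₁ (fun x => pr p₂ (fun y => A (fun e => x e || y e))) :=
  bex_two p₁ p₂ (fun z => if A z then 1 else 0)

/-- sprinkling: a large dense set exists with high probability -/
theorem dense_whp (ε : ℝ) (hε : 0 < ε) (hε1 : ε ≤ 1) (η : ℝ) (hη : 0 < η) :
    ∃ N : ℕ, ∀ n ≥ N,
      pr (1 - (1 - (1 + ε / 2) / n) * (1 - ε / 4 / n)) (fun x : Edge n → Bool =>
        ¬ Dense (ε / 64) (ε * (ε / 64) ^ 2 / 256) x ∧ ecard x ≤ n) ≤ η := by
  obtain ⟨k0, hk0⟩ := exists_nat_gt (128 / (ε * (ε / 64) ^ 2))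
  have hpos : 0 < ε * (ε / 64) ^ 2 := by positivity
  have hk0' : (0 : ℝ) < k0 := lt_trans (by positivity) hk0
  have hk0n : 0 < k0 := by exact_mod_cast hk0'
  have hk : 1 / (k0 : ℝ) ≤ ε * (ε / 64) ^ 2 / 128 := by
    rw [div_le_div_iff₀ hk0' (by norm_num)]
    rw [div_lt_iff₀ hpos] at hk0
    linarith
  obtain ⟨N, hN⟩ := big_whp (ε / 2) (by positivity) (by linarith) k0 (η / 2) (by positivity)
  obtain ⟨N', hN'⟩ := exists_nat_gt (8 / (ε / 64) ^ 2 + 128 / (ε * (ε / 64) ^ 2 * η) + 2)
  refine ⟨max N N', fun n hn => ?_⟩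
  have hnN : n ≥ N := (le_max_left _ _).trans hn
  have hnN' : (N' : ℝ) ≤ n := by exact_mod_cast (le_max_right _ _).trans hn
  have q1 : 0 < 8 / (ε / 64) ^ 2 := by positivity
  have q2 : 0 < 128 / (ε * (ε / 64) ^ 2 * η) := by positivity
  have hn2 : (2 : ℝ) < n := by linarith
  have hn0 : (0 : ℝ) < n := by linarith
  have hn8 : 8 / (ε / 64) ^ 2 ≤ n := by linarith
  have hnη : 128 / (ε * (ε / 64) ^ 2 * η) ≤ n := by linarith
  have hp0 : 0 ≤ (1 + ε / 2) / n := by positivity
  have hp1 : (1 + ε / 2) / n ≤ 1 := by rw [div_le_one hn0]; linarith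
  have hr0 : 0 ≤ ε / 4 / n := by positivity
  have hr1 : ε / 4 / n ≤ 1 := by rw [div_le_one hn0]; linarith
  rw [pr_two]
  have hb := hN n hnN
  have hle : bex ((1 + ε / 2) / n) (fun x : Edge n → Bool => pr (ε / 4 / n) (fun y : Edge n → Bool =>
      ¬ Dense (ε / 64) (ε * (ε / 64) ^ 2 / 256) (fun e => x e || y e) ∧ ecard (fun e => x e || y e) ≤ n)) ≤
      bex ((1 + ε / 2) / n) (fun x : Edge n → Bool =>
        (if ((big k0 (ofBool x)).card : ℝ) < ε / 2 / 32 * n then (1 : ℝ) else 0) + η / 2) := by
    refine bex_mono hp0 hp1 fun x => ?_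
    by_cases h1 : ((big k0 (ofBool x)).card : ℝ) < ε / 2 / 32 * n
    · rw [if_pos h1]
      have := pr_le_one hr0 hr1 (fun y : Edge n → Bool =>
        ¬ Dense (ε / 64) (ε * (ε / 64) ^ 2 / 256) (fun e => x e || y e) ∧ ecard (fun e => x e || y e) ≤ n)
      linarith
    · rw [if_neg h1, zero_add]
      by_cases h2 : ecard x ≤ n
      · have h3 := spr_one ε hε hε1 k0 hk0n hk hn8 x h2 (by push Not at h1; linarith)
        refine (pr_mono hr0 hr1 fun y hy => hy.1).trans (h3.trans ?_)
        rw [div_le_iff₀ (by positivity)] at hnη ⊢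
        nlinarith
      · have h4 : pr (ε / 4 / n) (fun y : Edge n → Bool =>
            ¬ Dense (ε / 64) (ε * (ε / 64) ^ 2 / 256) (fun e => x e || y e) ∧
              ecard (fun e => x e || y e) ≤ n) = 0 := by
          refine Eq.trans ?_ (bex_const (E := Edge n) (ε / 4 / n) 0)
          unfold pr
          congr 1
          funext y
          rw [if_neg]
          rintro ⟨-, h5⟩
          apply h2
          refine le_trans (card_le_card fun e he => ?_) h5
          have := (mem_filter.1 he).2
          exact mem_filter.2 ⟨mem_univ _, by simp [this]⟩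
        rw [h4]
        positivity
  refine hle.trans ?_
  rw [bex_add, bex_const, pr_ite]
  linarith

end Pool.Agent.J4H99.RL
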