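import Mathlib
import Pool.Agent.J4H99.RL.Spr

/-!
# First moment bounds
-/

set_option autoImplicit false

namespace Pool.Agent.J4H99.RL

open Finset Pool.Agent.R980
open scoped Classical

/-- not too many edges -/
theorem edges_whp (η : ℝ) (hη : 0 < η) : ∃ N : ℕ, ∀ n ≥ N, ∀ p : ℝ, 0 ≤ p → p ≤ 3 / 2 / n →
    pr p (fun x : Edge n → Bool => (4 / 5 : ℝ) * n < ecard x) ≤ η := by
  obtain ⟨N, hN⟩ := exists_nat_gt (300 / η + 2)
  refine ⟨N, fun n hn p h0 hp => ?_⟩
  have hnN : (N : ℝ) ≤ n := by exact_mod_cast hn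
  have q1 : 0 < 300 / η := by positivity
  have hn2 : (2 : ℝ) < n := by linarith
  have hn0 : (0 : ℝ) < n := by linarith
  have hnη : 300 / η ≤ n := by linarith
  have h1 : p ≤ 1 := by
    refine hp.trans ?_
    rw [div_le_one hn0]; linarith
  have hpE : p * ((Fintype.card (Edge n) : ℕ) : ℝ) ≤ 3 / 4 * n := by
    calc p * ((Fintype.card (Edge n) : ℕ) : ℝ) ≤ 3 / 2 / n * ((n : ℝ) ^ 2 / 2) :=
          mul_le_mul hp (card_edge_le n) (Nat.cast_nonneg _) (by positivity)
      _ = 3 / 4 * n := by field_simp; norm_num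
  have h := cheb h0 h1 (fun x : Edge n → Bool => ((univ.filter fun e => x e = true).card : ℝ)) univ 1 (by norm_num)
    (fun x e he => absurd (mem_univ e) he) ?_ (n / 20) (by positivity)
  · rw [bex_card, card_univ] at h
    calc _ ≤ pr p (fun x : Edge n → Bool => (n : ℝ) / 20 ≤
          |((univ.filter fun e => x e = true).card : ℝ) - p * ((Fintype.card (Edge n) : ℕ) : ℝ)|) := by
          refine pr_mono h0 h1 fun x hx => ?_
          rw [le_abs]
          left
          unfold ecard at hx
          linarith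
      _ ≤ _ := h
      _ ≤ η := by
          rw [div_le_iff₀ (by positivity)]
          rw [div_le_iff₀ hη] at hnη
          nlinarith
  · intro x e
    have hsub1 : (univ.filter fun e' => off x e e' = true) ⊆ univ.filter fun e' => x e' = true := by
      intro e' he'
      obtain ⟨h2, h3⟩ := mem_filter.1 he'
      refine mem_filter.2 ⟨h2, ?_⟩
      unfold off at h3
      by_cases h4 : e' = e
      · rw [h4, Function.update_self] at h3
        exact absurd h3 (by simp)
      · rwa [Function.update_of_ne h4] at h3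
    have hsub2 : (univ.filter fun e' => x e' = true) ⊆ insert e (univ.filter fun e' => off x e e' = true) := by
      intro e' he'
      obtain ⟨h2, h3⟩ := mem_filter.1 he'
      rw [mem_insert]
      by_cases h4 : e' = e
      · exact Or.inl h4
      · right
        refine mem_filter.2 ⟨h2, ?_⟩
        unfold off
        rwa [Function.update_of_ne h4]
    have c1 := card_le_card hsub1
    have c2 := (card_le_card hsub2).trans (card_insert_le _ _)
    have c1' : ((univ.filter fun e' => off x e e' = true).card : ℝ) ≤ (univ.filter fun e' => x e' = true).card := by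
      exact_mod_cast c1
    have c2' : ((univ.filter fun e' => x e' = true).card : ℝ) ≤
        (univ.filter fun e' => off x e e' = true).card + 1 := by
      exact_mod_cast c2
    rw [abs_le]
    constructor <;> linarith

theorem choose_pow (N t : ℕ) : (N.choose t : ℝ) ≤ (N : ℝ) ^ t / t.factorial := Nat.choose_le_pow_div t N

theorem inv_fact (y : ℝ) (hy : 0 < y) (t : ℕ) : 1 / (t.factorial : ℝ) ≤ Real.exp y / y ^ t := by
  have := Real.pow_div_factorial_le_exp y hy.le t
  rw [div_le_div_iff₀ (by positivity) (by positivity)]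
  rw [div_le_iff₀ (by positivity)] at this
  linarith

/-- the neighbours of `w` -/
noncomputable def nb {n : ℕ} (G : SimpleGraph (Fin n)) (w : Fin n) : Finset (Fin n) :=
  univ.filter (fun u => G.Adj w u)

theorem nb_le {n : ℕ} (x : Edge n → Bool) (w : Fin n) :
    (nb (ofBool x) w).card ≤ ((univ.filter fun e : Edge n => w ∈ e.1).filter fun e => x e = true).card := by
  have h1 : (nb (ofBool x) w).card ≤
      ((univ : Finset (Sym2 (Fin n))).filter fun e => e ∈ (ofBool x).edgeSet ∧ w ∈ e).card := by
    refine card_le_card_of_injOn (fun u => s(w, u)) ?_ ?_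
    · intro u hu
      rw [mem_coe] at hu ⊢
      simp only [mem_filter, mem_univ, true_and, SimpleGraph.mem_edgeSet]
      exact ⟨(mem_filter.1 hu).2, Sym2.mem_mk_left _ _⟩
    · intro u _ v _ h
      rcases Sym2.eq_iff.1 h with ⟨-, h⟩ | ⟨h1, h2⟩
      · exact h
      · rw [h2, h1]
  refine h1.trans (le_of_eq ?_)
  rw [filter_filter]
  symm
  refine card_bij (fun e _ => e.1) ?_ ?_ ?_
  · intro e he
    obtain ⟨h1, h2⟩ := (mem_filter.1 he).2
    simp only [mem_filter, mem_univ, true_and]
    exact ⟨(mem_ofBool x e).2 h2, h1⟩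
  · intro a _ b _ h
    exact Subtype.ext h
  · intro e he
    simp only [mem_filter, mem_univ, true_and] at he
    obtain ⟨h1, h2⟩ := he
    have hd : ¬ e.IsDiag := SimpleGraph.not_isDiag_of_mem_edgeSet _ h1
    exact ⟨⟨e, hd⟩, mem_filter.2 ⟨mem_univ _, h2, (mem_ofBool x ⟨e, hd⟩).1 h1⟩, rfl⟩

/-- the degrees are at most `τ log n` -/
theorem deg_whp (τ : ℝ) (hτ : 0 < τ) (η : ℝ) (hη : 0 < η) : ∃ N : ℕ, ∀ n ≥ N, ∀ p : ℝ, 0 ≤ p → p ≤ 3 / 2 / n →
    pr p (fun x : Edge n → Bool => ∃ w ∈ (univ : Finset (Fin n)), τ * Real.log n < (nb (ofBool x) w).card) ≤ η := by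
  set y : ℝ := 2 * Real.exp (2 / τ) with hy
  have hy0 : 0 < y := by positivity
  obtain ⟨N, hN⟩ := exists_nat_gt (Real.exp y / η + 2)
  refine ⟨N, fun n hn p h0 hp => ?_⟩
  have hnN : (N : ℝ) ≤ n := by exact_mod_cast hn
  have q1 : 0 < Real.exp y / η := by positivity
  have hn2 : (2 : ℝ) < n := by linarith
  have hn0 : (0 : ℝ) < n := by linarith
  have hnη : Real.exp y / η ≤ n := by linarith
  have h1 : p ≤ 1 := by
    refine hp.trans ?_
    rw [div_le_one hn0]; linarith
  have hlog : 0 < Real.log n := Real.log_pos (by linarith)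
  set t : ℕ := ⌈τ * Real.log n⌉₊ with ht
  have ht1 : τ * Real.log n ≤ t := Nat.le_ceil _
  have hterm : ∀ w ∈ (univ : Finset (Fin n)),
      pr p (fun x : Edge n → Bool => τ * Real.log n < (nb (ofBool x) w).card) ≤
      Real.exp y / (n : ℝ) ^ 2 := by
    intro w _
    calc pr p (fun x : Edge n → Bool => τ * Real.log n < (nb (ofBool x) w).card)
        ≤ pr p (fun x : Edge n → Bool => t ≤ ((univ.filter fun e : Edge n => w ∈ e.1).filter
            fun e => x e = true).card) := by
          refine pr_mono h0 h1 fun x hx => ?_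
          refine le_trans ?_ (nb_le x w)
          exact Nat.ceil_le.2 hx.le
      _ ≤ ((univ.filter fun e : Edge n => w ∈ e.1).card.choose t : ℝ) * p ^ t := pr_many h0 h1 _ _
      _ ≤ ((n : ℝ) ^ t / t.factorial) * (2 / n) ^ t := by
          have h2 : (univ.filter fun e : Edge n => w ∈ e.1).card ≤ n := by
            rw [edges_at]; omega
          have h3 : ((univ.filter fun e : Edge n => w ∈ e.1).card.choose t : ℝ) ≤ (n : ℝ) ^ t / t.factorial := by
            refine (choose_pow _ t).trans ?_
            refine div_le_div_of_nonneg_right ?_ (Nat.cast_nonneg _)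
            exact pow_le_pow_left₀ (Nat.cast_nonneg _) (by exact_mod_cast h2) _
          have h4 : p ^ t ≤ (2 / n) ^ t := by
            refine pow_le_pow_left₀ h0 (hp.trans ?_) t
            exact div_le_div_of_nonneg_right (by norm_num) hn0.le
          exact mul_le_mul h3 h4 (pow_nonneg h0 _) (by positivity)
      _ = 2 ^ t * (1 / t.factorial) := by
          rw [div_pow]; field_simp
      _ ≤ 2 ^ t * (Real.exp y / y ^ t) := mul_le_mul_of_nonneg_left (inv_fact y hy0 t) (by positivity)
      _ = Real.exp y * (Real.exp (2 / τ) ^ t)⁻¹ := by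
          rw [hy, mul_pow]; field_simp
      _ ≤ Real.exp y / (n : ℝ) ^ 2 := by
          rw [div_eq_mul_inv]
          refine mul_le_mul_of_nonneg_left ?_ (Real.exp_pos _).le
          refine inv_anti₀ (by positivity) ?_
          rw [← Real.exp_nat_mul]
          calc (n : ℝ) ^ 2 = Real.exp (2 * Real.log n) := by
                rw [show (2 : ℝ) * Real.log n = Real.log n + Real.log n by ring, Real.exp_add, Real.exp_log hn0]; ring
            _ ≤ Real.exp (t * (2 / τ)) := by
                refine Real.exp_le_exp.2 ?_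
                rw [← mul_div_assoc, le_div_iff₀ hτ]
                nlinarith
  calc _ ≤ _ := pr_exists univ h0 h1 _
    _ ≤ ∑ w : Fin n, Real.exp y / (n : ℝ) ^ 2 := sum_le_sum hterm
    _ = Real.exp y / n := by
        rw [sum_const, card_univ, Fintype.card_fin, nsmul_eq_mul]; field_simp
    _ ≤ η := by
        rw [div_le_iff₀ hη] at hnη
        rw [div_le_iff₀ hn0]; linarith

/-- the small dense sets -/
noncomputable def sd {n : ℕ} (l : ℕ) (G : SimpleGraph (Fin n)) : Finset (Finset (Fin n)) :=
  univ.filter (fun X => 1 ≤ X.card ∧ X.card ≤ l ∧ X.card ≤ ein G X)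

/-- there are few small dense sets -/
theorem sd_whp (l : ℕ) (η : ℝ) (hη : 0 < η) : ∃ N : ℕ, ∀ n ≥ N, ∀ p : ℝ, 0 ≤ p → p ≤ 3 / 2 / n →
    pr p (fun x : Edge n → Bool => Real.sqrt n ≤ (sd l (ofBool x)).card) ≤ η := by
  set K : ℝ := ∑ m ∈ Finset.Icc 1 l, (2 * (m : ℝ) ^ 2) ^ m with hK
  have hK0 : 0 ≤ K := sum_nonneg fun m _ => by positivity
  obtain ⟨N, hN⟩ := exists_nat_gt ((K / η) ^ 2 + 2)
  refine ⟨N, fun n hn p h0 hp => ?_⟩
  have hnN : (N : ℝ) ≤ n := by exact_mod_cast hn
  have hn2 : (2 : ℝ) < n := by nlinarith [sq_nonneg (K / η)]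
  have hn0 : (0 : ℝ) < n := by linarith
  have hnη : (K / η) ^ 2 ≤ n := by linarith
  have h1 : p ≤ 1 := by
    refine hp.trans ?_
    rw [div_le_one hn0]; linarith
  have hs : 0 < Real.sqrt n := Real.sqrt_pos.2 hn0
  have hmk := pr_markov h0 h1 (fun x : Edge n → Bool => Real.sqrt n ≤ (sd l (ofBool x)).card)
    (fun x => ((sd l (ofBool x)).card : ℝ)) (fun x => Nat.cast_nonneg _) _ hs (fun x hx => hx)
  refine hmk.trans ?_
  have hmean : bex p (fun x : Edge n → Bool => ((sd l (ofBool x)).card : ℝ)) ≤ K := by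
    have e1 : (fun x : Edge n → Bool => ((sd l (ofBool x)).card : ℝ)) =
        fun x => ∑ X : Finset (Fin n), (if 1 ≤ X.card ∧ X.card ≤ l ∧ X.card ≤ ein (ofBool x) X then (1 : ℝ) else 0) := by
      funext x
      simp only [sd, card_filter]
      push_cast
      rfl
    rw [e1, bex_sum]
    have e2 : ∀ X ∈ (univ : Finset (Finset (Fin n))),
        bex p (fun x : Edge n → Bool => (if 1 ≤ X.card ∧ X.card ≤ l ∧ X.card ≤ ein (ofBool x) X then (1 : ℝ) else 0)) ≤
        if 1 ≤ X.card ∧ X.card ≤ l then ((X.card : ℝ) ^ 2 * (2 / n)) ^ X.card else 0 := by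
      intro X _
      rw [pr_ite]
      by_cases hX : 1 ≤ X.card ∧ X.card ≤ l
      · rw [if_pos hX]
        calc _ ≤ pr p (fun x : Edge n → Bool => X.card ≤ ((Ein X).filter fun e => x e = true).card) := by
              refine pr_mono h0 h1 fun x hx => ?_
              rw [← ein_eq]; exact hx.2.2
          _ ≤ ((Ein X).card.choose X.card : ℝ) * p ^ X.card := pr_many h0 h1 _ _
          _ ≤ ((X.card : ℝ) ^ 2) ^ X.card * (2 / n) ^ X.card := by
              refine mul_le_mul ?_ ?_ (pow_nonneg h0 _) (by positivity)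
              · have h2 : (Ein X).card ≤ X.card ^ 2 := by
                  rw [card_Ein, sq]
                  exact (Nat.choose_le_pow X.card 2).trans (by rw [sq])
                calc ((Ein X).card.choose X.card : ℝ) ≤ ((Ein X).card : ℝ) ^ X.card := by
                      exact_mod_cast Nat.choose_le_pow _ _
                  _ ≤ _ := pow_le_pow_left₀ (Nat.cast_nonneg _) (by exact_mod_cast h2) _
              · refine pow_le_pow_left₀ h0 (hp.trans ?_) _
                exact div_le_div_of_nonneg_right (by norm_num) hn0.le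
          _ = _ := by rw [mul_pow]
      · rw [if_neg hX]
        unfold pr
        refine le_of_eq (Eq.trans ?_ (bex_const (E := Edge n) p 0))
        congr 1
        funext x
        rw [if_neg fun h => hX ⟨h.1, h.2.1⟩]
    refine (sum_le_sum e2).trans ?_
    rw [← sum_filter]
    have e3 : ∑ X ∈ (univ : Finset (Finset (Fin n))).filter (fun X => 1 ≤ X.card ∧ X.card ≤ l),
        ((X.card : ℝ) ^ 2 * (2 / n)) ^ X.card =
        ∑ m ∈ Finset.Icc 1 l, ∑ X ∈ (univ : Finset (Fin n)).powersetCard m, ((X.card : ℝ) ^ 2 * (2 / n)) ^ X.card := by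
      rw [← sum_biUnion]
      · refine sum_congr ?_ fun _ _ => rfl
        ext X
        simp only [mem_filter, mem_univ, true_and, mem_biUnion, mem_Icc, mem_powersetCard, subset_univ]
        constructor
        · intro h; exact ⟨X.card, h, rfl⟩
        · rintro ⟨m, h, rfl⟩; exact h
      · intro a _ b _ hab
        show Disjoint _ _
        rw [disjoint_left]
        intro X hX hX'
        exact hab ((mem_powersetCard.1 hX).2.symm.trans (mem_powersetCard.1 hX').2)
    rw [e3, hK]
    refine sum_le_sum fun m _ => ?_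
    rw [sum_congr rfl fun X hX => by rw [(mem_powersetCard.1 hX).2], sum_const, card_powersetCard, card_univ,
      Fintype.card_fin, nsmul_eq_mul]
    calc (n.choose m : ℝ) * ((m : ℝ) ^ 2 * (2 / n)) ^ m ≤ (n : ℝ) ^ m * ((m : ℝ) ^ 2 * (2 / n)) ^ m := by
          refine mul_le_mul_of_nonneg_right ?_ (by positivity)
          exact_mod_cast Nat.choose_le_pow _ _
      _ = (2 * (m : ℝ) ^ 2) ^ m := by
          rw [← mul_pow]
          congr 1
          field_simp
  calc bex p (fun x : Edge n → Bool => ((sd l (ofBool x)).card : ℝ)) / Real.sqrt n ≤ K / Real.sqrt n :=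
        div_le_div_of_nonneg_right hmean hs.le
    _ ≤ η := by
        rw [div_le_iff₀ hs]
        have h5 : K / η ≤ Real.sqrt n := Real.le_sqrt_of_sq_le hnη
        rw [div_le_iff₀ hη] at h5
        linarith

end Pool.Agent.J4H99.RL
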