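import Mathlib
import Pool.Agent.J4H99.RL.Sparse

/-!
# Small linear sets are sparse
-/

set_option autoImplicit false

namespace Pool.Agent.J4H99.RL

open Finset Pool.Agent.R980
open scoped Classical

theorem le_two_pow (m : ℕ) (hm : 1 ≤ m) : m ≤ 2 ^ (m - 1) := by
  obtain ⟨k, rfl⟩ : ∃ k, m = k + 1 := ⟨m - 1, by omega⟩
  rw [Nat.add_sub_cancel]
  exact Nat.lt_two_pow_self

/-- one size -/
theorem one_size {n m t : ℕ} (hm : 1 ≤ m) (hmn : m ≤ n) (δ α : ℝ) (hδ : 0 < δ) (hδ1 : δ ≤ 1)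
    (hα : Real.exp 2 * α ^ δ ≤ 1 / 4) (hmα : (m : ℝ) ≤ α * n) (ht : (1 + δ) * m ≤ t) {p : ℝ} (h0 : 0 ≤ p)
    (hp : p ≤ 3 / 2 / n) :
    (n.choose m : ℝ) * ((m.choose 2).choose t * p ^ t) ≤ Real.exp 2 * (n : ℝ) ^ (-δ) * (1 / 2) ^ (m - 1) := by
  have hm0 : (0 : ℝ) < m := by exact_mod_cast hm
  have hn0 : (0 : ℝ) < n := by exact_mod_cast (show 0 < n by omega)
  set z : ℝ := (m : ℝ) / n with hz
  have hz0 : 0 < z := by positivity
  have hz1 : z ≤ 1 := by rw [hz, div_le_one hn0]; exact_mod_cast hmn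
  have hzα : z ≤ α := by rw [hz, div_le_iff₀ hn0]; exact hmα
  have hmt : m ≤ t := by
    have : (m : ℝ) ≤ t := by nlinarith
    exact_mod_cast this
  have e1 : (n.choose m : ℝ) ≤ (Real.exp 1 / z) ^ m := by
    calc (n.choose m : ℝ) ≤ (n : ℝ) ^ m * (1 / m.factorial) := by
          rw [mul_one_div]; exact choose_pow n m
      _ ≤ (n : ℝ) ^ m * (Real.exp m / (m : ℝ) ^ m) :=
          mul_le_mul_of_nonneg_left (inv_fact m hm0 m) (by positivity)
      _ = (Real.exp 1 / z) ^ m := by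
          have : Real.exp (m : ℝ) = Real.exp 1 ^ m := by rw [← Real.exp_nat_mul, mul_one]
          rw [this, hz, div_pow, div_pow]
          field_simp
  have e2 : ((m.choose 2).choose t : ℝ) * p ^ t ≤ Real.exp 1 ^ m * z ^ t := by
    calc ((m.choose 2).choose t : ℝ) * p ^ t
        ≤ ((m : ℝ) ^ 2 / 2) ^ t * (1 / t.factorial) * (2 / n) ^ t := by
          refine mul_le_mul ?_ ?_ (pow_nonneg h0 _) (by positivity)
          · refine (choose_pow _ t).trans ?_
            rw [mul_one_div]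
            refine div_le_div_of_nonneg_right ?_ (Nat.cast_nonneg _)
            refine pow_le_pow_left₀ (Nat.cast_nonneg _) ?_ _
            rw [Nat.cast_choose_two]
            nlinarith
          · refine pow_le_pow_left₀ h0 (hp.trans ?_) _
            exact div_le_div_of_nonneg_right (by norm_num) hn0.le
      _ ≤ ((m : ℝ) ^ 2 / 2) ^ t * (Real.exp m / (m : ℝ) ^ t) * (2 / n) ^ t := by
          refine mul_le_mul_of_nonneg_right ?_ (by positivity)
          exact mul_le_mul_of_nonneg_left (inv_fact m hm0 t) (by positivity)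
      _ = Real.exp 1 ^ m * z ^ t := by
          have : Real.exp (m : ℝ) = Real.exp 1 ^ m := by rw [← Real.exp_nat_mul, mul_one]
          rw [this, hz]
          have h3 : ((m : ℝ) ^ 2 / 2) ^ t * (Real.exp 1 ^ m / (m : ℝ) ^ t) * (2 / n) ^ t =
              Real.exp 1 ^ m * (((m : ℝ) ^ 2 / 2) * (1 / m) * (2 / n)) ^ t := by
            rw [mul_pow, mul_pow, one_div, inv_pow]; ring
          rw [h3]
          congr 2
          field_simp
  have e3 : z ^ t ≤ z ^ m * (z ^ δ) ^ m := by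
    have h4 : z ^ t = z ^ (t : ℝ) := (Real.rpow_natCast _ _).symm
    have h5 : z ^ m * (z ^ δ) ^ m = z ^ ((1 + δ) * m) := by
      rw [← Real.rpow_natCast z m, ← Real.rpow_natCast (z ^ δ) m, ← Real.rpow_mul hz0.le, ← Real.rpow_add hz0]
      congr 1; ring
    rw [h4, h5]
    exact Real.rpow_le_rpow_of_exponent_ge hz0 hz1 ht
  have hzδ : 0 < z ^ δ := Real.rpow_pos_of_pos hz0 _
  have e4 : (n.choose m : ℝ) * ((m.choose 2).choose t * p ^ t) ≤ (Real.exp 2 * z ^ δ) ^ m := by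
    calc _ ≤ (Real.exp 1 / z) ^ m * (Real.exp 1 ^ m * (z ^ m * (z ^ δ) ^ m)) := by
          refine mul_le_mul e1 (e2.trans ?_) (mul_nonneg (Nat.cast_nonneg _) (pow_nonneg h0 _)) (by positivity)
          exact mul_le_mul_of_nonneg_left e3 (by positivity)
      _ = (Real.exp 2 * z ^ δ) ^ m := by
          have : Real.exp 2 = Real.exp 1 * Real.exp 1 := by rw [← Real.exp_add]; norm_num
          rw [this, ← mul_pow, ← mul_pow, ← mul_pow]
          congr 1
          field_simp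
  have e5 : Real.exp 2 * z ^ δ ≤ 1 / 4 :=
    (mul_le_mul_of_nonneg_left (Real.rpow_le_rpow hz0.le hzα hδ.le) (Real.exp_pos _).le).trans hα
  have e6 : z ^ δ ≤ m * (n : ℝ) ^ (-δ) := by
    rw [hz, Real.div_rpow hm0.le hn0.le, Real.rpow_neg hn0.le, div_eq_mul_inv]
    refine mul_le_mul_of_nonneg_right ?_ (by positivity)
    calc (m : ℝ) ^ δ ≤ (m : ℝ) ^ (1 : ℝ) := Real.rpow_le_rpow_of_exponent_le (by exact_mod_cast hm) hδ1
      _ = m := Real.rpow_one _
  obtain ⟨k, rfl⟩ : ∃ k, m = k + 1 := ⟨m - 1, by omega⟩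
  rw [Nat.add_sub_cancel]
  calc _ ≤ (Real.exp 2 * z ^ δ) ^ (k + 1) := e4
    _ = (Real.exp 2 * z ^ δ) ^ k * (Real.exp 2 * z ^ δ) := pow_succ _ _
    _ ≤ (1 / 4) ^ k * (Real.exp 2 * (((k + 1 : ℕ) : ℝ) * (n : ℝ) ^ (-δ))) := by
        refine mul_le_mul (pow_le_pow_left₀ (by positivity) e5 _) ?_ (by positivity) (by positivity)
        exact mul_le_mul_of_nonneg_left e6 (Real.exp_pos _).le
    _ ≤ (1 / 4) ^ k * (Real.exp 2 * ((2 : ℝ) ^ k * (n : ℝ) ^ (-δ))) := by
        refine mul_le_mul_of_nonneg_left ?_ (by positivity)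
        refine mul_le_mul_of_nonneg_left ?_ (Real.exp_pos _).le
        refine mul_le_mul_of_nonneg_right ?_ (by positivity)
        have := le_two_pow (k + 1) (by omega)
        rw [Nat.add_sub_cancel] at this
        exact_mod_cast this
    _ = Real.exp 2 * (n : ℝ) ^ (-δ) * (1 / 2) ^ k := by
        have : (1 / 4 : ℝ) ^ k * 2 ^ k = (1 / 2) ^ k := by rw [← mul_pow]; norm_num
        rw [← this]; ring

theorem geom_le (M : ℕ) : ∑ m ∈ Finset.Icc 1 M, (1 / 2 : ℝ) ^ (m - 1) ≤ 2 := by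
  have h : ∀ M : ℕ, ∑ m ∈ Finset.Icc 1 M, (1 / 2 : ℝ) ^ (m - 1) = 2 - 2 * (1 / 2) ^ M := by
    intro M
    induction M with
    | zero => simp
    | succ M ih =>
      rw [sum_Icc_succ_top (by omega), ih, Nat.add_sub_cancel, pow_succ]; ring
  rw [h]
  have : (0 : ℝ) < (1 / 2) ^ M := by positivity
  linarith

/-- small linear sets are sparse, with high probability -/
theorem sparse_whp (δ : ℝ) (hδ : 0 < δ) (hδ1 : δ ≤ 1) : ∃ α : ℝ, 0 < α ∧ α ≤ 1 ∧ ∀ η : ℝ, 0 < η →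
    ∃ N : ℕ, ∀ n ≥ N, ∀ p : ℝ, 0 ≤ p → p ≤ 3 / 2 / n →
    pr p (fun x : Edge n → Bool => ∃ X ∈ (univ : Finset (Finset (Fin n))),
      (1 ≤ X.card ∧ (X.card : ℝ) ≤ α * n) ∧ (1 + δ) * X.card < ein (ofBool x) X) ≤ η := by
  refine ⟨(1 / (4 * Real.exp 2)) ^ (1 / δ), by positivity, ?_, fun η hη => ?_⟩
  · refine Real.rpow_le_one (by positivity) ?_ (by positivity)
    rw [div_le_one (by positivity)]
    have := Real.add_one_le_exp (2 : ℝ)
    linarith
  have hα : Real.exp 2 * ((1 / (4 * Real.exp 2)) ^ (1 / δ)) ^ δ ≤ 1 / 4 := by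
    rw [← Real.rpow_mul (by positivity), one_div_mul_cancel hδ.ne', Real.rpow_one]
    apply le_of_eq
    have := (Real.exp_pos 2).ne'
    field_simp
  set α : ℝ := (1 / (4 * Real.exp 2)) ^ (1 / δ) with hα'
  have hlim : Filter.Tendsto (fun n : ℕ => (n : ℝ) ^ (-δ)) Filter.atTop (nhds 0) :=
    (tendsto_rpow_neg_atTop hδ).comp tendsto_natCast_atTop_atTop
  have hev : ∀ᶠ n : ℕ in Filter.atTop, (n : ℝ) ^ (-δ) < η / (2 * Real.exp 2) :=
    hlim.eventually (gt_mem_nhds (by positivity))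
  obtain ⟨N, hN⟩ := Filter.eventually_atTop.1 hev
  refine ⟨max N 2, fun n hn p h0 hp => ?_⟩
  have hnN : n ≥ N := (le_max_left _ _).trans hn
  have hn2 : 2 ≤ n := (le_max_right _ _).trans hn
  have hn0 : (0 : ℝ) < n := by exact_mod_cast (show 0 < n by omega)
  have h1 : p ≤ 1 := by
    refine hp.trans ?_
    rw [div_le_one hn0]
    have : (2 : ℝ) ≤ n := by exact_mod_cast hn2
    linarith
  have hstep : ∀ X ∈ (univ : Finset (Finset (Fin n))), pr p (fun x : Edge n → Bool =>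
      (1 ≤ X.card ∧ (X.card : ℝ) ≤ α * n) ∧ (1 + δ) * X.card < ein (ofBool x) X) ≤
      if 1 ≤ X.card ∧ (X.card : ℝ) ≤ α * n then
        ((X.card.choose 2).choose ⌈(1 + δ) * X.card⌉₊ : ℝ) * p ^ ⌈(1 + δ) * X.card⌉₊ else 0 := by
    intro X _
    by_cases hX : 1 ≤ X.card ∧ (X.card : ℝ) ≤ α * n
    · rw [if_pos hX, ← card_Ein]
      refine le_trans (pr_mono h0 h1 fun x hx => ?_) (pr_many h0 h1 (Ein X) _)
      rw [← ein_eq]
      exact Nat.ceil_le.2 hx.2.le
    · rw [if_neg hX]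
      refine le_of_eq (Eq.trans ?_ (bex_const (E := Edge n) p 0))
      unfold pr
      congr 1
      funext x
      rw [if_neg fun h => hX h.1]
  refine (pr_exists _ h0 h1 _).trans ((sum_le_sum hstep).trans ?_)
  rw [← sum_filter]
  have hsub : (univ : Finset (Finset (Fin n))).filter (fun X => 1 ≤ X.card ∧ (X.card : ℝ) ≤ α * n) ⊆
      ((Finset.Icc 1 n).filter (fun m : ℕ => (m : ℝ) ≤ α * n)).biUnion
        (fun m => (univ : Finset (Fin n)).powersetCard m) := by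
    intro X hX
    obtain ⟨h2, h3⟩ := (mem_filter.1 hX).2
    rw [mem_biUnion]
    refine ⟨X.card, mem_filter.2 ⟨mem_Icc.2 ⟨h2, ?_⟩, h3⟩, mem_powersetCard.2 ⟨subset_univ _, rfl⟩⟩
    have := card_le_univ X
    rwa [Fintype.card_fin] at this
  have hnn : ∀ X : Finset (Fin n), 0 ≤ ((X.card.choose 2).choose ⌈(1 + δ) * X.card⌉₊ : ℝ) *
      p ^ ⌈(1 + δ) * X.card⌉₊ := fun X => mul_nonneg (Nat.cast_nonneg _) (pow_nonneg h0 _)
  calc _ ≤ ∑ X ∈ ((Finset.Icc 1 n).filter (fun m : ℕ => (m : ℝ) ≤ α * n)).biUnion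
        (fun m => (univ : Finset (Fin n)).powersetCard m),
        ((X.card.choose 2).choose ⌈(1 + δ) * X.card⌉₊ : ℝ) * p ^ ⌈(1 + δ) * X.card⌉₊ :=
        sum_le_sum_of_subset_of_nonneg hsub fun X _ _ => hnn X
    _ = ∑ m ∈ (Finset.Icc 1 n).filter (fun m : ℕ => (m : ℝ) ≤ α * n),
        ∑ X ∈ (univ : Finset (Fin n)).powersetCard m,
        ((X.card.choose 2).choose ⌈(1 + δ) * X.card⌉₊ : ℝ) * p ^ ⌈(1 + δ) * X.card⌉₊ := by
        refine sum_biUnion ?_
        intro a _ b _ hab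
        show Disjoint _ _
        rw [disjoint_left]
        intro X hX hX'
        exact hab ((mem_powersetCard.1 hX).2.symm.trans (mem_powersetCard.1 hX').2)
    _ ≤ ∑ m ∈ (Finset.Icc 1 n).filter (fun m : ℕ => (m : ℝ) ≤ α * n),
        Real.exp 2 * (n : ℝ) ^ (-δ) * (1 / 2) ^ (m - 1) := by
        refine sum_le_sum fun m hm => ?_
        obtain ⟨h2, h3⟩ := mem_filter.1 hm
        obtain ⟨h4, h5⟩ := mem_Icc.1 h2
        rw [sum_congr rfl fun X hX => by rw [(mem_powersetCard.1 hX).2], sum_const, card_powersetCard, card_univ,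
          Fintype.card_fin, nsmul_eq_mul]
        exact one_size h4 h5 δ α hδ hδ1 hα h3 (Nat.le_ceil _) h0 hp
    _ ≤ ∑ m ∈ Finset.Icc 1 n, Real.exp 2 * (n : ℝ) ^ (-δ) * (1 / 2) ^ (m - 1) :=
        sum_le_sum_of_subset_of_nonneg (filter_subset _ _) fun _ _ _ => by positivity
    _ = Real.exp 2 * (n : ℝ) ^ (-δ) * ∑ m ∈ Finset.Icc 1 n, (1 / 2 : ℝ) ^ (m - 1) := by rw [mul_sum]
    _ ≤ Real.exp 2 * (n : ℝ) ^ (-δ) * 2 := mul_le_mul_of_nonneg_left (geom_le n) (by positivity)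
    _ ≤ η := by
        have h6 := (hN n hnN).le
        rw [le_div_iff₀ (by positivity)] at h6
        linarith

end Pool.Agent.J4H99.RL
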