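import Mathlib
import Pool.Agent.J4H99.RL.R2
import Pool.Agent.J4H99.RL.PartA

/-!
# Selection of a minimal dense set
-/

set_option autoImplicit false

namespace Pool.Agent.J4H99.RL

open Finset Pool.Agent.R980
open scoped Classical

/-- the edges inside `X` -/
noncomputable def eset {α : Type} [Fintype α] (G : SimpleGraph α) (X : Finset α) : Finset (Sym2 α) :=
  (univ : Finset (Sym2 α)).filter (fun e => e ∈ G.edgeSet ∧ ∀ v ∈ e, v ∈ X)

theorem ein_eset {α : Type} [Fintype α] (G : SimpleGraph α) (X : Finset α) : ein G X = (eset G X).card := rfl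

theorem mem_eset {α : Type} [Fintype α] {G : SimpleGraph α} {X : Finset α} {e : Sym2 α} :
    e ∈ eset G X ↔ e ∈ G.edgeSet ∧ ∀ v ∈ e, v ∈ X := by
  simp [eset]

theorem ein_sdiff {n : ℕ} (G : SimpleGraph (Fin n)) (B T : Finset (Fin n)) :
    ein G B ≤ ein G (B \ T) + ∑ w ∈ T, (nb G w).card := by
  have hsub : eset G B ⊆ eset G (B \ T) ∪ T.biUnion (fun w => (nb G w).image (fun u => s(w, u))) := by
    intro e he
    obtain ⟨h1, h2⟩ := mem_eset.1 he
    rw [mem_union]
    by_cases h3 : ∃ v ∈ e, v ∈ T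
    · right
      obtain ⟨v, hv, hvT⟩ := h3
      obtain ⟨u, rfl⟩ := hv
      rw [mem_biUnion]
      refine ⟨v, hvT, mem_image.2 ⟨u, mem_filter.2 ⟨mem_univ _, h1⟩, rfl⟩⟩
    · left
      push Not at h3
      exact mem_eset.2 ⟨h1, fun v hv => mem_sdiff.2 ⟨h2 v hv, h3 v hv⟩⟩
  rw [ein_eset, ein_eset]
  calc _ ≤ _ := card_le_card hsub
    _ ≤ _ := card_union_le _ _
    _ ≤ _ := Nat.add_le_add_left (card_biUnion_le.trans (sum_le_sum fun w _ => card_image_le)) _

theorem ein_le_ecard {n : ℕ} (x : Edge n → Bool) (X : Finset (Fin n)) : ein (ofBool x) X ≤ ecard x := by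
  rw [ein_eq]
  exact card_le_card fun e he => mem_filter.2 ⟨mem_univ _, (mem_filter.1 he).2⟩

theorem ein_one {n : ℕ} (x : Edge n → Bool) (X : Finset (Fin n)) (hX : X.card = 1) : ein (ofBool x) X = 0 := by
  rw [ein_eq]
  have h1 : (Ein X).card = 0 := by rw [card_Ein, hX]; rfl
  rw [card_eq_zero] at h1
  rw [h1]; rfl

/-- the conclusion of the selection -/
structure Good {n : ℕ} (G : SimpleGraph (Fin n)) (α c2 κ : ℝ) (W : Finset (Fin n)) : Prop where
  two : 2 ≤ W.card
  large : α * n < W.card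
  small : (n : ℝ) / 10 ≤ (n : ℝ) - W.card
  big : ((W.card : ℝ) - 1) * (c2 + κ * W.card) ≤ ein G W
  sub : ∀ X ⊆ W, X.Nonempty → X ≠ W → (ein G X : ℝ) ≤ ((X.card : ℝ) - 1) * (c2 + κ * X.card)
  edges : ein G W ≤ n

theorem exists_W {n : ℕ} (x : Edge n → Bool) (ρ δ α D : ℝ) (l : ℕ) (hδ : 0 < δ) (hδ1 : δ ≤ 1)
    (hl : 16 / δ ≤ l) (hn : 10 ≤ n) (hn1 : (l : ℝ) * Real.sqrt n * D ≤ δ * (ρ * n))
    (hn2 : (l : ℝ) * Real.sqrt n + 2 ≤ ρ * n) (hD : 0 ≤ D)
    (h1 : Dense ρ δ x) (h2 : ∀ w : Fin n, ((nb (ofBool x) w).card : ℝ) ≤ D)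
    (h3 : ((sd l (ofBool x)).card : ℝ) < Real.sqrt n)
    (h4 : ∀ X : Finset (Fin n), 1 ≤ X.card → (X.card : ℝ) ≤ α * n → (ein (ofBool x) X : ℝ) ≤ (1 + δ / 8) * X.card)
    (h5 : (ecard x : ℝ) ≤ 4 / 5 * n) :
    ∃ W, Good (ofBool x) α (1 + δ / 4) (δ / 4 / n) W := by
  set G := ofBool x with hG
  obtain ⟨B, hB1, hB2⟩ := h1
  set T := (sd l G).biUnion (fun X => X) with hT
  have hn0 : (0 : ℝ) < n := by exact_mod_cast (show 0 < n by omega)
  have hn10 : (10 : ℝ) ≤ n := by exact_mod_cast hn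
  have hTc : (T.card : ℝ) ≤ l * Real.sqrt n := by
    have h6 : T.card ≤ (sd l G).card * l := by
      calc T.card ≤ ∑ X ∈ sd l G, X.card := card_biUnion_le
        _ ≤ ∑ X ∈ sd l G, l := sum_le_sum fun X hX => (mem_filter.1 hX).2.2.1
        _ = _ := by rw [sum_const, smul_eq_mul]
    have h7 : (T.card : ℝ) ≤ (sd l G).card * l := by exact_mod_cast h6
    have h8 : (0 : ℝ) ≤ l := Nat.cast_nonneg _
    nlinarith
  set W0 := B \ T with hW0
  have hW0c : (B.card : ℝ) ≤ W0.card + T.card := by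
    have := card_le_card_sdiff_add_card (s := B) (t := T)
    exact_mod_cast this
  have hW0B : (W0.card : ℝ) ≤ B.card := by exact_mod_cast card_le_card (sdiff_subset)
  have hW0e : (ein G B : ℝ) ≤ ein G W0 + T.card * D := by
    have h6 := ein_sdiff G B T
    have h7 : (ein G B : ℝ) ≤ ein G W0 + ∑ w ∈ T, ((nb G w).card : ℝ) := by exact_mod_cast h6
    refine h7.trans (add_le_add_right ?_ _)
    calc ∑ w ∈ T, ((nb G w).card : ℝ) ≤ ∑ w ∈ T, D := sum_le_sum fun w _ => h2 w
      _ = T.card * D := by rw [sum_const, nsmul_eq_mul]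
  have hTD : (T.card : ℝ) * D ≤ δ * (ρ * n) := (mul_le_mul_of_nonneg_right hTc hD).trans hn1
  have hW0two : (2 : ℝ) ≤ W0.card := by linarith
  have hdens : (1 + δ) * (W0.card : ℝ) ≤ ein G W0 := by
    have : δ * (ρ * n) ≤ δ * B.card := mul_le_mul_of_nonneg_left hB1 hδ.le
    nlinarith
  -- the minimal set
  set P : Finset (Fin n) → Prop := fun W => 2 ≤ W.card ∧
    ((W.card : ℝ) - 1) * (1 + δ / 4 + δ / 4 / n * W.card) ≤ ein G W with hP
  have hcn : ∀ W : Finset (Fin n), (W.card : ℝ) ≤ n := fun W => by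
    have := card_le_univ W
    rw [Fintype.card_fin] at this
    exact_mod_cast this
  have hcoef : ∀ W : Finset (Fin n), δ / 4 / n * W.card ≤ δ / 4 := fun W => by
    rw [div_mul_eq_mul_div, div_le_iff₀ hn0]
    exact mul_le_mul_of_nonneg_left (hcn W) (by positivity)
  have hcoef0 : ∀ W : Finset (Fin n), 0 ≤ δ / 4 / n * W.card := fun W => by positivity
  have hPW0 : P W0 := by
    refine ⟨by exact_mod_cast hW0two, ?_⟩
    refine le_trans ?_ hdens
    have e1 := hcoef W0
    have e2 := hcoef0 W0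
    nlinarith
  obtain ⟨W, hW, hmin⟩ := exists_min_image (W0.powerset.filter P) (fun W => W.card)
    ⟨W0, mem_filter.2 ⟨mem_powerset_self _, hPW0⟩⟩
  obtain ⟨hWs, hW2, hWe⟩ := mem_filter.1 hW
  rw [mem_powerset] at hWs
  have hW2' : (2 : ℝ) ≤ W.card := by exact_mod_cast hW2
  have hsubW : ∀ X ⊆ W, X.Nonempty → X ≠ W →
      (ein G X : ℝ) ≤ ((X.card : ℝ) - 1) * (1 + δ / 4 + δ / 4 / n * X.card) := by
    intro X hX hXne hXW
    have hpos := card_pos.2 hXne
    by_cases hX1 : X.card = 1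
    · rw [hG, ein_one x X hX1, hX1]; simp
    · by_contra hno
      push Not at hno
      have h6 := hmin X (mem_filter.2 ⟨mem_powerset.2 (hX.trans hWs), by omega, hno.le⟩)
      have h7 := card_lt_card (Finset.ssubset_iff_subset_ne.2 ⟨hX, hXW⟩)
      omega
  have hle1 : (W.card : ℝ) - 1 ≤ ein G W := by
    refine le_trans ?_ hWe
    have e2 := hcoef0 W
    nlinarith
  refine ⟨W, hW2, ?_, ?_, hWe, hsubW, ?_⟩
  · by_contra hno
    push Not at hno
    by_cases hWl : W.card ≤ l
    · have hns : W ∉ sd l G := by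
        intro h
        obtain ⟨w, hw⟩ : W.Nonempty := card_pos.1 (by omega)
        have := hWs hw
        rw [hW0, mem_sdiff] at this
        exact this.2 (mem_biUnion.2 ⟨W, h, hw⟩)
      have h6 : ein G W < W.card := by
        by_contra h7
        push Not at h7
        exact hns (mem_filter.2 ⟨mem_univ _, by omega, hWl, h7⟩)
      have h8 : (ein G W : ℝ) + 1 ≤ W.card := by exact_mod_cast h6
      have e2 := hcoef0 W
      have h9 : 0 < ((W.card : ℝ) - 1) * (δ / 4) := by
        apply mul_pos <;> linarith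
      have h10 : 0 ≤ ((W.card : ℝ) - 1) * (δ / 4 / n * W.card) := mul_nonneg (by linarith) e2
      linarith
    · push Not at hWl
      have h6 := h4 W (by omega) hno
      have h7 : (l : ℝ) < W.card := by exact_mod_cast hWl
      have e2 := hcoef0 W
      have h8 : 16 / δ < W.card := lt_of_le_of_lt hl h7
      rw [div_lt_iff₀ hδ] at h8
      have h10 : 0 ≤ ((W.card : ℝ) - 1) * (δ / 4 / n * W.card) := mul_nonneg (by linarith) e2
      nlinarith
  · have h6 : (ein G W : ℝ) ≤ ecard x := by exact_mod_cast ein_le_ecard x W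
    linarith
  · have h6 : (ein G W : ℝ) ≤ ecard x := by exact_mod_cast ein_le_ecard x W
    have h7 : (ein G W : ℝ) ≤ n := by linarith
    exact_mod_cast h7

theorem ein_ind {n : ℕ} (G : SimpleGraph (Fin n)) (W : Finset (Fin n)) (X : Finset {w // w ∈ W}) :
    ein (ind G W) X = ein G (X.map (Function.Embedding.subtype fun w => w ∈ W)) := by
  unfold ein
  refine card_bij (fun e _ => e.map Subtype.val) ?_ ?_ ?_
  · intro e he
    simp only [mem_filter, mem_univ, true_and] at he ⊢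
    obtain ⟨h1, h2⟩ := he
    induction e with
    | _ u v =>
    rw [Sym2.map_mk]
    refine ⟨h1, ?_⟩
    intro w hw
    rcases Sym2.mem_iff.1 hw with rfl | rfl
    · exact mem_map.2 ⟨u, h2 u (Sym2.mem_mk_left _ _), rfl⟩
    · exact mem_map.2 ⟨v, h2 v (Sym2.mem_mk_right _ _), rfl⟩
  · intro a _ b _ h
    exact Sym2.map.injective Subtype.val_injective h
  · intro e he
    simp only [mem_filter, mem_univ, true_and] at he
    obtain ⟨h1, h2⟩ := he
    induction e with
    | _ u v =>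
    obtain ⟨u', hu', rfl⟩ := mem_map.1 (h2 u (Sym2.mem_mk_left _ _))
    obtain ⟨v', hv', rfl⟩ := mem_map.1 (h2 v (Sym2.mem_mk_right _ _))
    refine ⟨s(u', v'), ?_, rfl⟩
    simp only [mem_filter, mem_univ, true_and]
    refine ⟨h1, ?_⟩
    intro w hw
    rcases Sym2.mem_iff.1 hw with rfl | rfl
    · exact hu'
    · exact hv'

/-- the permutation bound for a good graph -/
theorem perm_bound {n : ℕ} (x : Fin n → ℝ) (hx : Function.Injective x) (G : SimpleGraph (Fin n))
    (α δ : ℝ) (hδ : 0 < δ) (hδ1 : δ ≤ 1) (hn : 10 ≤ n) (hα : 4 ≤ α * n) (Δ : ℕ) (hΔ : ∀ w, (nb G w).card ≤ Δ)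
    (W : Finset (Fin n)) (hW : Good G α (1 + δ / 4) (δ / 4 / n) W) :
    (((univ : Finset (Equiv.Perm (Fin n))).filter (fun σ =>
      ¬ ∃ U : Finset (Fin n), α / 2 * n ≤ U.card ∧ Rec (fun i => x (σ i)) G U)).card : ℝ) ≤
    n.factorial * (2 ^ n * ((n : ℝ) / 10) ^ (-(δ / 4 / n * ((W.card : ℝ) / 4) * ((W.card : ℝ) - 1) / 2)) +
      2 * tau Δ W.card ((n : ℝ) / 10) (δ / 4 / n)) := by
  have hn0 : (0 : ℝ) < n := by exact_mod_cast (show 0 < n by omega)
  have hn10 : (10 : ℝ) ≤ n := by exact_mod_cast hn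
  have hmapu : (univ : Finset {w // w ∈ W}).map (Function.Embedding.subtype fun w => w ∈ W) = W := by
    ext w
    simp
  have hWn : (W.card : ℝ) ≤ n := by
    have := card_le_univ W
    rw [Fintype.card_fin] at this
    exact_mod_cast this
  have hW4 : 4 ≤ W.card := by
    have : (4 : ℝ) < W.card := lt_of_le_of_lt hα hW.large
    exact_mod_cast this.le
  have hΔ' : ∀ w, (univ.filter (fun u => (ind G W).Adj w u)).card ≤ Δ := by
    intro w
    refine le_trans ?_ (hΔ w.1)
    refine card_le_card_of_injOn (fun u => u.1) ?_ ?_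
    · intro u hu
      rw [mem_coe] at hu ⊢
      exact mem_filter.2 ⟨mem_univ _, (mem_filter.1 hu).2⟩
    · intro u _ v _ h
      exact Subtype.ext h
  have h := partA x hx G W hW4 ((n : ℝ) / 10) (by rw [le_div_iff₀ (by norm_num)]; linarith) hW.small
    (1 + δ / 4) (δ / 4 / n) (by positivity) (by positivity) ?_ ?_ ?_ hΔ'
  · rw [ein_ind, hmapu] at h
    refine le_trans ?_ (h.trans ?_)
    · have : ((univ : Finset (Equiv.Perm (Fin n))).filter (fun σ =>
          ¬ ∃ U : Finset (Fin n), α / 2 * n ≤ U.card ∧ Rec (fun i => x (σ i)) G U)).card ≤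
          ((univ : Finset (Equiv.Perm (Fin n))).filter (fun σ =>
          ¬ ∃ U : Finset (Fin n), W.card ≤ 2 * U.card ∧ Rec (fun i => x (σ i)) G U)).card := by
        refine card_le_card fun σ hσ => ?_
        refine mem_filter.2 ⟨mem_univ _, fun hU => (mem_filter.1 hσ).2 ?_⟩
        obtain ⟨U, hU1, hU2⟩ := hU
        refine ⟨U, ?_, hU2⟩
        have h6 : (W.card : ℝ) ≤ 2 * U.card := by exact_mod_cast hU1
        have h7 := hW.large
        linarith
      exact_mod_cast this
    · refine mul_le_mul_of_nonneg_left ?_ (Nat.cast_nonneg _)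
      refine add_le_add_left ?_ _
      refine mul_le_mul_of_nonneg_right ?_ (Real.rpow_nonneg (by positivity) _)
      exact pow_le_pow_right₀ (by norm_num) hW.edges
  · intro X hX hXu
    rw [ein_ind]
    have h8 := hW.sub (X.map (Function.Embedding.subtype fun w => w ∈ W)) ?_ ?_ ?_
    · rwa [card_map] at h8
    · intro w hw
      obtain ⟨w', _, rfl⟩ := mem_map.1 hw
      exact w'.2
    · exact hX.map
    · intro h9
      apply hXu
      exact map_injective _ (h9.trans hmapu.symm)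
  · rw [ein_ind, hmapu]
    exact hW.big
  · have : δ / 4 / n * W.card ≤ δ / 4 := by
      rw [div_mul_eq_mul_div, div_le_iff₀ hn0]
      exact mul_le_mul_of_nonneg_left hWn (by positivity)
    linarith

end Pool.Agent.J4H99.RL
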