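import Mathlib
import Pool.Agent.J4H99.RL.Sel

/-!
# Numerical estimates
-/

set_option autoImplicit false

namespace Pool.Agent.J4H99.RL

open Finset Filter
open scoped Classical

theorem num1 (a : ℝ) (ha : 0 < a) (η : ℝ) (hη : 0 < η) : ∃ N : ℕ, ∀ n ≥ N,
    (2 : ℝ) ^ n * ((n : ℝ) / 10) ^ (-(a * n)) ≤ η := by
  have h1 : Tendsto (fun n : ℕ => ((n : ℝ) / 10) ^ a) atTop atTop :=
    (tendsto_rpow_atTop ha).comp (tendsto_natCast_atTop_atTop.atTop_div_const (by norm_num))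
  have h2 : ∀ᶠ n : ℕ in atTop, 4 ≤ ((n : ℝ) / 10) ^ a := h1.eventually_ge_atTop 4
  have h3 : Tendsto (fun n : ℕ => (1 / 2 : ℝ) ^ n) atTop (nhds 0) :=
    tendsto_pow_atTop_nhds_zero_of_lt_one (by norm_num) (by norm_num)
  have h4 : ∀ᶠ n : ℕ in atTop, (1 / 2 : ℝ) ^ n < η := h3.eventually (gt_mem_nhds hη)
  obtain ⟨N, hN⟩ := eventually_atTop.1 (h2.and h4)
  refine ⟨max N 1, fun n hn => ?_⟩
  obtain ⟨h5, h6⟩ := hN n ((le_max_left _ _).trans hn)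
  have hn0 : (0 : ℝ) < n := by exact_mod_cast (show 0 < n from (le_max_right _ _).trans hn)
  have hq : 0 < (n : ℝ) / 10 := by positivity
  have e1 : ((n : ℝ) / 10) ^ (-(a * n)) = ((((n : ℝ) / 10) ^ a) ^ n)⁻¹ := by
    rw [Real.rpow_neg hq.le, Real.rpow_mul hq.le, Real.rpow_natCast]
  rw [e1, ← inv_pow, ← mul_pow]
  refine le_trans (pow_le_pow_left₀ (by positivity) ?_ n) h6.le
  rw [← div_eq_mul_inv, div_le_iff₀ (by linarith)]
  linarith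

theorem num2 (b : ℝ) (hb : 0 < b) : ∃ N : ℕ, ∀ n ≥ N, ∀ Δ : ℕ, (Δ : ℝ) ≤ b / 12 * Real.log n →
    (8 : ℝ) ^ Δ * ((n : ℝ) / 10) ^ (-(b / 2)) ≤ 1 / 2 := by
  have h1 : Tendsto (fun n : ℕ => (n : ℝ) ^ (-(b / 4))) atTop (nhds 0) :=
    (tendsto_rpow_neg_atTop (by positivity : 0 < b / 4)).comp tendsto_natCast_atTop_atTop
  have h2 : ∀ᶠ n : ℕ in atTop, (n : ℝ) ^ (-(b / 4)) < 1 / 2 * (10 : ℝ) ^ (-(b / 2)) :=
    h1.eventually (gt_mem_nhds (by positivity))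
  obtain ⟨N, hN⟩ := eventually_atTop.1 h2
  refine ⟨max N 1, fun n hn Δ hΔ => ?_⟩
  have h3 := hN n ((le_max_left _ _).trans hn)
  have hn0 : (0 : ℝ) < n := by exact_mod_cast (show 0 < n from (le_max_right _ _).trans hn)
  have e1 : (8 : ℝ) ^ Δ ≤ (n : ℝ) ^ (b / 4) := by
    have h8 : (8 : ℝ) ≤ Real.exp 3 := by
      have h9 : (2 : ℝ) ≤ Real.exp 1 := by
        have := Real.add_one_le_exp (1 : ℝ)
        linarith
      calc (8 : ℝ) = 2 ^ 3 := by norm_num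
        _ ≤ Real.exp 1 ^ 3 := pow_le_pow_left₀ (by norm_num) h9 3
        _ = Real.exp 3 := by rw [← Real.exp_nat_mul]; norm_num
    calc (8 : ℝ) ^ Δ ≤ Real.exp 3 ^ Δ := pow_le_pow_left₀ (by norm_num) h8 Δ
      _ = Real.exp (Δ * 3) := by rw [← Real.exp_nat_mul]
      _ ≤ Real.exp (Real.log n * (b / 4)) := Real.exp_le_exp.2 (by linarith)
      _ = (n : ℝ) ^ (b / 4) := by rw [Real.rpow_def_of_pos hn0]
  have e2 : ((n : ℝ) / 10) ^ (-(b / 2)) = (n : ℝ) ^ (-(b / 2)) * (10 : ℝ) ^ (b / 2) := by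
    rw [Real.div_rpow hn0.le (by norm_num), Real.rpow_neg (by norm_num : (0 : ℝ) ≤ 10), div_inv_eq_mul]
  have e3 : (n : ℝ) ^ (b / 4) * (n : ℝ) ^ (-(b / 2)) = (n : ℝ) ^ (-(b / 4)) := by
    rw [← Real.rpow_add hn0]; congr 1; ring
  have h10 : (0 : ℝ) < (10 : ℝ) ^ (b / 2) := by positivity
  rw [e2]
  calc (8 : ℝ) ^ Δ * ((n : ℝ) ^ (-(b / 2)) * (10 : ℝ) ^ (b / 2))
      ≤ (n : ℝ) ^ (b / 4) * ((n : ℝ) ^ (-(b / 2)) * (10 : ℝ) ^ (b / 2)) :=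
        mul_le_mul_of_nonneg_right e1 (by positivity)
    _ = (n : ℝ) ^ (-(b / 4)) * (10 : ℝ) ^ (b / 2) := by rw [← mul_assoc, e3]
    _ ≤ (1 / 2 * (10 : ℝ) ^ (-(b / 2))) * (10 : ℝ) ^ (b / 2) := mul_le_mul_of_nonneg_right h3.le h10.le
    _ = 1 / 2 := by
        rw [mul_assoc, ← Real.rpow_add (by norm_num)]
        simp

theorem half_sum (M : ℕ) : ∑ s ∈ Finset.Icc 1 M, (1 / 2 : ℝ) ^ s ≤ 1 := by
  have h : ∀ M : ℕ, ∑ m ∈ Finset.Icc 1 M, (1 / 2 : ℝ) ^ m = 1 - (1 / 2) ^ M := by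
    intro M
    induction M with
    | zero => simp
    | succ M ih =>
      rw [sum_Icc_succ_top (by omega), ih, pow_succ]; ring
  rw [h]
  have : (0 : ℝ) < (1 / 2) ^ M := by positivity
  linarith

theorem tau_le {n Δ M : ℕ} (b κ : ℝ) (hn : 10 ≤ n) (hb : b ≤ κ * M / 4)
    (h : (8 : ℝ) ^ Δ * ((n : ℝ) / 10) ^ (-(b / 2)) ≤ 1 / 2) :
    tau Δ M ((n : ℝ) / 10) κ ≤ ((n : ℝ) / 10) ^ (-(1 / 2) : ℝ) := by
  have hn10 : (10 : ℝ) ≤ n := by exact_mod_cast hn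
  have hq : 1 ≤ (n : ℝ) / 10 := by rw [le_div_iff₀ (by norm_num)]; linarith
  have hq0 : 0 < (n : ℝ) / 10 := by linarith
  set q := (n : ℝ) / 10 with hqd
  unfold tau
  calc ∑ s ∈ Finset.Icc 1 M, ((Δ : ℝ) ^ (2 * (s - 1)) * 2 ^ (Δ * s)) * q ^ (-((1 + κ * M / 4 * s) / 2))
      ≤ ∑ s ∈ Finset.Icc 1 M, q ^ (-(1 / 2) : ℝ) * (1 / 2) ^ s := by
        refine sum_le_sum fun s hs => ?_
        have hs1 : 1 ≤ s := (mem_Icc.1 hs).1
        have e1 : (Δ : ℝ) ^ (2 * (s - 1)) ≤ (4 : ℝ) ^ (Δ * s) := by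
          rcases Nat.eq_zero_or_pos Δ with h0 | h0
          · subst h0
            rw [Nat.zero_mul, pow_zero]
            rcases Nat.eq_zero_or_pos (2 * (s - 1)) with h2 | h2
            · rw [h2, pow_zero]
            · rw [Nat.cast_zero, zero_pow (by omega)]; norm_num
          · have h2 : (Δ : ℝ) ≤ 2 ^ Δ := by exact_mod_cast Nat.lt_two_pow_self.le
            have h3 : (1 : ℝ) ≤ Δ := by exact_mod_cast h0
            calc (Δ : ℝ) ^ (2 * (s - 1)) ≤ (Δ : ℝ) ^ (2 * s) := pow_le_pow_right₀ h3 (by omega)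
              _ ≤ ((2 : ℝ) ^ Δ) ^ (2 * s) := pow_le_pow_left₀ (by positivity) h2 _
              _ = (4 : ℝ) ^ (Δ * s) := by
                  rw [← pow_mul, show (4 : ℝ) = 2 ^ 2 by norm_num, ← pow_mul]; congr 1; ring
        have e2 : (Δ : ℝ) ^ (2 * (s - 1)) * 2 ^ (Δ * s) ≤ ((8 : ℝ) ^ Δ) ^ s := by
          calc _ ≤ (4 : ℝ) ^ (Δ * s) * 2 ^ (Δ * s) := mul_le_mul_of_nonneg_right e1 (by positivity)
            _ = ((8 : ℝ) ^ Δ) ^ s := by rw [← mul_pow, ← pow_mul]; norm_num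
        have e3 : q ^ (-((1 + κ * M / 4 * s) / 2)) ≤ q ^ (-(1 / 2) : ℝ) * (q ^ (-(b / 2))) ^ s := by
          rw [← Real.rpow_natCast (q ^ (-(b / 2))) s, ← Real.rpow_mul hq0.le, ← Real.rpow_add hq0]
          refine Real.rpow_le_rpow_of_exponent_le hq ?_
          have hs0 : (0 : ℝ) ≤ s := Nat.cast_nonneg _
          have := mul_le_mul_of_nonneg_right hb hs0
          linarith
        calc _ ≤ ((8 : ℝ) ^ Δ) ^ s * (q ^ (-(1 / 2) : ℝ) * (q ^ (-(b / 2))) ^ s) :=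
              mul_le_mul e2 e3 (Real.rpow_nonneg hq0.le _) (by positivity)
          _ = q ^ (-(1 / 2) : ℝ) * ((8 : ℝ) ^ Δ * q ^ (-(b / 2))) ^ s := by rw [mul_pow]; ring
          _ ≤ q ^ (-(1 / 2) : ℝ) * (1 / 2) ^ s := by
              refine mul_le_mul_of_nonneg_left ?_ (Real.rpow_nonneg hq0.le _)
              exact pow_le_pow_left₀ (mul_nonneg (by positivity) (Real.rpow_nonneg hq0.le _)) h s
    _ = q ^ (-(1 / 2) : ℝ) * ∑ s ∈ Finset.Icc 1 M, (1 / 2 : ℝ) ^ s := by rw [mul_sum]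
    _ ≤ q ^ (-(1 / 2) : ℝ) * 1 := mul_le_mul_of_nonneg_left (half_sum M) (Real.rpow_nonneg hq0.le _)
    _ = _ := mul_one _

/-- the numerical bound -/
theorem num (α δ : ℝ) (hα : 0 < α) (hδ : 0 < δ) (η : ℝ) (hη : 0 < η) : ∃ N : ℕ, ∀ n ≥ N, ∀ M Δ : ℕ,
    α * n < M → (Δ : ℝ) ≤ δ * α / 16 / 12 * Real.log n →
    2 ^ n * ((n : ℝ) / 10) ^ (-(δ / 4 / n * ((M : ℝ) / 4) * ((M : ℝ) - 1) / 2)) +
      2 * tau Δ M ((n : ℝ) / 10) (δ / 4 / n) ≤ η := by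
  have hb : 0 < δ * α / 16 := by positivity
  obtain ⟨N1, h1⟩ := num1 (δ * α ^ 2 / 64) (by positivity) (η / 2) (by positivity)
  obtain ⟨N2, h2⟩ := num2 (δ * α / 16) hb
  have h3 : Tendsto (fun n : ℕ => ((n : ℝ) / 10) ^ (-(1 / 2) : ℝ)) atTop (nhds 0) :=
    (tendsto_rpow_neg_atTop (by norm_num : (0 : ℝ) < 1 / 2)).comp
      (tendsto_natCast_atTop_atTop.atTop_div_const (by norm_num))
  have h4 : ∀ᶠ n : ℕ in atTop, ((n : ℝ) / 10) ^ (-(1 / 2) : ℝ) < η / 4 :=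
    h3.eventually (gt_mem_nhds (by positivity))
  obtain ⟨N3, h5⟩ := eventually_atTop.1 h4
  obtain ⟨N4, h6⟩ := exists_nat_gt (2 / α)
  refine ⟨max (max N1 N2) (max (max N3 N4) 10), fun n hn M Δ hM hΔ => ?_⟩
  have hn1 : n ≥ N1 := le_trans (by simp) hn
  have hn2 : n ≥ N2 := le_trans (by simp) hn
  have hn3 : n ≥ N3 := le_trans (by simp) hn
  have hn4 : n ≥ N4 := le_trans (by simp) hn
  have hn10 : 10 ≤ n := le_trans (by simp) hn
  have hn10' : (10 : ℝ) ≤ n := by exact_mod_cast hn10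
  have hn0 : (0 : ℝ) < n := by linarith
  have hq : 1 ≤ (n : ℝ) / 10 := by rw [le_div_iff₀ (by norm_num)]; linarith
  have hα2 : 2 ≤ α * n := by
    have : 2 / α < n := lt_of_lt_of_le h6 (by exact_mod_cast hn4)
    rw [div_lt_iff₀ hα] at this
    linarith
  have e1 : ((n : ℝ) / 10) ^ (-(δ / 4 / n * ((M : ℝ) / 4) * ((M : ℝ) - 1) / 2)) ≤
      ((n : ℝ) / 10) ^ (-(δ * α ^ 2 / 64 * n)) := by
    refine Real.rpow_le_rpow_of_exponent_le hq ?_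
    rw [neg_le_neg_iff]
    have e2 : (α * n) * (α * n / 2) ≤ (M : ℝ) * ((M : ℝ) - 1) :=
      mul_le_mul hM.le (by linarith) (by linarith) (by linarith)
    have e3 : δ * α ^ 2 / 64 * n = δ / 4 / n * (1 / 8) * ((α * n) * (α * n / 2)) := by
      field_simp; ring
    rw [e3]
    calc δ / 4 / n * (1 / 8) * ((α * n) * (α * n / 2)) ≤ δ / 4 / n * (1 / 8) * ((M : ℝ) * ((M : ℝ) - 1)) :=
          mul_le_mul_of_nonneg_left e2 (by positivity)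
      _ = _ := by ring
  have e4 : (2 : ℝ) ^ n * ((n : ℝ) / 10) ^ (-(δ / 4 / n * ((M : ℝ) / 4) * ((M : ℝ) - 1) / 2)) ≤ η / 2 :=
    (mul_le_mul_of_nonneg_left e1 (by positivity)).trans (h1 n hn1)
  have e5 : δ * α / 16 ≤ δ / 4 / n * M / 4 := by
    rw [div_mul_eq_mul_div, div_div, div_le_div_iff₀ (by norm_num) (by positivity)]
    nlinarith
  have e6 := tau_le (δ * α / 16) (δ / 4 / n) hn10 e5 (h2 n hn2 Δ hΔ)
  have e7 := h5 n hn3
  linarith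

end Pool.Agent.J4H99.RL
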