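import Mathlib
import Pool.Agent.J4H99.RL.Num

/-!
# Linear-size reconstructible sets just above the giant component threshold
-/

set_option autoImplicit false

namespace Pool.Agent.J4H99.RL

open Finset Filter Pool.Agent.R980
open scoped Classical

theorem rec_comap {n : ℕ} (x : Fin n → ℝ) (G : SimpleGraph (Fin n)) (σ : Equiv.Perm (Fin n)) (U : Finset (Fin n))
    (h : Rec (fun i => x (σ i)) G U) : Rec x (G.comap σ.symm) (U.map σ.toEmbedding) := by
  intro f hf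
  obtain ⟨s, t, hs, h2⟩ := h (fun i => f (σ i)) (fun a b hab => hf (σ a) (σ b) (by
    show G.Adj (σ.symm (σ a)) (σ.symm (σ b))
    rw [Equiv.symm_apply_apply, Equiv.symm_apply_apply]; exact hab))
  refine ⟨s, t, hs, fun u hu => ?_⟩
  obtain ⟨v, hv, rfl⟩ := mem_map.1 hu
  exact h2 v hv

/-- relabelling of graphs -/
def relab {n : ℕ} (σ : Equiv.Perm (Fin n)) : SimpleGraph (Fin n) ≃ SimpleGraph (Fin n) where
  toFun G := G.comap σ
  invFun G := G.comap σ.symm
  left_inv G := by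
    ext a b
    show G.Adj (σ (σ.symm a)) (σ (σ.symm b)) ↔ _
    rw [Equiv.apply_symm_apply, Equiv.apply_symm_apply]
  right_inv G := by
    ext a b
    show G.Adj (σ.symm (σ a)) (σ.symm (σ b)) ↔ _
    rw [Equiv.symm_apply_apply, Equiv.symm_apply_apply]

theorem ncard_comap {n : ℕ} (σ : Equiv.Perm (Fin n)) (G : SimpleGraph (Fin n)) :
    (G.comap σ).edgeSet.ncard = G.edgeSet.ncard := by
  rw [← Nat.card_coe_set_eq, ← Nat.card_coe_set_eq]
  exact Nat.card_congr (SimpleGraph.Iso.comap σ G).mapEdgeSet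

theorem gnp_comap {n : ℕ} (p : ℝ) (σ : Equiv.Perm (Fin n)) (A : SimpleGraph (Fin n) → Prop) :
    gnp n p (fun G => A (G.comap σ)) = gnp n p A := by
  unfold gnp
  rw [← (relab σ).sum_comp (fun G => if A G then p ^ G.edgeSet.ncard * (1 - p) ^ (n.choose 2 - G.edgeSet.ncard) else 0)]
  refine sum_congr rfl fun G _ => ?_
  change _ = if A (G.comap σ) then p ^ (G.comap σ).edgeSet.ncard *
    (1 - p) ^ (n.choose 2 - (G.comap σ).edgeSet.ncard) else 0
  rw [ncard_comap]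

/-- exchangeability of the labels -/
theorem exch {n : ℕ} {p : ℝ} (h0 : 0 ≤ p) (h1 : p ≤ 1) (x : Fin n → ℝ) (c η : ℝ) (hη : 0 ≤ η)
    (bad : (Edge n → Bool) → Prop)
    (h : ∀ z, ¬ bad z → (((univ : Finset (Equiv.Perm (Fin n))).filter (fun σ =>
      ¬ ∃ U : Finset (Fin n), c * n ≤ U.card ∧ Rec (fun i => x (σ i)) (ofBool z) U)).card : ℝ) ≤
        n.factorial * η) :
    gnp n p (fun G => ¬ ∃ U : Finset (Fin n), c * n ≤ U.card ∧ Rec x G U) ≤ pr p bad + η := by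
  have hf : (0 : ℝ) < n.factorial := by exact_mod_cast Nat.factorial_pos n
  have hσ : ∀ σ : Equiv.Perm (Fin n), gnp n p (fun G => ¬ ∃ U : Finset (Fin n), c * n ≤ U.card ∧ Rec x G U) ≤
      pr p (fun z : Edge n → Bool => ¬ ∃ U : Finset (Fin n), c * n ≤ U.card ∧ Rec (fun i => x (σ i)) (ofBool z) U) := by
    intro σ
    rw [← gnp_comap p σ.symm, ← gnp_eq_pr n p
      (fun G => ¬ ∃ U : Finset (Fin n), c * n ≤ U.card ∧ Rec (fun i => x (σ i)) G U)]
    refine gnp_mono h0 h1 fun G hG hU => hG ?_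
    obtain ⟨U, hU1, hU2⟩ := hU
    exact ⟨U.map σ.toEmbedding, by rw [card_map]; exact hU1, rec_comap x G σ U hU2⟩
  have h2 : n.factorial * gnp n p (fun G => ¬ ∃ U : Finset (Fin n), c * n ≤ U.card ∧ Rec x G U) ≤
      ∑ σ : Equiv.Perm (Fin n), pr p (fun z : Edge n → Bool =>
        ¬ ∃ U : Finset (Fin n), c * n ≤ U.card ∧ Rec (fun i => x (σ i)) (ofBool z) U) := by
    calc (n.factorial : ℝ) * gnp n p (fun G => ¬ ∃ U : Finset (Fin n), c * n ≤ U.card ∧ Rec x G U)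
        = ∑ σ : Equiv.Perm (Fin n), gnp n p (fun G => ¬ ∃ U : Finset (Fin n), c * n ≤ U.card ∧ Rec x G U) := by
          rw [sum_const, card_univ, Fintype.card_perm, Fintype.card_fin, nsmul_eq_mul]
      _ ≤ _ := sum_le_sum fun σ _ => hσ σ
  have h3 : ∑ σ : Equiv.Perm (Fin n), pr p (fun z : Edge n → Bool =>
        ¬ ∃ U : Finset (Fin n), c * n ≤ U.card ∧ Rec (fun i => x (σ i)) (ofBool z) U) ≤
      bex p (fun z : Edge n → Bool => n.factorial * (if bad z then (1 : ℝ) else 0) + n.factorial * η) := by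
    unfold pr
    rw [← bex_sum]
    refine bex_mono h0 h1 fun z => ?_
    refine le_trans (le_of_eq (b := (((univ : Finset (Equiv.Perm (Fin n))).filter (fun σ =>
          ¬ ∃ U : Finset (Fin n), c * n ≤ U.card ∧ Rec (fun i => x (σ i)) (ofBool z) U)).card : ℝ)) ?_) ?_
    · rw [card_filter]
      push_cast
      refine sum_congr rfl fun σ _ => ?_
      by_cases hU : ∃ U : Finset (Fin n), c * n ≤ U.card ∧ Rec (fun i => x (σ i)) (ofBool z) U
      · rw [if_neg (not_not.2 hU), if_neg (not_not.2 hU)]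
      · rw [if_pos hU, if_pos hU]
    by_cases hz : bad z
    · rw [if_pos hz, mul_one]
      have h4 : ((univ : Finset (Equiv.Perm (Fin n))).filter (fun σ =>
          ¬ ∃ U : Finset (Fin n), c * n ≤ U.card ∧ Rec (fun i => x (σ i)) (ofBool z) U)).card ≤ n.factorial := by
        refine (card_le_univ _).trans (le_of_eq ?_)
        rw [Fintype.card_perm, Fintype.card_fin]
      have h5 : (((univ : Finset (Equiv.Perm (Fin n))).filter (fun σ =>
          ¬ ∃ U : Finset (Fin n), c * n ≤ U.card ∧ Rec (fun i => x (σ i)) (ofBool z) U)).card : ℝ) ≤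
          n.factorial := by exact_mod_cast h4
      have h6 : 0 ≤ (n.factorial : ℝ) * η := by positivity
      linarith
    · rw [if_neg hz, mul_zero, zero_add]
      exact h z hz
  rw [bex_add, bex_const, bex_mul] at h3
  have h7 : (n.factorial : ℝ) * gnp n p (fun G => ¬ ∃ U : Finset (Fin n), c * n ≤ U.card ∧ Rec x G U) ≤
      n.factorial * (pr p bad + η) := by
    refine h2.trans (h3.trans (le_of_eq ?_))
    unfold pr
    ring
  exact le_of_mul_le_mul_left h7 hf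

theorem numc (l : ℕ) (τ δ ρ : ℝ) (hτ : 0 < τ) (hδ : 0 < δ) (hρ : 0 < ρ) : ∃ N : ℕ, ∀ n ≥ N,
    (l : ℝ) * Real.sqrt n * (τ * Real.log n) ≤ δ * (ρ * n) ∧ (l : ℝ) * Real.sqrt n + 2 ≤ ρ * n := by
  have h1 := (isLittleO_log_rpow_atTop (by norm_num : (0 : ℝ) < 1 / 2)).def
    (show 0 < δ * ρ / (l * τ + 1) by positivity)
  have h2 := tendsto_natCast_atTop_atTop (R := ℝ) |>.eventually h1
  have h3 : ∀ᶠ n : ℕ in atTop, ((2 * (l + 1)) / ρ) ^ 2 + 4 / ρ + 1 ≤ (n : ℝ) :=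
    tendsto_natCast_atTop_atTop.eventually_ge_atTop _
  obtain ⟨N, hN⟩ := eventually_atTop.1 (h2.and h3)
  refine ⟨max N 2, fun n hn => ?_⟩
  obtain ⟨h4, h5⟩ := hN n ((le_max_left _ _).trans hn)
  have hn2 : (2 : ℝ) ≤ n := by exact_mod_cast (le_max_right _ _).trans hn
  have hn0 : (0 : ℝ) < n := by linarith
  have hlog : 0 ≤ Real.log n := Real.log_nonneg (by linarith)
  have hl : (0 : ℝ) ≤ l := Nat.cast_nonneg _
  have hs : 0 < Real.sqrt n := Real.sqrt_pos.2 hn0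
  have hss : Real.sqrt n * Real.sqrt n = n := Real.mul_self_sqrt hn0.le
  constructor
  · rw [Real.norm_of_nonneg hlog, ← Real.sqrt_eq_rpow, Real.norm_of_nonneg hs.le] at h4
    have h6 : (l : ℝ) * τ * (δ * ρ / (l * τ + 1)) ≤ δ * ρ := by
      rw [← mul_div_assoc, div_le_iff₀ (by positivity)]
      nlinarith [mul_pos hδ hρ]
    calc (l : ℝ) * Real.sqrt n * (τ * Real.log n)
        ≤ (l : ℝ) * Real.sqrt n * (τ * (δ * ρ / (l * τ + 1) * Real.sqrt n)) := by
          refine mul_le_mul_of_nonneg_left ?_ (by positivity)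
          exact mul_le_mul_of_nonneg_left h4 hτ.le
      _ = (l : ℝ) * τ * (δ * ρ / (l * τ + 1)) * (Real.sqrt n * Real.sqrt n) := by ring
      _ = (l : ℝ) * τ * (δ * ρ / (l * τ + 1)) * n := by rw [hss]
      _ ≤ δ * ρ * n := mul_le_mul_of_nonneg_right h6 hn0.le
      _ = _ := by ring
  · have q1 : 0 < 4 / ρ := by positivity
    have q2 : 0 ≤ ((2 * ((l : ℝ) + 1)) / ρ) ^ 2 := sq_nonneg _
    have h6 : 2 * ((l : ℝ) + 1) / ρ ≤ Real.sqrt n := Real.le_sqrt_of_sq_le (by linarith)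
    rw [div_le_iff₀ hρ] at h6
    have h7 : 4 / ρ ≤ n := by linarith
    rw [div_le_iff₀ hρ] at h7
    have h8 : 2 * ((l : ℝ) + 1) * Real.sqrt n ≤ ρ * n := by
      calc 2 * ((l : ℝ) + 1) * Real.sqrt n ≤ Real.sqrt n * ρ * Real.sqrt n := mul_le_mul_of_nonneg_right h6 hs.le
        _ = ρ * (Real.sqrt n * Real.sqrt n) := by ring
        _ = ρ * n := by rw [hss]
    nlinarith

/-- The main theorem, for small `ε`. -/
theorem main_small (ε : ℝ) (hε : 0 < ε) (hε1 : ε ≤ 1 / 2) : ∃ c : ℝ, 0 < c ∧ ∀ η : ℝ, 0 < η → ∃ N : ℕ, ∀ n ≥ N,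
    ∀ x : Fin n → ℝ, Function.Injective x →
      1 - η ≤ gnp n ((1 + ε) / n) (fun G => ∃ U : Finset (Fin n), c * n ≤ U.card ∧ Rec x G U) := by
  set ρ := ε / 64 with hρ
  set δ := ε * (ε / 64) ^ 2 / 256 with hδd
  have hρ0 : 0 < ρ := by positivity
  have hδ : 0 < δ := by positivity
  have hδ1 : δ ≤ 1 := by
    have h1 : (ε / 64) ^ 2 ≤ 1 := by
      rw [sq_le_one_iff₀ (by positivity)]; linarith
    rw [hδd, div_le_one (by norm_num)]
    nlinarith
  obtain ⟨α, hα, hα1, hsp⟩ := sparse_whp (δ / 8) (by positivity) (by linarith)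
  set l : ℕ := ⌈16 / δ⌉₊ with hl
  set τ := δ * α / 16 / 12 with hτ
  have hτ0 : 0 < τ := by positivity
  refine ⟨α / 2, by positivity, fun η hη => ?_⟩
  obtain ⟨Na, ha⟩ := dense_whp ε hε (by linarith) (η / 10) (by positivity)
  obtain ⟨Nb, hb⟩ := edges_whp (η / 10) (by positivity)
  obtain ⟨Nc, hc⟩ := deg_whp τ hτ0 (η / 10) (by positivity)
  obtain ⟨Nd, hd⟩ := sd_whp l (η / 10) (by positivity)
  obtain ⟨Ne, he⟩ := hsp (η / 10) (by positivity)
  obtain ⟨Nf, hf⟩ := num α δ hα hδ (η / 2) (by positivity)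
  obtain ⟨Ng, hg⟩ := numc l τ δ ρ hτ0 hδ hρ0
  obtain ⟨Nh, hh⟩ := exists_nat_gt (4 / α)
  refine ⟨Na + Nb + Nc + Nd + Ne + Nf + Ng + Nh + 10, fun n hn x hx => ?_⟩
  have hn10 : 10 ≤ n := by omega
  have hn10' : (10 : ℝ) ≤ n := by exact_mod_cast hn10
  have hn0 : (0 : ℝ) < n := by linarith
  have hα4 : 4 ≤ α * n := by
    have h1 : (Nh : ℝ) ≤ n := by exact_mod_cast (show Nh ≤ n by omega)
    have h2 : 4 / α < n := lt_of_lt_of_le hh h1
    rw [div_lt_iff₀ hα] at h2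
    linarith
  have hlog : 0 ≤ Real.log n := Real.log_nonneg (by linarith)
  obtain ⟨hg1, hg2⟩ := hg n (by omega)
  set p : ℝ := 1 - (1 - (1 + ε / 2) / n) * (1 - ε / 4 / n) with hp
  have hA : (1 + ε / 2) / n ≤ 1 := by rw [div_le_one hn0]; linarith
  have hB : ε / 4 / n ≤ 1 := by rw [div_le_one hn0]; linarith
  have hA0 : 0 ≤ (1 + ε / 2) / n := by positivity
  have hB0 : 0 ≤ ε / 4 / n := by positivity
  have hp0 : 0 ≤ p := by
    rw [hp]
    have : (1 - (1 + ε / 2) / n) * (1 - ε / 4 / n) ≤ 1 := mul_le_one₀ (by linarith) (by linarith) (by linarith)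
    linarith
  have hp1 : p ≤ 1 := by
    rw [hp]
    have : 0 ≤ (1 - (1 + ε / 2) / n) * (1 - ε / 4 / n) := mul_nonneg (by linarith) (by linarith)
    linarith
  have hpε : p ≤ (1 + ε) / n := by
    have h1 : p ≤ (1 + ε / 2) / n + ε / 4 / n := by
      rw [hp]
      nlinarith [mul_nonneg hA0 hB0]
    have h2 : (1 + ε / 2) / n + ε / 4 / n ≤ (1 + ε) / n := by
      rw [← add_div]
      exact div_le_div_of_nonneg_right (by linarith) hn0.le
    linarith
  have hp32 : p ≤ 3 / 2 / n := hpε.trans (div_le_div_of_nonneg_right (by linarith) hn0.le)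
  have hq1 : (1 + ε) / n ≤ 1 := by rw [div_le_one hn0]; linarith
  set bad : (Edge n → Bool) → Prop := fun z =>
    (¬ Dense ρ δ z ∧ ecard z ≤ n) ∨ ((4 / 5 : ℝ) * n < ecard z) ∨
    (∃ w ∈ (univ : Finset (Fin n)), τ * Real.log n < (nb (ofBool z) w).card) ∨
    (Real.sqrt n ≤ (sd l (ofBool z)).card) ∨
    (∃ X ∈ (univ : Finset (Finset (Fin n))),
      (1 ≤ X.card ∧ (X.card : ℝ) ≤ α * n) ∧ (1 + δ / 8) * X.card < ein (ofBool z) X) with hbad
  have hpb : pr p bad ≤ η / 2 := by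
    have e1 := ha n (by omega)
    have e2 := hb n (by omega) p hp0 hp32
    have e3 := hc n (by omega) p hp0 hp32
    have e4 := hd n (by omega) p hp0 hp32
    have e5 := he n (by omega) p hp0 hp32
    have f1 := pr_or hp0 hp1 (fun z : Edge n → Bool => ¬ Dense ρ δ z ∧ ecard z ≤ n) (fun z =>
      ((4 / 5 : ℝ) * n < ecard z) ∨
      (∃ w ∈ (univ : Finset (Fin n)), τ * Real.log n < (nb (ofBool z) w).card) ∨
      (Real.sqrt n ≤ (sd l (ofBool z)).card) ∨
      (∃ X ∈ (univ : Finset (Finset (Fin n))),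
        (1 ≤ X.card ∧ (X.card : ℝ) ≤ α * n) ∧ (1 + δ / 8) * X.card < ein (ofBool z) X))
    have f2 := pr_or hp0 hp1 (fun z : Edge n → Bool => (4 / 5 : ℝ) * n < ecard z) (fun z =>
      (∃ w ∈ (univ : Finset (Fin n)), τ * Real.log n < (nb (ofBool z) w).card) ∨
      (Real.sqrt n ≤ (sd l (ofBool z)).card) ∨
      (∃ X ∈ (univ : Finset (Finset (Fin n))),
        (1 ≤ X.card ∧ (X.card : ℝ) ≤ α * n) ∧ (1 + δ / 8) * X.card < ein (ofBool z) X))
    have f3 := pr_or hp0 hp1 (fun z : Edge n → Bool =>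
      ∃ w ∈ (univ : Finset (Fin n)), τ * Real.log n < (nb (ofBool z) w).card) (fun z =>
      (Real.sqrt n ≤ (sd l (ofBool z)).card) ∨
      (∃ X ∈ (univ : Finset (Finset (Fin n))),
        (1 ≤ X.card ∧ (X.card : ℝ) ≤ α * n) ∧ (1 + δ / 8) * X.card < ein (ofBool z) X))
    have f4 := pr_or hp0 hp1 (fun z : Edge n → Bool => Real.sqrt n ≤ (sd l (ofBool z)).card) (fun z =>
      (∃ X ∈ (univ : Finset (Finset (Fin n))),
        (1 ≤ X.card ∧ (X.card : ℝ) ≤ α * n) ∧ (1 + δ / 8) * X.card < ein (ofBool z) X))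
    linarith
  have hmain : gnp n p (fun G => ¬ ∃ U : Finset (Fin n), α / 2 * n ≤ U.card ∧ Rec x G U) ≤ pr p bad + η / 2 := by
    refine exch hp0 hp1 x (α / 2) (η / 2) (by positivity) bad fun z hz => ?_
    rw [hbad] at hz
    simp only [not_or] at hz
    obtain ⟨z1, z2, z3, z4, z5⟩ := hz
    have h5 : (ecard z : ℝ) ≤ 4 / 5 * n := not_lt.1 z2
    have h5' : ecard z ≤ n := by
      have : (ecard z : ℝ) ≤ n := by linarith
      exact_mod_cast this
    have h1 : Dense ρ δ z := by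
      by_contra h
      exact z1 ⟨h, h5'⟩
    have h2 : ∀ w : Fin n, ((nb (ofBool z) w).card : ℝ) ≤ τ * Real.log n := by
      intro w
      by_contra h
      exact z3 ⟨w, mem_univ _, not_le.1 h⟩
    have h4 : ∀ X : Finset (Fin n), 1 ≤ X.card → (X.card : ℝ) ≤ α * n →
        (ein (ofBool z) X : ℝ) ≤ (1 + δ / 8) * X.card := by
      intro X hX1 hX2
      by_contra h
      exact z5 ⟨X, mem_univ _, ⟨hX1, hX2⟩, not_le.1 h⟩
    obtain ⟨W, hW⟩ := exists_W z ρ δ α (τ * Real.log n) l hδ hδ1 (Nat.le_ceil _) hn10 hg1 hg2 (by positivity)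
      h1 h2 (not_le.1 z4) h4 h5
    have h6 := perm_bound x hx (ofBool z) α δ hδ hδ1 hn10 hα4 ⌊τ * Real.log n⌋₊
      (fun w => Nat.le_floor (h2 w)) W hW
    refine h6.trans (mul_le_mul_of_nonneg_left ?_ (Nat.cast_nonneg _))
    exact hf n (by omega) W.card _ hW.large (Nat.floor_le (by positivity))
  have hnot := gnp_add_not (n := n) (p := p) (fun G => ∃ U : Finset (Fin n), α / 2 * n ≤ U.card ∧ Rec x G U)
  have hmono := N943.RC.monoP n p ((1 + ε) / n) (fun G => ∃ U : Finset (Fin n), α / 2 * n ≤ U.card ∧ Rec x G U)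
    hp0 hpε hq1 (by
      rintro G G' hGG ⟨U, hU1, hU2⟩
      exact ⟨U, hU1, fun f hf => hU2 f fun a b hab => hf a b (hGG hab)⟩)
  linarith

end Pool.Agent.J4H99.RL
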